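import Pool.Agent.W804.HP.Hyp

/-!
# The Aizenman-Kesten-Newman inequality for hyperedge percolation
-/

set_option autoImplicit false
set_option linter.all false
set_option linter.deprecated false

open MeasureTheory Set Pool.Agent.H978R2

namespace Pool.Agent.W804.HP

variable {ι V : Type*}

/-- the hyperedge `i` touches two different clusters which meet `B` -/
def TW (N : ι → Set V) (E : Finset ι) (B : Set V) (i : ι) : Set (ι → Bool) :=
  {ω | ∃ x ∈ N i, ∃ y ∈ N i, x ∈ cl N E ω B ∧ y ∈ cl N E ω B ∧ ¬ Con N E ω x y}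

lemma cl_single_eq {N : ι → Set V} {E : Finset ι} {ω : ι → Bool} {x y : V}
    (h : Con N E ω x y) : cl N E ω {x} = cl N E ω {y} := by
  ext v
  constructor
  · rintro ⟨_, rfl, hr⟩; exact ⟨y, rfl, h.symm.trans hr⟩
  · rintro ⟨_, rfl, hr⟩; exact ⟨x, rfl, h.trans hr⟩

section
open Classical

/-- the set of clusters meeting `B` -/
noncomputable def CC (N : ι → Set V) (E : Finset ι) (ω : ι → Bool) (B : Finset V) :
    Finset (Set V) := B.image fun b => cl N E ω {b}

lemma mem_CC {N : ι → Set V} {E : Finset ι} {ω : ι → Bool} {B : Finset V} {C : Set V} {x : V} :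
    C ∈ CC N E ω B ∧ x ∈ C ↔ x ∈ cl N E ω (B : Set V) ∧ C = cl N E ω {x} := by
  unfold CC
  rw [Finset.mem_image]
  constructor
  · rintro ⟨⟨b, hb, rfl⟩, a, ha, hr⟩
    have ha' : a = b := ha
    subst ha'
    exact ⟨⟨a, hb, hr⟩, cl_single_eq hr⟩
  · rintro ⟨⟨b, hb, hr⟩, rfl⟩
    exact ⟨⟨b, hb, cl_single_eq hr⟩, subset_cl _ _ _ _ rfl⟩

/-- number of clusters touched by a hyperedge: upper bound -/
lemma card_touch_le {N : ι → Set V} {E : Finset ι} {ω : ι → Bool} {B : Finset V} {i : ι}
    {s : Finset V} (hs : N i ⊆ (s : Set V)) :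
    ((CC N E ω B).filter (fun C => tch N i C)).card ≤ s.card := by
  have h : (CC N E ω B).filter (fun C => tch N i C) ⊆ s.image (fun x => cl N E ω {x}) := by
    intro C hC
    rw [Finset.mem_filter] at hC
    obtain ⟨hC1, x, hx, hxC⟩ := hC
    have h1 := (mem_CC.1 ⟨hC1, hxC⟩).2
    rw [Finset.mem_image]
    exact ⟨x, hs hx, h1.symm⟩
  exact le_trans (Finset.card_le_card h) Finset.card_image_le

/-- an open hyperedge touches at most one cluster -/
lemma card_touch_open {N : ι → Set V} {E : Finset ι} {ω : ι → Bool} {B : Finset V} {i : ι}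
    (hi : i ∈ E) (ho : ω i = true) :
    (((CC N E ω B).filter (fun C => tch N i C)).card : ℝ) =
      (if tch N i (cl N E ω (B : Set V)) then 1 else 0) := by
  by_cases h : tch N i (cl N E ω (B : Set V))
  · rw [if_pos h]
    obtain ⟨x, hx, hxB⟩ := h
    have : (CC N E ω B).filter (fun C => tch N i C) = {cl N E ω {x}} := by
      ext C
      rw [Finset.mem_filter, Finset.mem_singleton]
      constructor
      · rintro ⟨hC, y, hy, hyC⟩
        rw [(mem_CC.1 ⟨hC, hyC⟩).2]
        exact cl_single_eq (Con.single ⟨i, hi, ho, hy, hx⟩)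
      · rintro rfl
        have := mem_CC.2 ⟨hxB, rfl⟩
        exact ⟨this.1, x, hx, this.2⟩
    rw [this]; simp
  · rw [if_neg h]
    have : (CC N E ω B).filter (fun C => tch N i C) = ∅ := by
      rw [Finset.filter_eq_empty_iff]
      rintro C hC ⟨y, hy, hyC⟩
      exact h ⟨y, hy, (mem_CC.1 ⟨hC, hyC⟩).1⟩
    rw [this]; simp

lemma card_touch_ge {N : ι → Set V} {E : Finset ι} {ω : ι → Bool} {B : Finset V} {i : ι} :
    (if tch N i (cl N E ω (B : Set V)) then 1 else 0) + (if ω ∈ TW N E (B : Set V) i then 1 else 0)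
      ≤ (((CC N E ω B).filter (fun C => tch N i C)).card : ℝ) := by
  by_cases hT : ω ∈ TW N E (B : Set V) i
  · obtain ⟨x, hx, y, hy, hxB, hyB, hn⟩ := hT
    have h1 : ({cl N E ω {x}, cl N E ω {y}} : Finset (Set V)) ⊆
        (CC N E ω B).filter (fun C => tch N i C) := by
      intro C hC
      rw [Finset.mem_insert, Finset.mem_singleton] at hC
      rw [Finset.mem_filter]
      rcases hC with rfl | rfl
      · have := mem_CC.2 ⟨hxB, rfl⟩
        exact ⟨this.1, x, hx, this.2⟩
      · have := mem_CC.2 ⟨hyB, rfl⟩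
        exact ⟨this.1, y, hy, this.2⟩
    have hne : cl N E ω {x} ≠ cl N E ω {y} := by
      intro h
      have : y ∈ cl N E ω {x} := by rw [h]; exact subset_cl _ _ _ _ rfl
      obtain ⟨_, rfl, hr⟩ := this
      exact hn hr
    have h2 := Finset.card_le_card h1
    rw [Finset.card_pair hne] at h2
    have h3 : (2 : ℝ) ≤ (((CC N E ω B).filter (fun C => tch N i C)).card : ℝ) := by
      exact_mod_cast h2
    split_ifs <;> linarith
  · rw [if_neg hT]
    by_cases h : tch N i (cl N E ω (B : Set V))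
    · rw [if_pos h]
      obtain ⟨x, hx, hxB⟩ := h
      have := mem_CC.2 ⟨hxB, rfl⟩
      have h1 : 0 < ((CC N E ω B).filter (fun C => tch N i C)).card :=
        Finset.card_pos.2 ⟨cl N E ω {x}, Finset.mem_filter.2 ⟨this.1, x, hx, this.2⟩⟩
      have h2 : (1 : ℝ) ≤ (((CC N E ω B).filter (fun C => tch N i C)).card : ℝ) := by
        exact_mod_cast h1
      linarith
    · rw [if_neg h]
      have h2 : (0 : ℝ) ≤ (((CC N E ω B).filter (fun C => tch N i C)).card : ℝ) :=
        Nat.cast_nonneg _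
      linarith

lemma sum_MM {N : ι → Set V} {E : Finset ι} {p : ℝ} {ω : ι → Bool} (𝒞 : Finset (Set V)) :
    ∑ C ∈ 𝒞, MM N E p ω C = ∑ i ∈ E, (bv (ω i) - p) *
      ((𝒞.filter (fun C => tch N i C)).card : ℝ) := by
  unfold MM
  rw [Finset.sum_comm]
  refine Finset.sum_congr rfl fun e _ => ?_
  rw [← Finset.sum_filter, Finset.sum_const, nsmul_eq_mul, mul_comm]

lemma sum_NN {N : ι → Set V} {E : Finset ι} (𝒞 : Finset (Set V)) :
    ∑ C ∈ 𝒞, NN N E C = ∑ i ∈ E, ((𝒞.filter (fun C => tch N i C)).card : ℝ) := by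
  unfold NN
  rw [Finset.sum_comm]
  refine Finset.sum_congr rfl fun e _ => ?_
  rw [← Finset.sum_filter, Finset.sum_const, nsmul_eq_mul, mul_one]

/-- the combinatorial inequality -/
lemma akn_identity {N : ι → Set V} {E : Finset ι} {p : ℝ} (h0 : 0 ≤ p) (ω : ι → Bool)
    (B : Finset V) :
    p * ∑ i ∈ E, I1 (TW N E (B : Set V) i) ω ≤
      MM N E p ω (cl N E ω (B : Set V)) - ∑ C ∈ CC N E ω B, MM N E p ω C := by
  rw [sum_MM]
  unfold MM
  rw [Finset.mul_sum, ← Finset.sum_sub_distrib]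
  refine Finset.sum_le_sum fun i hi => ?_
  by_cases ho : ω i = true
  · rw [card_touch_open hi ho]
    have hT : ω ∉ TW N E (B : Set V) i := by
      rintro ⟨x, hx, y, hy, _, _, hn⟩
      exact hn (Con.single ⟨i, hi, ho, hx, hy⟩)
    rw [I1_not hT]
    split_ifs <;> simp
  · have ho' : ω i = false := by simpa using ho
    have h1 := card_touch_ge (N := N) (E := E) (ω := ω) (B := B) (i := i)
    set c : ℝ := (((CC N E ω B).filter (fun C => tch N i C)).card : ℝ)
    have hb : bv (ω i) = 0 := by rw [ho']; rfl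
    rw [hb]
    have h2 : I1 (TW N E (B : Set V) i) ω = (if ω ∈ TW N E (B : Set V) i then 1 else 0) := by
      by_cases h : ω ∈ TW N E (B : Set V) i
      · rw [I1_mem h, if_pos h]
      · rw [I1_not h, if_neg h]
    rw [h2]
    have h3 := mul_le_mul_of_nonneg_left h1 h0
    by_cases ht : tch N i (cl N E ω (B : Set V))
    · rw [if_pos ht] at h3 ⊢
      nlinarith
    · rw [if_neg ht] at h3 ⊢
      nlinarith

lemma sum_CC_le {N : ι → Set V} {E : Finset ι} {ω : ι → Bool} {B : Finset V} (f : Set V → ℝ)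
    (hf : ∀ C, 0 ≤ f C) : ∑ C ∈ CC N E ω B, f C ≤ ∑ b ∈ B, f (cl N E ω {b}) := by
  unfold CC
  induction B using Finset.induction_on with
  | empty => simp
  | insert b B hb ih =>
    rw [Finset.image_insert, Finset.sum_insert hb]
    by_cases h : cl N E ω {b} ∈ B.image (fun b => cl N E ω {b})
    · rw [Finset.insert_eq_of_mem h]
      have := hf (cl N E ω {b})
      linarith
    · rw [Finset.sum_insert h]
      linarith

theorem akn (N : ι → Set V) (E : Finset ι) (D : ℕ)
    (hD : ∀ i ∈ E, ∃ s : Finset V, s.card ≤ D ∧ N i ⊆ (s : Set V))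
    (p lam : ℝ) (h0 : 0 ≤ p) (h1 : p ≤ 1) (hl0 : 0 < lam) (hl1 : lam ≤ 1) (B : Finset V) :
    p * ∑ i ∈ E, EE E p (I1 (TW N E (B : Set V) i)) ≤ B.card / lam + D * lam * E.card := by
  have key : ∀ ω : ι → Bool, p * ∑ i ∈ E, I1 (TW N E (B : Set V) i) ω ≤
      MM N E p ω (cl N E ω (B : Set V)) + ((1 / lam) * ∑ b ∈ B, Real.exp (-lam * MM N E p ω
        (cl N E ω {b}) - lam ^ 2 * NN N E (cl N E ω {b})) + D * lam * E.card) := by
    intro ω
    refine le_trans (akn_identity h0 ω B) ?_
    have h2 : ∀ C : Set V, -MM N E p ω C ≤ (1 / lam) * Real.exp (-lam * MM N E p ω C -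
        lam ^ 2 * NN N E C) + lam * NN N E C := by
      intro C
      have h3 := Real.add_one_le_exp (-lam * MM N E p ω C - lam ^ 2 * NN N E C)
      have h4 : -lam * MM N E p ω C - lam ^ 2 * NN N E C ≤ Real.exp (-lam * MM N E p ω C -
        lam ^ 2 * NN N E C) := by linarith
      have h5 : -MM N E p ω C = (1 / lam) * (-lam * MM N E p ω C - lam ^ 2 * NN N E C) +
          lam * NN N E C := by
        field_simp
        ring
      rw [h5]
      have h6 := mul_le_mul_of_nonneg_left h4 (by positivity : (0 : ℝ) ≤ 1 / lam)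
      linarith
    have h7 : -∑ C ∈ CC N E ω B, MM N E p ω C ≤ (1 / lam) * ∑ C ∈ CC N E ω B, Real.exp (-lam *
        MM N E p ω C - lam ^ 2 * NN N E C) + lam * ∑ C ∈ CC N E ω B, NN N E C := by
      rw [← Finset.sum_neg_distrib, Finset.mul_sum, Finset.mul_sum, ← Finset.sum_add_distrib]
      exact Finset.sum_le_sum fun C _ => h2 C
    have h8 : ∑ C ∈ CC N E ω B, Real.exp (-lam * MM N E p ω C - lam ^ 2 * NN N E C) ≤
        ∑ b ∈ B, Real.exp (-lam * MM N E p ω (cl N E ω {b}) - lam ^ 2 * NN N E (cl N E ω {b})) :=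
      sum_CC_le (fun C => Real.exp (-lam * MM N E p ω C - lam ^ 2 * NN N E C))
        fun C => (Real.exp_pos _).le
    have h9 : ∑ C ∈ CC N E ω B, NN N E C ≤ D * E.card := by
      rw [sum_NN]
      have : ∀ i ∈ E, (((CC N E ω B).filter (fun C => tch N i C)).card : ℝ) ≤ (D : ℝ) := by
        intro i hi
        obtain ⟨s, hs1, hs2⟩ := hD i hi
        have := (card_touch_le (N := N) (E := E) (ω := ω) (B := B) hs2).trans hs1
        exact_mod_cast this
      have h10 := Finset.sum_le_sum this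
      rw [Finset.sum_const, nsmul_eq_mul] at h10
      linarith
    have h11 := mul_le_mul_of_nonneg_left h8 (by positivity : (0 : ℝ) ≤ 1 / lam)
    have h12 := mul_le_mul_of_nonneg_left h9 hl0.le
    have h13 : lam * (D * E.card) = D * lam * E.card := by ring
    linarith
  have h2 := EE_mono (E := E) h0 h1 key
  rw [EE_mul, EE_sum, EE_add, mart_zero, EE_add, EE_mul, EE_sum, EE_const] at h2
  have h3 : ∑ b ∈ B, EE E p (fun ω => Real.exp (-lam * MM N E p ω (cl N E ω {b}) -
      lam ^ 2 * NN N E (cl N E ω {b}))) ≤ B.card := by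
    have := Finset.sum_le_sum fun b (_ : b ∈ B) => exp_bound N p lam h0 h1 hl0.le hl1 E {b}
    rw [Finset.sum_const, nsmul_eq_mul, mul_one] at this
    exact this
  have h4 := mul_le_mul_of_nonneg_left h3 (by positivity : (0 : ℝ) ≤ 1 / lam)
  have h5 : (1 / lam) * (B.card : ℝ) = B.card / lam := by ring
  linarith

end

end Pool.Agent.W804.HP
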