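import Pool.Agent.W870.PD.Stmts

/-!
# Cluster-wise Aizenman-Kesten-Newman bound
-/

set_option autoImplicit false
set_option linter.all false
set_option linter.deprecated false

open MeasureTheory Set Pool.Agent.H978R2

namespace Pool.Agent.W804.HP

variable {ι V : Type*}

lemma MM_upd_ne [DecidableEq ι] {N : ι → Set V} {E : Finset ι} {p : ℝ} {ω : ι → Bool} {S : Set V}
    {i : ι} (hi : i ∉ E) (b : Bool) : MM N E p (upd i b ω) S = MM N E p ω S := by
  classical
  unfold MM
  refine Finset.sum_congr rfl fun j hj => ?_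
  have : j ≠ i := by rintro rfl; exact hi hj
  rw [upd_ne this]

lemma inter_erase_mem [DecidableEq ι] (E R : Finset ι) (i : ι) (hR : i ∈ R) :
    E.erase i ∩ R = (E ∩ R).erase i := by
  ext j; simp only [Finset.mem_inter, Finset.mem_erase]; tauto

lemma inter_erase_not [DecidableEq ι] (E R : Finset ι) (i : ι) (hR : i ∉ R) :
    E.erase i ∩ R = E ∩ R := by
  ext j; simp only [Finset.mem_inter, Finset.mem_erase]
  constructor
  · tauto
  · rintro ⟨h1, h2⟩
    refine ⟨⟨?_, h1⟩, h2⟩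
    rintro rfl; exact hR h2

theorem exp_boundR [DecidableEq ι] (N : ι → Set V) (p lam : ℝ) (h0 : 0 ≤ p) (h1 : p ≤ 1)
    (hl0 : 0 ≤ lam) (hl1 : lam ≤ 1) (R E : Finset ι) (A : Set V) :
    EE E p (fun ω => Real.exp (-lam * MM N (E ∩ R) p ω (cl N E ω A) -
        lam ^ 2 * NN N (E ∩ R) (cl N E ω A))) ≤ 1 := by
  refine expl_induction N (fun E A => EE E p (fun ω => Real.exp (-lam * MM N (E ∩ R) p ω
    (cl N E ω A) - lam ^ 2 * NN N (E ∩ R) (cl N E ω A))) ≤ 1) ?_ ?_ E A
  · intro E A h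
    have h' : ∀ i ∈ E ∩ R, ¬ tch N i A := fun i hi => h i (Finset.mem_inter.1 hi).1
    have : ∀ ω : ι → Bool, Real.exp (-lam * MM N (E ∩ R) p ω (cl N E ω A) -
        lam ^ 2 * NN N (E ∩ R) (cl N E ω A)) = 1 := by
      intro ω
      rw [cl_isolated h, MM_isolated h', NN_isolated h']; simp
    rw [EE_congr this, EE_const]
  · intro E A i hi ht ih1 ih2
    have htc : ∀ (E' : Finset ι) (ω : ι → Bool) (A' : Set V), A ⊆ A' → tch N i (cl N E' ω A') := by
      intro E' ω A' hA
      obtain ⟨v, hv, hvA⟩ := ht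
      exact ⟨v, hv, subset_cl _ _ _ _ (hA hvA)⟩
    rw [EE_split hi]
    by_cases hR : i ∈ R
    · have hiR : i ∈ E ∩ R := Finset.mem_inter.2 ⟨hi, hR⟩
      have t1 : ∀ ω : ι → Bool, Real.exp (-lam * MM N (E ∩ R) p (upd i true ω)
          (cl N E (upd i true ω) A) - lam ^ 2 * NN N (E ∩ R) (cl N E (upd i true ω) A)) =
          Real.exp (-lam * (1 - p) - lam ^ 2) * Real.exp (-lam * MM N (E.erase i ∩ R) p ω
            (cl N (E.erase i) ω (A ∪ N i)) -
            lam ^ 2 * NN N (E.erase i ∩ R) (cl N (E.erase i) ω (A ∪ N i))) := by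
        intro ω
        rw [cl_open hi (upd_self _ _ _) ht, cl_upd]
        have ht' := htc (E.erase i) ω (A ∪ N i) subset_union_left
        rw [MM_step hiR ht', NN_step hiR ht', ← Real.exp_add, inter_erase_mem E R i hR]
        congr 1
        simp only [bv]
        ring_nf
        simp
      have t0 : ∀ ω : ι → Bool, Real.exp (-lam * MM N (E ∩ R) p (upd i false ω)
          (cl N E (upd i false ω) A) - lam ^ 2 * NN N (E ∩ R) (cl N E (upd i false ω) A)) =
          Real.exp (lam * p - lam ^ 2) * Real.exp (-lam * MM N (E.erase i ∩ R) p ω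
            (cl N (E.erase i) ω A) -
            lam ^ 2 * NN N (E.erase i ∩ R) (cl N (E.erase i) ω A)) := by
        intro ω
        rw [cl_closed (upd_self _ _ _), cl_upd]
        have ht' := htc (E.erase i) ω A subset_rfl
        rw [MM_step hiR ht', NN_step hiR ht', ← Real.exp_add, inter_erase_mem E R i hR]
        congr 1
        simp only [bv]
        ring_nf
        simp
      rw [EE_congr t1, EE_congr t0, EE_mul, EE_mul]
      have hp1 : 0 ≤ 1 - p := by linarith
      have b1 := mul_le_mul_of_nonneg_left ih1 (Real.exp_pos (-lam * (1 - p) - lam ^ 2)).le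
      have b0 := mul_le_mul_of_nonneg_left ih2 (Real.exp_pos (lam * p - lam ^ 2)).le
      have c1 := mul_le_mul_of_nonneg_left b1 h0
      have c0 := mul_le_mul_of_nonneg_left b0 hp1
      have := exp_ineq p lam h0 h1 hl0 hl1
      linarith
    · have hiR : i ∉ E ∩ R := fun h => hR (Finset.mem_inter.1 h).2
      have t1 : ∀ ω : ι → Bool, Real.exp (-lam * MM N (E ∩ R) p (upd i true ω)
          (cl N E (upd i true ω) A) - lam ^ 2 * NN N (E ∩ R) (cl N E (upd i true ω) A)) =
          Real.exp (-lam * MM N (E.erase i ∩ R) p ω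
            (cl N (E.erase i) ω (A ∪ N i)) -
            lam ^ 2 * NN N (E.erase i ∩ R) (cl N (E.erase i) ω (A ∪ N i))) := by
        intro ω
        rw [cl_open hi (upd_self _ _ _) ht, cl_upd, MM_upd_ne hiR, inter_erase_not E R i hR]
      have t0 : ∀ ω : ι → Bool, Real.exp (-lam * MM N (E ∩ R) p (upd i false ω)
          (cl N E (upd i false ω) A) - lam ^ 2 * NN N (E ∩ R) (cl N E (upd i false ω) A)) =
          Real.exp (-lam * MM N (E.erase i ∩ R) p ω
            (cl N (E.erase i) ω A) -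
            lam ^ 2 * NN N (E.erase i ∩ R) (cl N (E.erase i) ω A)) := by
        intro ω
        rw [cl_closed (upd_self _ _ _), cl_upd, MM_upd_ne hiR, inter_erase_not E R i hR]
      rw [EE_congr t1, EE_congr t0]
      have hp1 : 0 ≤ 1 - p := by linarith
      have c1 := mul_le_mul_of_nonneg_left ih1 h0
      have c0 := mul_le_mul_of_nonneg_left ih2 hp1
      linarith

theorem mart_zeroR [DecidableEq ι] (N : ι → Set V) (p : ℝ) (R E : Finset ι) (A : Set V) :
    EE E p (fun ω => MM N (E ∩ R) p ω (cl N E ω A)) = 0 := by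
  refine expl_induction N (fun E A => EE E p (fun ω => MM N (E ∩ R) p ω (cl N E ω A)) = 0) ?_ ?_ E A
  · intro E A h
    have h' : ∀ i ∈ E ∩ R, ¬ tch N i A := fun i hi => h i (Finset.mem_inter.1 hi).1
    have : ∀ ω : ι → Bool, MM N (E ∩ R) p ω (cl N E ω A) = 0 := by
      intro ω
      rw [cl_isolated h, MM_isolated h']
    rw [EE_congr this, EE_const]
  · intro E A i hi ht ih1 ih2
    have htc : ∀ (E' : Finset ι) (ω : ι → Bool) (A' : Set V), A ⊆ A' → tch N i (cl N E' ω A') := by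
      intro E' ω A' hA
      obtain ⟨v, hv, hvA⟩ := ht
      exact ⟨v, hv, subset_cl _ _ _ _ (hA hvA)⟩
    rw [EE_split hi]
    by_cases hR : i ∈ R
    · have hiR : i ∈ E ∩ R := Finset.mem_inter.2 ⟨hi, hR⟩
      have t1 : ∀ ω : ι → Bool, MM N (E ∩ R) p (upd i true ω) (cl N E (upd i true ω) A) =
          (1 - p) + MM N (E.erase i ∩ R) p ω (cl N (E.erase i) ω (A ∪ N i)) := by
        intro ω
        rw [cl_open hi (upd_self _ _ _) ht, cl_upd]
        rw [MM_step hiR (htc (E.erase i) ω (A ∪ N i) subset_union_left), inter_erase_mem E R i hR]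
        simp [bv]
      have t0 : ∀ ω : ι → Bool, MM N (E ∩ R) p (upd i false ω) (cl N E (upd i false ω) A) =
          (-p) + MM N (E.erase i ∩ R) p ω (cl N (E.erase i) ω A) := by
        intro ω
        rw [cl_closed (upd_self _ _ _), cl_upd]
        rw [MM_step hiR (htc (E.erase i) ω A subset_rfl), inter_erase_mem E R i hR]
        simp [bv]
      rw [EE_congr t1, EE_congr t0, EE_add, EE_add, EE_const, EE_const, ih1, ih2]
      ring
    · have hiR : i ∉ E ∩ R := fun h => hR (Finset.mem_inter.1 h).2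
      have t1 : ∀ ω : ι → Bool, MM N (E ∩ R) p (upd i true ω) (cl N E (upd i true ω) A) =
          MM N (E.erase i ∩ R) p ω (cl N (E.erase i) ω (A ∪ N i)) := by
        intro ω
        rw [cl_open hi (upd_self _ _ _) ht, cl_upd, MM_upd_ne hiR, inter_erase_not E R i hR]
      have t0 : ∀ ω : ι → Bool, MM N (E ∩ R) p (upd i false ω) (cl N E (upd i false ω) A) =
          MM N (E.erase i ∩ R) p ω (cl N (E.erase i) ω A) := by
        intro ω
        rw [cl_closed (upd_self _ _ _), cl_upd, MM_upd_ne hiR, inter_erase_not E R i hR]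
      rw [EE_congr t1, EE_congr t0, ih1, ih2]
      ring

section
open Classical

/-- the combinatorial inequality on a subset of the hyperedges -/
lemma akn_identityR {N : ι → Set V} {E E' : Finset ι} (hE : E' ⊆ E) {p : ℝ} (h0 : 0 ≤ p)
    (ω : ι → Bool) (B : Finset V) :
    p * ∑ i ∈ E', I1 (TW N E (B : Set V) i) ω ≤
      MM N E' p ω (cl N E ω (B : Set V)) - ∑ C ∈ CC N E ω B, MM N E' p ω C := by
  rw [sum_MM]
  unfold MM
  rw [Finset.mul_sum, ← Finset.sum_sub_distrib]
  refine Finset.sum_le_sum fun i hi => ?_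
  by_cases ho : ω i = true
  · rw [card_touch_open (hE hi) ho]
    have hT : ω ∉ TW N E (B : Set V) i := by
      rintro ⟨x, hx, y, hy, _, _, hn⟩
      exact hn (Con.single ⟨i, hE hi, ho, hx, hy⟩)
    rw [I1_not hT]
    split_ifs <;> simp
  · have ho' : ω i = false := by simpa using ho
    have h1 := card_touch_ge (N := N) (E := E) (ω := ω) (B := B) (i := i)
    set c : ℝ := (((CC N E ω B).filter (fun C => tch N i C)).card : ℝ)
    have hb : bv (ω i) = 0 := by rw [ho']; rfl
    rw [hb]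
    have h2 : I1 (TW N E (B : Set V) i) ω = (if ω ∈ TW N E (B : Set V) i then 1 else 0) := by
      by_cases h : ω ∈ TW N E (B : Set V) i
      · rw [I1_mem h, if_pos h]
      · rw [I1_not h, if_neg h]
    rw [h2]
    have h3 := mul_le_mul_of_nonneg_left h1 h0
    by_cases ht : tch N i (cl N E ω (B : Set V))
    · rw [if_pos ht] at h3 ⊢
      nlinarith
    · rw [if_neg ht] at h3 ⊢
      nlinarith

lemma neg_MM_le {N : ι → Set V} {E : Finset ι} {p : ℝ} (h1 : p ≤ 1) (ω : ι → Bool) (S : Set V) :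
    -MM N E p ω S ≤ NN N E S := by
  unfold MM NN
  rw [← Finset.sum_neg_distrib]
  refine Finset.sum_le_sum fun i _ => ?_
  split_ifs
  · have : 0 ≤ bv (ω i) := by unfold bv; split_ifs <;> norm_num
    linarith
  · simp

lemma NN_eq_card {N : ι → Set V} {E : Finset ι} {S : Set V} :
    NN N E S = ((E.filter (fun i => tch N i S)).card : ℝ) := by
  unfold NN
  rw [← Finset.sum_filter]
  simp

/-- the pointwise bound for one cluster -/
lemma one_cluster {N : ι → Set V} {E : Finset ι} {p s : ℝ} (h1 : p ≤ 1) (hs : 1 ≤ s)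
    (ω : ι → Bool) (S : Set V) (n : ℕ) (hn : E.card ≤ n) :
    -MM N E p ω S ≤ 2 * Real.sqrt s * Real.sqrt (NN N E S) +
      ∑ m ∈ (Finset.Icc 1 n).filter (fun m : ℕ => s ≤ (m : ℝ)), (1 / Real.sqrt (s / m)) *
        (Real.exp (-s) * Real.exp (-(Real.sqrt (s / m)) * MM N E p ω S -
          (Real.sqrt (s / m)) ^ 2 * NN N E S)) := by
  have hnn : ∀ m ∈ (Finset.Icc 1 n).filter (fun m : ℕ => s ≤ (m : ℝ)),
      0 ≤ (1 / Real.sqrt (s / m)) *
        (Real.exp (-s) * Real.exp (-(Real.sqrt (s / m)) * MM N E p ω S -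
          (Real.sqrt (s / m)) ^ 2 * NN N E S)) := by
    intro m _
    positivity
  have hsum := Finset.sum_nonneg hnn
  set k : ℕ := (E.filter (fun i => tch N i S)).card with hk
  have hN : NN N E S = (k : ℝ) := NN_eq_card
  have hkn : k ≤ n := (Finset.card_filter_le _ _).trans hn
  by_cases hsk : s ≤ (k : ℝ)
  · have hkpos : (0 : ℝ) < k := by linarith
    have hk1 : 1 ≤ k := by
      have : (0 : ℕ) < k := by exact_mod_cast hkpos
      omega
    have hmem : k ∈ (Finset.Icc 1 n).filter (fun m : ℕ => s ≤ (m : ℝ)) := by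
      rw [Finset.mem_filter, Finset.mem_Icc]
      exact ⟨⟨hk1, hkn⟩, hsk⟩
    have h2 := Finset.single_le_sum hnn hmem
    set lam := Real.sqrt (s / k) with hlam
    have hlpos : 0 < lam := Real.sqrt_pos.2 (by positivity)
    have hl2 : lam ^ 2 = s / k := Real.sq_sqrt (by positivity)
    have h3 := Real.add_one_le_exp (-lam * MM N E p ω S - lam ^ 2 * NN N E S - s)
    have h4 : Real.exp (-lam * MM N E p ω S - lam ^ 2 * NN N E S - s) =
        Real.exp (-s) * Real.exp (-lam * MM N E p ω S - lam ^ 2 * NN N E S) := by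
      rw [← Real.exp_add]; ring_nf
    rw [h4] at h3
    have h5 : -MM N E p ω S = (1 / lam) * (-lam * MM N E p ω S - lam ^ 2 * NN N E S - s) +
        (lam * NN N E S + s / lam) := by
      field_simp
      ring
    have h6 : lam * NN N E S = Real.sqrt s * Real.sqrt k := by
      rw [hN, hlam, Real.sqrt_div' _ hkpos.le]
      have : (Real.sqrt k) * Real.sqrt k = k := Real.mul_self_sqrt hkpos.le
      have hne : Real.sqrt (k : ℝ) ≠ 0 := (Real.sqrt_pos.2 hkpos).ne'
      field_simp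
      nlinarith [this]
    have h7 : s / lam = Real.sqrt s * Real.sqrt k := by
      rw [hlam, Real.sqrt_div' _ hkpos.le]
      have : (Real.sqrt s) * Real.sqrt s = s := Real.mul_self_sqrt (by linarith)
      have hne : Real.sqrt (k : ℝ) ≠ 0 := (Real.sqrt_pos.2 hkpos).ne'
      have hne' : Real.sqrt s ≠ 0 := (Real.sqrt_pos.2 (by linarith)).ne'
      field_simp
      nlinarith [this]
    rw [h5, h6, h7, hN]
    have h8 : (1 / lam) * (-lam * MM N E p ω S - lam ^ 2 * NN N E S - s) ≤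
        (1 / lam) * (Real.exp (-s) * Real.exp (-lam * MM N E p ω S - lam ^ 2 * NN N E S)) :=
      mul_le_mul_of_nonneg_left (by linarith) (by positivity)
    rw [hN] at h8 h2
    linarith
  · push Not at hsk
    have h2 := neg_MM_le (N := N) (E := E) h1 ω S
    rw [hN] at h2 ⊢
    have hk0 : (0 : ℝ) ≤ k := Nat.cast_nonneg _
    have h3 : (k : ℝ) = Real.sqrt k * Real.sqrt k := (Real.mul_self_sqrt hk0).symm
    have h4 : Real.sqrt k ≤ Real.sqrt s := Real.sqrt_le_sqrt hsk.le
    have h5 : 0 ≤ Real.sqrt (k : ℝ) := Real.sqrt_nonneg _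
    have h6 : 0 ≤ Real.sqrt s := Real.sqrt_nonneg _
    have h7 : Real.sqrt (k : ℝ) * Real.sqrt k ≤ Real.sqrt s * Real.sqrt k :=
      mul_le_mul_of_nonneg_right h4 h5
    have h8 : 0 ≤ Real.sqrt s * Real.sqrt (k : ℝ) := mul_nonneg h6 h5
    rw [hN] at hsum
    linarith

end

theorem aknR [DecidableEq ι] (N : ι → Set V) (E R : Finset ι)
    (B : Finset V) (p s : ℝ) (h0 : 0 < p) (h1 : p ≤ 1) (hs : 1 ≤ s)
    (hB : (B.card : ℝ) * (E.card : ℝ) ^ 2 * Real.exp (-s) ≤ 1) :
    p * ∑ i ∈ E ∩ R, EE E p (I1 (TW N E (B : Set V) i)) ≤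
    2 * Real.sqrt s * EE E p (fun ω => ∑ C ∈ CC N E ω B, Real.sqrt (NN N (E ∩ R) C)) + 1 := by
  set T : Finset ℕ := (Finset.Icc 1 E.card).filter (fun m : ℕ => s ≤ (m : ℝ)) with hT
  have hcard : (E ∩ R).card ≤ E.card := Finset.card_le_card Finset.inter_subset_left
  have key : ∀ ω : ι → Bool, p * ∑ i ∈ E ∩ R, I1 (TW N E (B : Set V) i) ω ≤
      MM N (E ∩ R) p ω (cl N E ω (B : Set V)) +
        (2 * Real.sqrt s * (∑ C ∈ CC N E ω B, Real.sqrt (NN N (E ∩ R) C)) +
        ∑ m ∈ T, ∑ b ∈ B, ((1 / Real.sqrt (s / m)) * Real.exp (-s)) *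
          Real.exp (-(Real.sqrt (s / m)) * MM N (E ∩ R) p ω (cl N E ω {b}) -
          (Real.sqrt (s / m)) ^ 2 * NN N (E ∩ R) (cl N E ω {b}))) := by
    intro ω
    refine le_trans (akn_identityR Finset.inter_subset_left h0.le ω B) ?_
    have h2 : -∑ C ∈ CC N E ω B, MM N (E ∩ R) p ω C ≤
        ∑ C ∈ CC N E ω B, (2 * Real.sqrt s * Real.sqrt (NN N (E ∩ R) C) +
      ∑ m ∈ T, (1 / Real.sqrt (s / m)) *
        (Real.exp (-s) * Real.exp (-(Real.sqrt (s / m)) * MM N (E ∩ R) p ω C -
          (Real.sqrt (s / m)) ^ 2 * NN N (E ∩ R) C))) := by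
      rw [← Finset.sum_neg_distrib]
      refine Finset.sum_le_sum fun C _ => ?_
      exact one_cluster h1 hs ω C E.card hcard
    rw [Finset.sum_add_distrib, ← Finset.mul_sum] at h2
    have h3 : ∑ C ∈ CC N E ω B, ∑ m ∈ T, (1 / Real.sqrt (s / m)) *
        (Real.exp (-s) * Real.exp (-(Real.sqrt (s / m)) * MM N (E ∩ R) p ω C -
          (Real.sqrt (s / m)) ^ 2 * NN N (E ∩ R) C)) ≤
        ∑ b ∈ B, ∑ m ∈ T, (1 / Real.sqrt (s / m)) *
        (Real.exp (-s) * Real.exp (-(Real.sqrt (s / m)) * MM N (E ∩ R) p ω (cl N E ω {b}) -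
          (Real.sqrt (s / m)) ^ 2 * NN N (E ∩ R) (cl N E ω {b}))) := by
      refine sum_CC_le (fun C => ∑ m ∈ T, (1 / Real.sqrt (s / m)) *
        (Real.exp (-s) * Real.exp (-(Real.sqrt (s / m)) * MM N (E ∩ R) p ω C -
          (Real.sqrt (s / m)) ^ 2 * NN N (E ∩ R) C))) ?_
      intro C
      exact Finset.sum_nonneg fun m _ => by positivity
    rw [Finset.sum_comm] at h3
    have h4 : ∑ m ∈ T, ∑ b ∈ B, (1 / Real.sqrt (s / m)) *
        (Real.exp (-s) * Real.exp (-(Real.sqrt (s / m)) * MM N (E ∩ R) p ω (cl N E ω {b}) -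
          (Real.sqrt (s / m)) ^ 2 * NN N (E ∩ R) (cl N E ω {b}))) =
        ∑ m ∈ T, ∑ b ∈ B, ((1 / Real.sqrt (s / m)) * Real.exp (-s)) *
          Real.exp (-(Real.sqrt (s / m)) * MM N (E ∩ R) p ω (cl N E ω {b}) -
          (Real.sqrt (s / m)) ^ 2 * NN N (E ∩ R) (cl N E ω {b})) :=
      Finset.sum_congr rfl fun m _ => Finset.sum_congr rfl fun b _ => by ring
    have h5 : ∑ b ∈ B, ∑ m ∈ T, (1 / Real.sqrt (s / m)) *
        (Real.exp (-s) * Real.exp (-(Real.sqrt (s / m)) * MM N (E ∩ R) p ω (cl N E ω {b}) -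
          (Real.sqrt (s / m)) ^ 2 * NN N (E ∩ R) (cl N E ω {b}))) =
        ∑ m ∈ T, ∑ b ∈ B, (1 / Real.sqrt (s / m)) *
        (Real.exp (-s) * Real.exp (-(Real.sqrt (s / m)) * MM N (E ∩ R) p ω (cl N E ω {b}) -
          (Real.sqrt (s / m)) ^ 2 * NN N (E ∩ R) (cl N E ω {b}))) := Finset.sum_comm
    have h6 : ∑ m ∈ T, ∑ C ∈ CC N E ω B, (1 / Real.sqrt (s / m)) *
        (Real.exp (-s) * Real.exp (-(Real.sqrt (s / m)) * MM N (E ∩ R) p ω C -
          (Real.sqrt (s / m)) ^ 2 * NN N (E ∩ R) C)) =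
        ∑ C ∈ CC N E ω B, ∑ m ∈ T, (1 / Real.sqrt (s / m)) *
        (Real.exp (-s) * Real.exp (-(Real.sqrt (s / m)) * MM N (E ∩ R) p ω C -
          (Real.sqrt (s / m)) ^ 2 * NN N (E ∩ R) C)) := Finset.sum_comm
    linarith
  have h2 := EE_mono (E := E) h0.le h1 key
  rw [EE_mul, EE_sum, EE_add, mart_zeroR, EE_add, EE_mul, EE_sum] at h2
  have h3 : ∑ m ∈ T, EE E p (fun ω => ∑ b ∈ B, ((1 / Real.sqrt (s / m)) * Real.exp (-s)) *
          Real.exp (-(Real.sqrt (s / m)) * MM N (E ∩ R) p ω (cl N E ω {b}) -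
          (Real.sqrt (s / m)) ^ 2 * NN N (E ∩ R) (cl N E ω {b}))) ≤ 1 := by
    have h4 : ∀ m ∈ T, EE E p (fun ω => ∑ b ∈ B, ((1 / Real.sqrt (s / m)) * Real.exp (-s)) *
          Real.exp (-(Real.sqrt (s / m)) * MM N (E ∩ R) p ω (cl N E ω {b}) -
          (Real.sqrt (s / m)) ^ 2 * NN N (E ∩ R) (cl N E ω {b}))) ≤
          (B.card : ℝ) * (E.card * Real.exp (-s)) := by
      intro m hm
      rw [hT, Finset.mem_filter, Finset.mem_Icc] at hm
      obtain ⟨⟨hm1, hm2⟩, hm3⟩ := hm
      have hm0 : (0 : ℝ) < m := by exact_mod_cast hm1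
      have hm1' : (1 : ℝ) ≤ m := by exact_mod_cast hm1
      have hm2' : (m : ℝ) ≤ E.card := by exact_mod_cast hm2
      have hsp : 0 < s := by linarith
      have hlp : 0 < Real.sqrt (s / m) := Real.sqrt_pos.2 (by positivity)
      have hl1 : Real.sqrt (s / m) ≤ 1 := by
        rw [show (1 : ℝ) = Real.sqrt 1 from Real.sqrt_one.symm]
        exact Real.sqrt_le_sqrt ((div_le_one hm0).2 hm3)
      have hinv : 1 / Real.sqrt (s / m) ≤ E.card := by
        rw [div_le_iff₀ hlp]
        have h5 : Real.sqrt (1 / (m : ℝ)) ≤ Real.sqrt (s / m) :=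
          Real.sqrt_le_sqrt (by gcongr)
        have h6 : (1 : ℝ) / m ≤ Real.sqrt (1 / (m : ℝ)) := by
          rw [Real.le_sqrt (by positivity) (by positivity)]
          rw [div_pow, one_pow, div_le_div_iff₀ (by positivity) hm0]
          nlinarith
        have h7 : (1 : ℝ) = m * (1 / m) := by field_simp
        calc (1 : ℝ) = m * (1 / m) := h7
          _ ≤ m * Real.sqrt (s / m) := mul_le_mul_of_nonneg_left (h6.trans h5) hm0.le
          _ ≤ E.card * Real.sqrt (s / m) := mul_le_mul_of_nonneg_right hm2' hlp.le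
      rw [EE_sum]
      have h8 : ∀ b ∈ B, EE E p (fun ω => ((1 / Real.sqrt (s / m)) * Real.exp (-s)) *
          Real.exp (-(Real.sqrt (s / m)) * MM N (E ∩ R) p ω (cl N E ω {b}) -
          (Real.sqrt (s / m)) ^ 2 * NN N (E ∩ R) (cl N E ω {b}))) ≤ E.card * Real.exp (-s) := by
        intro b _
        rw [EE_mul]
        have h9 := exp_boundR N p (Real.sqrt (s / m)) h0.le h1 hlp.le hl1 R E {b}
        have h10 : 0 ≤ (1 / Real.sqrt (s / m)) * Real.exp (-s) := by positivity
        calc _ ≤ ((1 / Real.sqrt (s / m)) * Real.exp (-s)) * 1 :=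
              mul_le_mul_of_nonneg_left h9 h10
          _ ≤ E.card * Real.exp (-s) := by
              rw [mul_one]
              exact mul_le_mul_of_nonneg_right hinv (Real.exp_pos _).le
      have h11 := Finset.sum_le_sum h8
      rw [Finset.sum_const, nsmul_eq_mul] at h11
      exact h11
    have h12 := Finset.sum_le_sum h4
    rw [Finset.sum_const, nsmul_eq_mul] at h12
    have h13 : (T.card : ℝ) ≤ E.card := by
      have : T.card ≤ E.card := by
        refine (Finset.card_filter_le _ _).trans ?_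
        simp
      exact_mod_cast this
    have h14 : (T.card : ℝ) * ((B.card : ℝ) * (E.card * Real.exp (-s))) ≤
        E.card * ((B.card : ℝ) * (E.card * Real.exp (-s))) :=
      mul_le_mul_of_nonneg_right h13 (by positivity)
    have h15 : (E.card : ℝ) * ((B.card : ℝ) * (E.card * Real.exp (-s))) =
        (B.card : ℝ) * (E.card : ℝ) ^ 2 * Real.exp (-s) := by ring
    linarith
  linarith

theorem s_akn : Pool.Agent.W870.PD.S_akn := by
  intro ι V _ N E R B p s h0 h1 hs hB
  have h := aknR N E R B p s h0 h1 hs hB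
  refine h.trans (le_of_eq ?_)
  congr 2
  refine EE_congr fun ω => Finset.sum_congr rfl fun C _ => ?_
  rw [NN_eq_card]
  congr 2
  unfold Pool.Agent.W870.PD.NR
  have hd : (‹DecidableEq ι›) = fun a b => Classical.propDecidable (a = b) := Subsingleton.elim _ _
  subst hd
  rfl

end Pool.Agent.W804.HP
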