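import Pool.Agent.W804.HP.Iso

/-!
# Bond percolation on the lattice as a periodic hypergraph
-/

set_option autoImplicit false
set_option linter.all false
set_option linter.deprecated false

open MeasureTheory Set Pool.Agent.H978R2

namespace Pool.Agent.W804.HP

variable {d : ℕ}

/-- the graph of the open edges with both ends in `B` -/
def openB (ω : Sym2 (Fin d → ℤ) → Bool) (B : Set (Fin d → ℤ)) : SimpleGraph (Fin d → ℤ) where
  Adj x y := (lat d).Adj x y ∧ x ∈ B ∧ y ∈ B ∧ ω s(x, y) = true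
  symm := ⟨fun x y h => ⟨h.1.symm, h.2.2.1, h.2.1, by rw [Sym2.eq_swap]; exact h.2.2.2⟩⟩
  loopless := ⟨fun x h => (lat d).loopless.irrefl x h.1⟩

/-- ends of an edge -/
def bN (e : Sym2 (Fin d → ℤ)) : Set (Fin d → ℤ) := {v | v ∈ e}

/-- edges of a box -/
noncomputable def bE (z : Fin d → ℤ) (r : ℕ) : Finset (Sym2 (Fin d → ℤ)) :=
  (((bx z r) ×ˢ (Finset.univ : Finset (Fin d))).filter (fun p => p.1 + ev p.2 ∈ bx z r)).image
    (fun p => s(p.1, p.1 + ev p.2))

lemma mem_bE {z : Fin d → ℤ} {r : ℕ} {e : Sym2 (Fin d → ℤ)} :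
    e ∈ bE z r ↔ ∃ x i, x ∈ bx z r ∧ x + ev i ∈ bx z r ∧ s(x, x + ev i) = e := by
  unfold bE
  simp only [Finset.mem_image, Finset.mem_filter, Finset.mem_product, Finset.mem_univ, and_true,
    Prod.exists]
  constructor
  · rintro ⟨x, i, ⟨h1, h2⟩, h3⟩; exact ⟨x, i, h1, h2, h3⟩
  · rintro ⟨x, i, h1, h2, h3⟩; exact ⟨x, i, ⟨h1, h2⟩, h3⟩

lemma mk_mem_bE {z : Fin d → ℤ} {r : ℕ} {x y : Fin d → ℤ} :
    s(x, y) ∈ bE z r ↔ (lat d).Adj x y ∧ x ∈ bx z r ∧ y ∈ bx z r := by
  rw [mem_bE]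
  constructor
  · rintro ⟨a, i, h1, h2, h3⟩
    rw [Sym2.eq_iff] at h3
    rcases h3 with ⟨rfl, rfl⟩ | ⟨rfl, rfl⟩
    · exact ⟨lat_adj_ev _ _, h1, h2⟩
    · exact ⟨(lat_adj_ev _ _).symm, h2, h1⟩
  · rintro ⟨h1, h2, h3⟩
    obtain ⟨i, h | h⟩ := lat_adj_iff.1 h1
    · subst h; exact ⟨x, i, h2, h3, rfl⟩
    · subst h; exact ⟨y, i, h3, h2, Sym2.eq_swap⟩

lemma con_bond {z : Fin d → ℤ} {r : ℕ} {ω : Sym2 (Fin d → ℤ) → Bool} {x y : Fin d → ℤ} :
    Con bN (bE z r) ω x y ↔ (openB ω (bx z r)).Reachable x y := by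
  rw [reach_rtg]
  constructor
  · intro h
    induction h with
    | refl => exact Relation.ReflTransGen.refl
    | @tail b c _ hbc ih =>
      obtain ⟨e, he, ho, hb, hc⟩ := hbc
      by_cases hbc' : b = c
      · rw [← hbc']; exact ih
      · have : e = s(b, c) := (Sym2.mem_and_mem_iff hbc').1 ⟨hb, hc⟩
        subst this
        have h2 := mk_mem_bE.1 he
        exact ih.tail ⟨h2.1, h2.2.1, h2.2.2, ho⟩
  · intro h
    induction h with
    | refl => exact Con.refl _ _ _ _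
    | @tail b c _ hbc ih =>
      obtain ⟨h1, h2, h3, h4⟩ := hbc
      refine ih.trans (Con.single ⟨s(b, c), mk_mem_bE.2 ⟨h1, h2, h3⟩, h4, ?_, ?_⟩)
      · exact Sym2.mem_mk_left b c
      · exact Sym2.mem_mk_right b c

lemma bN_iso (σ : (Fin d → ℤ) ≃ (Fin d → ℤ)) (e : Sym2 (Fin d → ℤ)) :
    bN (s2 σ e) = σ '' bN e := by
  ext v
  constructor
  · intro h
    refine ⟨σ.symm v, ?_, by simp⟩
    have h' : σ (σ.symm v) ∈ s2 σ e := by
      rw [Equiv.apply_symm_apply]; exact h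
    exact mem_s2.1 h'
  · rintro ⟨u, hu, rfl⟩
    exact mem_s2.2 hu

lemma bE_iso (I : Iso d) (z : Fin d → ℤ) (r : ℕ) :
    bE (I.σ z) r = (bE z r).map (s2 I.σ).toEmbedding := by
  ext e
  rw [Finset.mem_map]
  constructor
  · intro h
    refine ⟨(s2 I.σ).symm e, ?_, by simp⟩
    induction e using Sym2.ind with
    | _ x y =>
      obtain ⟨x, rfl⟩ := I.σ.surjective x
      obtain ⟨y, rfl⟩ := I.σ.surjective y
      rw [← s2_mk, Equiv.symm_apply_apply]
      rw [mk_mem_bE] at h ⊢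
      exact ⟨(I.adj _ _).1 h.1, (I.box _ _ _).1 h.2.1, (I.box _ _ _).1 h.2.2⟩
  · rintro ⟨e, he, rfl⟩
    induction e using Sym2.ind with
    | _ x y =>
      show s(I.σ x, I.σ y) ∈ _
      rw [mk_mem_bE] at he ⊢
      exact ⟨(I.adj _ _).2 he.1, (I.box _ _ _).2 he.2.1, (I.box _ _ _).2 he.2.2⟩

lemma sph_trans (z : Fin d → ℤ) (r : ℕ) :
    ((sph z r : Finset (Fin d → ℤ)) : Set (Fin d → ℤ)) =
      (Equiv.addLeft z) '' ((sph 0 r : Finset (Fin d → ℤ)) : Set (Fin d → ℤ)) := by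
  ext x
  rw [Finset.mem_coe, mem_sph, mem_bx]
  constructor
  · rintro ⟨h1, i, h2⟩
    refine ⟨x - z, ?_, by simp⟩
    rw [Finset.mem_coe, mem_sph, mem_bx]
    refine ⟨fun j => ?_, i, ?_⟩
    · simpa using h1 j
    · simpa using h2
  · rintro ⟨y, hy, rfl⟩
    rw [Finset.mem_coe, mem_sph, mem_bx] at hy
    obtain ⟨h1, i, h2⟩ := hy
    refine ⟨fun j => ?_, i, ?_⟩
    · simpa using h1 j
    · simpa using h2

lemma bond_exit (z : Fin d → ℤ) (r : ℕ) (z' : Fin d → ℤ) (r' : ℕ)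
    (ω : Sym2 (Fin d → ℤ) → Bool) (u f : Fin d → ℤ) (h : bx z r ⊆ bx z' r') (hu : u ∈ bx z r)
    (hf : f ∈ sph z' r') (hc : Con bN (bE z' r') ω u f) :
    ∃ f' ∈ sph z r, Con bN (bE z r) ω u f' := by
  have key : ∀ v, Con bN (bE z' r') ω u v →
      (v ∈ bx z r ∧ Con bN (bE z r) ω u v) ∨ ∃ f' ∈ sph z r, Con bN (bE z r) ω u f' := by
    intro v hv
    induction hv with
    | refl => exact Or.inl ⟨hu, Con.refl _ _ _ _⟩
    | @tail b c _ hbc ih =>
      rcases ih with ⟨hb, hcon⟩ | ih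
      · by_cases hs : b ∈ sph z r
        · exact Or.inr ⟨b, hs, hcon⟩
        · obtain ⟨e, he, ho, hbe, hce⟩ := hbc
          by_cases hbc' : b = c
          · subst hbc'; exact Or.inl ⟨hb, hcon⟩
          · have : e = s(b, c) := (Sym2.mem_and_mem_iff hbc').1 ⟨hbe, hce⟩
            subst this
            have h2 := mk_mem_bE.1 he
            have h3 := adj_mem_bx h2.1 hb hs
            exact Or.inl ⟨h3, hcon.trans (Con.single ⟨s(b, c), mk_mem_bE.2 ⟨h2.1, hb, h3⟩, ho,
              hbe, hce⟩)⟩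
      · exact Or.inr ih
  rcases key f hc with ⟨h1, h2⟩ | h1
  · exact ⟨f, sph_of_subset h h1 hf, h2⟩
  · exact h1

/-- bond percolation as a periodic hypergraph -/
noncomputable def bondH (d : ℕ) : HLat d (Sym2 (Fin d → ℤ)) (Fin d → ℤ) where
  N := bN
  E := bE
  F := sph
  reg := fun z r => {x | x ∈ bx z r}
  D := 2
  hD := fun e => by
    classical
    induction e using Sym2.ind with
    | _ x y =>
      refine ⟨{x, y}, Finset.card_le_two, ?_⟩
      intro v hv
      have hv' : v ∈ s(x, y) := hv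
      rw [Sym2.mem_iff] at hv'
      simpa using hv'
  κ := Fin d
  b := fun t => s(0, ev t)
  tI := fun z => s2 (Equiv.addLeft z)
  tV := fun z => Equiv.addLeft z
  N_t := fun z e => bN_iso _ e
  E_t := fun z r => by
    have := bE_iso (isoT z) 0 r
    have h : (isoT z).σ 0 = z := by
      show z + 0 = z
      simp
    rw [h] at this
    exact this
  F_t := fun z r => sph_trans z r
  E_mono := fun z r z' r' h e he => by
    induction e using Sym2.ind with
    | _ x y =>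
      rw [mk_mem_bE] at *
      exact ⟨he.1, h he.2.1, h he.2.2⟩
  reg_N := fun z r e he v hv => by
    induction e using Sym2.ind with
    | _ x y =>
      rw [mk_mem_bE] at he
      have hv' : v ∈ s(x, y) := hv
      rw [Sym2.mem_iff] at hv'
      rcases hv' with rfl | rfl
      · exact he.2.1
      · exact he.2.2
  exit := fun z r z' r' ω u f h hu hf hc => bond_exit z r z' r' ω u f h hu hf hc
  cover := fun r e he => by
    obtain ⟨x, i, h1, h2, rfl⟩ := mem_bE.1 he
    refine ⟨x, h1, i, ?_⟩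
    rw [s2_mk]
    simp
  inj := fun t x y h => by
    rw [s2_mk, s2_mk, Sym2.eq_iff] at h
    rcases h with ⟨h1, _⟩ | ⟨h1, h2⟩
    · simpa using h1
    · exfalso
      have h3 := congrFun h1 t
      have h4 := congrFun h2 t
      simp [ev] at h3 h4
      linarith
  memE := fun t x => by
    rw [s2_mk, mk_mem_bE]
    have e1 : (Equiv.addLeft x) 0 = x := by simp
    have e2 : (Equiv.addLeft x) (ev t) = x + ev t := by simp
    rw [e1, e2]
    refine ⟨lat_adj_ev x t, self_mem_bx x 1, ?_⟩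
    rw [mem_bx]
    intro i
    by_cases h : i = t
    · subst h; simp [ev]
    · simp [ev, h]
  cE := d
  cF := 2 * d
  card_E := fun r => by
    unfold bE
    refine Finset.card_image_le.trans ((Finset.card_filter_le _ _).trans ?_)
    rw [Finset.card_product, card_bx, Finset.card_univ, Fintype.card_fin, mul_comm]
  card_F := fun r => card_sph_le 0 r

/-- the connection event of bond percolation -/
def XB (x y z : Fin d → ℤ) (r : ℕ) : Set (Sym2 (Fin d → ℤ) → Bool) :=
  {ω | Con bN (bE z r) ω x y}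

lemma XB_iso (q : NNReal) (hq : q ≤ 1) (I : Iso d) (x y z : Fin d → ℤ) (r : ℕ) :
    (bm _ q hq).real (XB (I.σ x) (I.σ y) (I.σ z) r) = (bm _ q hq).real (XB x y z r) := by
  have h : XB (I.σ x) (I.σ y) (I.σ z) r = {ω | rel (s2 I.σ) ω ∈ XB x y z r} := by
    ext ω
    unfold XB
    simp only [mem_setOf_eq]
    rw [bE_iso]
    exact rel_con (bN_iso I.σ)
  rw [h]
  exact bm_rel q hq _ (depOn_con bN (bE z r) x y).measurable_fin

/-- the cluster of `x` is infinite -/
def InfB (x : Fin d → ℤ) : Set (Sym2 (Fin d → ℤ) → Bool) :=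
  {ω | {y | (openB ω univ).Reachable x y}.Infinite}

lemma reach_univ_iff {ω : Sym2 (Fin d → ℤ) → Bool} {x y : Fin d → ℤ} :
    (openB ω univ).Reachable x y ↔ ∃ r : ℕ, Con bN (bE 0 r) ω x y := by
  constructor
  · intro h
    rw [reach_rtg] at h
    induction h with
    | refl => exact ⟨0, Con.refl _ _ _ _⟩
    | @tail b c _ hbc ih =>
      obtain ⟨r, hr⟩ := ih
      obtain ⟨h1, _, _, h4⟩ := hbc
      -- a box containing both
      obtain ⟨r', hb', hc'⟩ : ∃ r' : ℕ, b ∈ bx 0 r' ∧ c ∈ bx 0 r' := by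
        refine ⟨∑ i, ((b i).natAbs + (c i).natAbs), ?_, ?_⟩
        · rw [mem_bx]
          intro i
          have : (b i).natAbs + (c i).natAbs ≤ ∑ i, ((b i).natAbs + (c i).natAbs) :=
            Finset.single_le_sum (f := fun i => (b i).natAbs + (c i).natAbs)
              (fun _ _ => Nat.zero_le _) (Finset.mem_univ i)
          simp only [Pi.zero_apply, sub_zero, Int.abs_eq_natAbs]
          omega
        · rw [mem_bx]
          intro i
          have : (b i).natAbs + (c i).natAbs ≤ ∑ i, ((b i).natAbs + (c i).natAbs) :=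
            Finset.single_le_sum (f := fun i => (b i).natAbs + (c i).natAbs)
              (fun _ _ => Nat.zero_le _) (Finset.mem_univ i)
          simp only [Pi.zero_apply, sub_zero, Int.abs_eq_natAbs]
          omega
      refine ⟨max r r', ?_⟩
      have m1 : bE (0 : Fin d → ℤ) r ⊆ bE 0 (max r r') :=
        (bondH d).E_mono _ _ _ _ (bx_mono 0 (le_max_left _ _))
      refine (hr.mono m1 le_rfl).trans (Con.single ⟨s(b, c), ?_, h4, Sym2.mem_mk_left b c,
        Sym2.mem_mk_right b c⟩)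
      rw [mk_mem_bE]
      exact ⟨h1, bx_mono 0 (le_max_right _ _) hb', bx_mono 0 (le_max_right _ _) hc'⟩
  · rintro ⟨r, hr⟩
    rw [con_bond] at hr
    refine hr.mono ?_
    intro a b h
    exact ⟨h.1, trivial, trivial, h.2.2.2⟩

lemma infinite_iff {S : Set (Fin d → ℤ)} : S.Infinite ↔ ∀ n : ℕ, ∃ y, y ∉ bx (0 : Fin d → ℤ) n ∧ y ∈ S := by
  constructor
  · intro h n
    obtain ⟨y, hy, hn⟩ := h.exists_notMem_finset (bx 0 n)
    exact ⟨y, hn, hy⟩
  · intro h hfin
    -- a finite set lies in a box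
    obtain ⟨n, hn⟩ : ∃ n : ℕ, ∀ y ∈ S, y ∈ bx (0 : Fin d → ℤ) n := by
      refine ⟨∑ y ∈ hfin.toFinset, ∑ i, (y i).natAbs, ?_⟩
      intro y hy
      rw [mem_bx]
      intro i
      have h1 : (y i).natAbs ≤ ∑ i, (y i).natAbs :=
        Finset.single_le_sum (f := fun i => (y i).natAbs) (fun _ _ => Nat.zero_le _)
          (Finset.mem_univ i)
      have h2 : ∑ i, (y i).natAbs ≤ ∑ y ∈ hfin.toFinset, ∑ i, (y i).natAbs :=
        Finset.single_le_sum (f := fun y : Fin d → ℤ => ∑ i, (y i).natAbs)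
          (fun _ _ => Nat.zero_le _) (hfin.mem_toFinset.2 hy)
      simp only [Pi.zero_apply, sub_zero, Int.abs_eq_natAbs]
      omega
    obtain ⟨y, hy, hyS⟩ := h n
    exact hy (hn y hyS)

/-- reaching outside the box of radius `n` -/
def OutB (x : Fin d → ℤ) (n : ℕ) : Set (Sym2 (Fin d → ℤ) → Bool) :=
  {ω | ∃ y, y ∉ bx (0 : Fin d → ℤ) n ∧ (openB ω univ).Reachable x y}

lemma meas_reachU (x y : Fin d → ℤ) :
    MeasurableSet {ω : Sym2 (Fin d → ℤ) → Bool | (openB ω univ).Reachable x y} := by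
  have : {ω : Sym2 (Fin d → ℤ) → Bool | (openB ω univ).Reachable x y} =
      ⋃ r : ℕ, {ω | Con bN (bE 0 r) ω x y} := by
    ext ω
    rw [mem_iUnion]
    exact reach_univ_iff
  rw [this]
  exact MeasurableSet.iUnion fun r => (depOn_con bN (bE 0 r) x y).measurable_fin

lemma meas_OutB (x : Fin d → ℤ) (n : ℕ) : MeasurableSet (OutB x n) := by
  have : OutB x n = ⋃ y : Fin d → ℤ, ⋃ (_ : y ∉ bx (0 : Fin d → ℤ) n),
      {ω | (openB ω univ).Reachable x y} := by
    ext ω
    unfold OutB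
    simp only [mem_iUnion, exists_prop, mem_setOf_eq]
  rw [this]
  exact MeasurableSet.iUnion fun y => MeasurableSet.iUnion fun _ => meas_reachU x y

lemma InfB_eq (x : Fin d → ℤ) : InfB x = ⋂ n : ℕ, OutB x n := by
  ext ω
  rw [mem_iInter]
  exact infinite_iff

lemma meas_InfB (x : Fin d → ℤ) : MeasurableSet (InfB x) := by
  rw [InfB_eq]
  exact MeasurableSet.iInter fun n => meas_OutB x n

lemma InfB_trans (q : NNReal) (hq : q ≤ 1) (x : Fin d → ℤ) :
    (bm _ q hq).real (InfB x) = (bm _ q hq).real (InfB (0 : Fin d → ℤ)) := by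
  have h : InfB x = {ω | rel (s2 (Equiv.addLeft x)) ω ∈ InfB (0 : Fin d → ℤ)} := by
    ext ω
    unfold InfB
    simp only [mem_setOf_eq]
    have h1 : {y | (openB ω univ).Reachable x y} = (Equiv.addLeft x) ''
        {y | (openB (rel (s2 (Equiv.addLeft x)) ω) univ).Reachable 0 y} := by
      have key : ∀ a b : Fin d → ℤ, (openB ω univ).Adj ((Equiv.addLeft x) a) ((Equiv.addLeft x) b) ↔
          (openB (rel (s2 (Equiv.addLeft x)) ω) univ).Adj a b := by
        intro a b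
        show ((lat d).Adj ((isoT x).σ a) ((isoT x).σ b) ∧ _ ∧ _ ∧ _) ↔ _
        rw [(isoT x).adj]
        exact Iff.rfl
      ext y
      constructor
      · intro hy
        refine ⟨(Equiv.addLeft x).symm y, ?_, by simp⟩
        show (openB (rel (s2 (Equiv.addLeft x)) ω) univ).Reachable 0 _
        rw [reach_rtg, ← rtg_equiv (Equiv.addLeft x) key, Equiv.apply_symm_apply]
        have e : (Equiv.addLeft x) 0 = x := by simp
        rw [e, ← reach_rtg]
        exact hy
      · rintro ⟨y, hy, rfl⟩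
        have hy' : (openB (rel (s2 (Equiv.addLeft x)) ω) univ).Reachable 0 y := hy
        rw [reach_rtg, ← rtg_equiv (Equiv.addLeft x) key] at hy'
        have e : (Equiv.addLeft x) 0 = x := by simp
        rw [e, ← reach_rtg] at hy'
        exact hy'
    rw [h1, Set.infinite_image_iff ((Equiv.addLeft x).injective.injOn)]
  rw [h]
  exact bm_rel q hq _ (meas_InfB 0)

lemma InfB_sub {x : Fin d → ℤ} {n : ℕ} (hx : x ∈ bx (0 : Fin d → ℤ) n) :
    InfB x ⊆ ⋃ v ∈ sph (0 : Fin d → ℤ) n, XB x v 0 n := by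
  intro ω hω
  by_contra hcon
  simp only [mem_iUnion, exists_prop, not_exists, not_and] at hcon
  have key : ∀ y, (openB ω univ).Reachable x y → y ∈ bx (0 : Fin d → ℤ) n ∧
      Con bN (bE 0 n) ω x y := by
    intro y hy
    rw [reach_rtg] at hy
    induction hy with
    | refl => exact ⟨hx, Con.refl _ _ _ _⟩
    | @tail b c _ hbc ih =>
      obtain ⟨hb, hcb⟩ := ih
      have hs : b ∉ sph (0 : Fin d → ℤ) n := fun h => hcon b h hcb
      obtain ⟨h1, _, _, h4⟩ := hbc
      have hc := adj_mem_bx h1 hb hs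
      exact ⟨hc, hcb.trans (Con.single ⟨s(b, c), mk_mem_bE.2 ⟨h1, hb, hc⟩, h4,
        Sym2.mem_mk_left b c, Sym2.mem_mk_right b c⟩)⟩
  have hfin : {y | (openB ω univ).Reachable x y}.Finite :=
    Set.Finite.subset (bx (0 : Fin d → ℤ) n).finite_toSet fun y hy => (key y hy).1
  exact hω hfin

lemma bond_q_pos (q : NNReal) (hq : q ≤ 1) (hd : 1 ≤ d)
    (hθ : 0 < (bm _ q hq).real (InfB (0 : Fin d → ℤ))) : 0 < q := by
  by_contra hcon
  have hq0 : q = 0 := le_antisymm (not_lt.1 hcon) bot_le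
  have h1 : InfB (0 : Fin d → ℤ) ⊆ ⋃ e ∈ bE (0 : Fin d → ℤ) 1,
      {ω : Sym2 (Fin d → ℤ) → Bool | ω e = true} := by
    intro ω hω
    have h2 := InfB_sub (self_mem_bx (0 : Fin d → ℤ) 1) hω
    simp only [mem_iUnion, exists_prop] at h2 ⊢
    obtain ⟨v, hv, hc⟩ := h2
    have hv0 : v ≠ 0 := by
      rintro rfl
      obtain ⟨_, i, hi⟩ := mem_sph.1 hv
      simp at hi
    have hc' : Con bN (bE 0 1) ω 0 v := hc
    rcases Relation.ReflTransGen.cases_head hc' with h3 | ⟨w, ⟨e, he, ho, _⟩, _⟩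
    · exact absurd h3.symm hv0
    · exact ⟨e, he, ho⟩
  have h2 : (bm _ q hq).real (InfB (0 : Fin d → ℤ)) ≤ ∑ e ∈ bE (0 : Fin d → ℤ) 1,
      (bm _ q hq).real {ω : Sym2 (Fin d → ℤ) → Bool | ω e = true} :=
    (measureReal_mono h1 (measure_ne_top _ _)).trans (measureReal_biUnion_finset_le _ _)
  have h3 : ∀ e ∈ bE (0 : Fin d → ℤ) 1,
      (bm _ q hq).real {ω : Sym2 (Fin d → ℤ) → Bool | ω e = true} = 0 := by
    intro e _
    unfold Measure.real
    rw [bm_eval q hq e true]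
    simp [hq0]
  rw [Finset.sum_eq_zero h3] at h2
  linarith

/-- the model data of bond percolation -/
noncomputable def bondC (q : NNReal) (hq : q ≤ 1) (hd : 1 ≤ d)
    (hθ : 0 < (bm _ q hq).real (InfB (0 : Fin d → ℤ))) : CLat d (Sym2 (Fin d → ℤ)) q hq where
  X := XB
  J := bE
  depX := fun x y z r => depOn_con bN (bE z r) x y
  upX := fun x y z r ω ω' h hω => Con.mono subset_rfl h hω
  symm := fun x y z r => by
    ext ω
    exact ⟨fun h => Con.symm h, fun h => Con.symm h⟩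
  trans := fun x y w z r z' r' z'' r'' h h' ω hω =>
    (Con.mono ((bondH d).E_mono _ _ _ _ h) le_rfl hω.1).trans
      (Con.mono ((bondH d).E_mono _ _ _ _ h') le_rfl hω.2)
  π := q
  hπ := by exact_mod_cast bond_q_pos q hq hd hθ
  one := fun x z r hx => by
    have : XB x x z r = univ := by
      ext ω; exact ⟨fun _ => trivial, fun _ => Con.refl _ _ _ _⟩
    rw [this]
    simp
    exact_mod_cast hq
  step := fun x i => by
    have h1 : {ω : Sym2 (Fin d → ℤ) → Bool | ω s(x, x + ev i) = true} ⊆ XB x (x + ev i) x 1 := by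
      intro ω hω
      refine Con.single ⟨s(x, x + ev i), ?_, hω, Sym2.mem_mk_left _ _, Sym2.mem_mk_right _ _⟩
      have := (bondH d).memE i x
      have e : (bondH d).tI x ((bondH d).b i) = s(x, x + ev i) := by
        show s2 (Equiv.addLeft x) s(0, ev i) = _
        rw [s2_mk]; simp
      rw [e] at this
      exact this
    refine le_trans (le_of_eq ?_) (measureReal_mono h1 (measure_ne_top _ _))
    unfold Measure.real
    rw [bm_eval q hq _ true]
    simp
  inv_t := fun w x y z r => XB_iso q hq (isoT w) x y z r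
  inv_r := fun j a x y z r => XB_iso q hq (isoR j a) x y z r
  inv_s := fun i j x y z r => XB_iso q hq (isoS i j) x y z r
  θ := (bm _ q hq).real (InfB (0 : Fin d → ℤ))
  hθ := hθ
  reach := fun x n hx => by
    rw [← InfB_trans q hq x]
    exact measureReal_mono (InfB_sub hx) (measure_ne_top _ _)
  K := d * (bondH d).KA q
  hK := mul_nonneg (Nat.cast_nonneg _) ((bondH d).KA_nonneg q)
  glue := fun x y k n hx hy hkn => by
    have h := (bondH d).glue_box q hq (bond_q_pos q hq hd hθ) hd x y hkn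
    have h1 : ((⋃ v ∈ sph (0 : Fin d → ℤ) n, XB x v 0 n) ∩
        (⋃ v ∈ sph (0 : Fin d → ℤ) n, XB y v 0 n)) \ XB x y 0 n ⊆
        {ω | x ∈ cl (bondH d).N ((bondH d).E 0 n) ω ((bondH d).F 0 n) ∧
          y ∈ cl (bondH d).N ((bondH d).E 0 n) ω ((bondH d).F 0 n) ∧
          ¬ Con (bondH d).N ((bondH d).E 0 n) ω x y} := by
      rintro ω ⟨⟨h1, h2⟩, h3⟩
      simp only [mem_iUnion, exists_prop] at h1 h2
      obtain ⟨v, hv, h1⟩ := h1
      obtain ⟨w, hw, h2⟩ := h2
      exact ⟨⟨v, hv, Con.symm h1⟩, ⟨w, hw, Con.symm h2⟩, h3⟩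
    have h2 := measureReal_mono (μ := bm _ q hq) h1 (measure_ne_top _ _)
    have h3 : (bm _ q hq).real (XB x y 0 k) * (bm _ q hq).real
        (((⋃ v ∈ sph (0 : Fin d → ℤ) n, XB x v 0 n) ∩
        (⋃ v ∈ sph (0 : Fin d → ℤ) n, XB y v 0 n)) \ XB x y 0 n) ≤
        (((bondH d).cE : ℝ) * (2 * k + 1) ^ d) * ((bondH d).KA q / Real.sqrt ((n - k : ℕ) : ℝ)) :=
      (mul_le_mul_of_nonneg_left h2 measureReal_nonneg).trans h
    refine h3.trans (le_of_eq ?_)
    show ((d : ℝ) * (2 * k + 1) ^ d) * ((bondH d).KA q / Real.sqrt ((n - k : ℕ) : ℝ)) =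
      d * (bondH d).KA q * (2 * k + 1) ^ d / Real.sqrt ((n - k : ℕ) : ℝ)
    ring

/-- conversely long range order implies percolation -/
lemma bond_conv (q : NNReal) (hq : q ≤ 1) (hd : 1 ≤ d) {c : ℝ} (hc : 0 < c)
    (h : ∀ m : ℕ, ∃ y, y ∉ bx (0 : Fin d → ℤ) m ∧
      c ≤ (bm _ q hq).real {ω : Sym2 (Fin d → ℤ) → Bool | (openB ω univ).Reachable 0 y}) :
    0 < (bm _ q hq).real (InfB (0 : Fin d → ℤ)) := by
  have hanti : Antitone (fun n => OutB (0 : Fin d → ℤ) n) := by
    intro n n' hn ω hω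
    obtain ⟨y, hy, hr⟩ := hω
    exact ⟨y, fun h' => hy (bx_mono 0 hn h'), hr⟩
  have hlim := tendsto_measure_iInter_atTop (μ := bm (Sym2 (Fin d → ℤ)) q hq)
    (s := fun n => OutB (0 : Fin d → ℤ) n) (fun n => (meas_OutB 0 n).nullMeasurableSet) hanti
    ⟨0, measure_ne_top _ _⟩
  rw [← InfB_eq] at hlim
  have hge : ∀ n, ENNReal.ofReal c ≤ bm (Sym2 (Fin d → ℤ)) q hq (OutB (0 : Fin d → ℤ) n) := by
    intro n
    obtain ⟨y, hy, hcy⟩ := h n
    have h1 : {ω : Sym2 (Fin d → ℤ) → Bool | (openB ω univ).Reachable 0 y} ⊆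
        OutB (0 : Fin d → ℤ) n := fun ω hω => ⟨y, hy, hω⟩
    have h2 := hcy.trans (measureReal_mono h1 (measure_ne_top _ _))
    rw [← ENNReal.ofReal_toReal (measure_ne_top (bm (Sym2 (Fin d → ℤ)) q hq)
      (OutB (0 : Fin d → ℤ) n))]
    exact ENNReal.ofReal_le_ofReal h2
  have h3 := ge_of_tendsto' hlim hge
  have h4 : c ≤ (bm _ q hq).real (InfB (0 : Fin d → ℤ)) := by
    exact (ENNReal.ofReal_le_iff_le_toReal (measure_ne_top _ _)).1 h3
  linarith

end Pool.Agent.W804.HP
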