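import Pool.Agent.W804.HP.Bond

/-!
# Bond percolation on `ℤ^d`: positive percolation probability is equivalent to long range order
in boxes of polynomial size, and it implies polynomial quantitative uniqueness
-/

set_option autoImplicit false
set_option linter.all false
set_option linter.deprecated false

open MeasureTheory Set Pool.Agent.H978R2

namespace Pool.Agent.W804.HP

theorem bond_main (d : ℕ) (hd : 1 ≤ d) (p : NNReal) (hp : p ≤ 1) :
    (0 < (bm (Sym2 (Fin d → ℤ)) p hp).real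
        {ω | {y | (openB ω univ).Reachable 0 y}.Infinite} ↔
      ∃ (A : ℕ) (c : ℝ), 0 < c ∧ ∀ n N : ℕ, 1 ≤ n → A * n ^ (4 * d - 2) ≤ N →
        ∀ x ∈ bx (0 : Fin d → ℤ) n, ∀ y ∈ bx (0 : Fin d → ℤ) n,
          c ≤ (bm (Sym2 (Fin d → ℤ)) p hp).real
            {ω | (openB ω (bx (0 : Fin d → ℤ) N)).Reachable x y}) ∧
    (0 < (bm (Sym2 (Fin d → ℤ)) p hp).real
        {ω | {y | (openB ω univ).Reachable 0 y}.Infinite} →
      ∃ B : ℝ, ∀ n N : ℕ, 1 ≤ n → 1 ≤ N →
        (bm (Sym2 (Fin d → ℤ)) p hp).real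
          {ω | ∃ x ∈ bx (0 : Fin d → ℤ) n, ∃ y ∈ bx (0 : Fin d → ℤ) n,
            (∃ u ∈ sph (0 : Fin d → ℤ) N, (openB ω (bx (0 : Fin d → ℤ) N)).Reachable x u) ∧
            (∃ v ∈ sph (0 : Fin d → ℤ) N, (openB ω (bx (0 : Fin d → ℤ) N)).Reachable y v) ∧
            ¬ (openB ω (bx (0 : Fin d → ℤ) N)).Reachable x y} ≤
          B * (n : ℝ) ^ (4 * d ^ 2) / Real.sqrt N) := by
  have hI : {ω : Sym2 (Fin d → ℤ) → Bool | {y | (openB ω univ).Reachable 0 y}.Infinite} =
      InfB (0 : Fin d → ℤ) := rfl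
  rw [hI]
  refine ⟨⟨?_, ?_⟩, ?_⟩
  · intro hθ
    obtain ⟨A, c, _, hc, h⟩ := (bondC p hp hd hθ).main_a hd
    refine ⟨A, c, hc, fun n N hn hN x hx y hy => ?_⟩
    have h1 := h n N hn hN x hx y hy
    have h2 : {ω : Sym2 (Fin d → ℤ) → Bool | (openB ω (bx (0 : Fin d → ℤ) N)).Reachable x y} =
        XB x y 0 N := by
      ext ω
      exact con_bond.symm
    rw [h2]
    exact h1
  · rintro ⟨A, c, hc, h⟩
    refine bond_conv p hp hd hc fun m => ?_
    have i0 : Fin d := ⟨0, hd⟩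
    refine ⟨fun _ => (m : ℤ) + 1, ?_, ?_⟩
    · intro hmem
      have := mem_bx.1 hmem i0
      simp only [Pi.zero_apply, sub_zero] at this
      rw [abs_of_nonneg (by positivity)] at this
      linarith
    · have h1 := h (m + 1) (A * (m + 1) ^ (4 * d - 2)) (by omega) le_rfl 0 (self_mem_bx 0 _)
        (fun _ => (m : ℤ) + 1) (by
          rw [mem_bx]
          intro i
          simp only [Pi.zero_apply, sub_zero]
          rw [abs_of_nonneg (by positivity)]
          push_cast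
          exact le_rfl)
      refine h1.trans (measureReal_mono ?_ (measure_ne_top _ _))
      intro ω hω
      refine SimpleGraph.Reachable.mono ?_ hω
      intro a b hab
      exact ⟨hab.1, trivial, trivial, hab.2.2.2⟩
  · intro hθ
    obtain ⟨B, _, h⟩ := (bondC p hp hd hθ).main_b hd
    refine ⟨B, fun n N hn hN => ?_⟩
    refine le_trans (measureReal_mono ?_ (measure_ne_top _ _)) (h n N hn hN)
    rintro ω ⟨x, hx, y, hy, ⟨u, hu, h1⟩, ⟨v, hv, h2⟩, h3⟩
    simp only [mem_iUnion, exists_prop]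
    refine ⟨x, hx, y, hy, ⟨?_, ?_⟩, ?_⟩
    · show ω ∈ ⋃ v ∈ sph (0 : Fin d → ℤ) N, XB x v 0 N
      simp only [mem_iUnion, exists_prop]
      exact ⟨u, hu, con_bond.2 h1⟩
    · show ω ∈ ⋃ v ∈ sph (0 : Fin d → ℤ) N, XB y v 0 N
      simp only [mem_iUnion, exists_prop]
      exact ⟨v, hv, con_bond.2 h2⟩
    · intro h4
      exact h3 (con_bond.1 h4)

end Pool.Agent.W804.HP
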