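import Pool.Agent.W804.HP.HLat

/-!
# Long range order in boxes: the chaining argument
-/

set_option autoImplicit false
set_option linter.all false
set_option linter.deprecated false

open MeasureTheory Set Pool.Agent.H978R2

namespace Pool.Agent.W804.HP

/-- reflection of the coordinate `j` -/
def rfl' {d : ℕ} (j : Fin d) (a : ℤ) (x : Fin d → ℤ) : Fin d → ℤ := Function.update x j (a - x j)

/-- exchange of two coordinates -/
def swp {d : ℕ} (i j : Fin d) (x : Fin d → ℤ) : Fin d → ℤ := fun l => x (Equiv.swap i j l)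

/-- data of a percolation model on the lattice with positive percolation probability -/
structure CLat (d : ℕ) (ι : Type) (q : NNReal) (hq : q ≤ 1) where
  X : (Fin d → ℤ) → (Fin d → ℤ) → (Fin d → ℤ) → ℕ → Set (ι → Bool)
  J : (Fin d → ℤ) → ℕ → Finset ι
  depX : ∀ x y z r, DepOn (J z r : Set ι) (X x y z r)
  upX : ∀ x y z r, IsUpperSet (X x y z r)
  symm : ∀ x y z r, X x y z r = X y x z r
  trans : ∀ x y w z r z' r' z'' r'', bx z r ⊆ bx z'' r'' → bx z' r' ⊆ bx z'' r'' →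
    X x y z r ∩ X y w z' r' ⊆ X x w z'' r''
  π : ℝ
  hπ : 0 < π
  one : ∀ x z r, x ∈ bx z r → π ≤ (bm ι q hq).real (X x x z r)
  step : ∀ x i, π ≤ (bm ι q hq).real (X x (x + ev i) x 1)
  inv_t : ∀ w x y z r, (bm ι q hq).real (X (w + x) (w + y) (w + z) r) =
    (bm ι q hq).real (X x y z r)
  inv_r : ∀ j a x y z r, (bm ι q hq).real (X (rfl' j a x) (rfl' j a y) (rfl' j a z) r) =
    (bm ι q hq).real (X x y z r)
  inv_s : ∀ i j x y z r, (bm ι q hq).real (X (swp i j x) (swp i j y) (swp i j z) r) =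
    (bm ι q hq).real (X x y z r)
  θ : ℝ
  hθ : 0 < θ
  reach : ∀ x n, x ∈ bx 0 n → θ ≤ (bm ι q hq).real (⋃ v ∈ sph 0 n, X x v 0 n)
  K : ℝ
  hK : 0 ≤ K
  glue : ∀ x y k n, x ∈ bx 0 k → y ∈ bx 0 k → k < n →
    (bm ι q hq).real (X x y 0 k) *
      (bm ι q hq).real (((⋃ v ∈ sph 0 n, X x v 0 n) ∩ (⋃ v ∈ sph 0 n, X y v 0 n)) \ X x y 0 n) ≤
      K * (2 * k + 1) ^ d / Real.sqrt ((n - k : ℕ) : ℝ)

namespace CLat

variable {d : ℕ} {ι : Type} {q : NNReal} {hq : q ≤ 1} (M : CLat d ι q hq)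

/-- probability -/
noncomputable def P (A : Set (ι → Bool)) : ℝ := (bm ι q hq).real A

lemma P_le_one (A : Set (ι → Bool)) : P (q := q) (hq := hq) A ≤ 1 := measureReal_le_one

lemma P_nonneg (A : Set (ι → Bool)) : 0 ≤ P (q := q) (hq := hq) A := measureReal_nonneg

lemma P_mono {A B : Set (ι → Bool)} (h : A ⊆ B) : P (q := q) (hq := hq) A ≤ P (q := q) (hq := hq) B :=
  measureReal_mono h (measure_ne_top _ _)

lemma harris2 {J J' : Finset ι} {A B : Set (ι → Bool)} (hA : DepOn (J : Set ι) A)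
    (hB : DepOn (J' : Set ι) B) (uA : IsUpperSet A) (uB : IsUpperSet B) :
    P (q := q) (hq := hq) A * P (q := q) (hq := hq) B ≤ P (q := q) (hq := hq) (A ∩ B) := by
  classical
  exact harris q hq (J := J ∪ J') (hA.mono (by simp)) (hB.mono (by simp)) uA uB

/-- connection to the boundary -/
def R (x : Fin d → ℤ) (n : ℕ) : Set (ι → Bool) := ⋃ v ∈ sph 0 n, M.X x v 0 n

lemma depR (x : Fin d → ℤ) (n : ℕ) : DepOn (M.J 0 n : Set ι) (M.R x n) := by
  intro ω ω' h
  unfold R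
  simp only [mem_iUnion, exists_prop]
  constructor
  · rintro ⟨v, hv, hω⟩; exact ⟨v, hv, (M.depX x v 0 n ω ω' h).1 hω⟩
  · rintro ⟨v, hv, hω⟩; exact ⟨v, hv, (M.depX x v 0 n ω ω' h).2 hω⟩

lemma upR (x : Fin d → ℤ) (n : ℕ) : IsUpperSet (M.R x n) := by
  intro ω ω' h hω
  unfold R at *
  simp only [mem_iUnion, exists_prop] at *
  obtain ⟨v, hv, hω⟩ := hω
  exact ⟨v, hv, M.upX x v 0 n h hω⟩

lemma measX (x y z : Fin d → ℤ) (r : ℕ) : MeasurableSet (M.X x y z r) :=
  (M.depX x y z r).measurable_fin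

/-- short form of the connection probability -/
noncomputable def C (x y z : Fin d → ℤ) (r : ℕ) : ℝ := P (q := q) (hq := hq) (M.X x y z r)

lemma C_nonneg (x y z : Fin d → ℤ) (r : ℕ) : 0 ≤ M.C x y z r := P_nonneg _

lemma C_symm (x y z : Fin d → ℤ) (r : ℕ) : M.C x y z r = M.C y x z r := by
  unfold C; rw [M.symm]

lemma C_mul {x y w z z' z'' : Fin d → ℤ} {r r' r'' : ℕ} (h : bx z r ⊆ bx z'' r'')
    (h' : bx z' r' ⊆ bx z'' r'') : M.C x y z r * M.C y w z' r' ≤ M.C x w z'' r'' :=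
  (harris2 (M.depX x y z r) (M.depX y w z' r') (M.upX _ _ _ _) (M.upX _ _ _ _)).trans
    (P_mono (M.trans x y w z r z' r' z'' r'' h h'))

lemma C_mono {x y z z'' : Fin d → ℤ} {r r'' : ℕ} (h : bx z r ⊆ bx z'' r'') :
    M.C x y z r ≤ M.C x y z'' r'' := by
  refine P_mono ?_
  intro ω hω
  have h2 : ω ∈ M.X x y z r ∩ M.X y x z r := ⟨hω, by rw [M.symm]; exact hω⟩
  have h3 := M.trans x y x z r z r z r subset_rfl subset_rfl h2
  exact M.trans x x y z r z r z'' r'' h h ⟨h3, hω⟩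

lemma rfl'_zero (j : Fin d) : rfl' j 0 (0 : Fin d → ℤ) = 0 := by
  funext i
  unfold rfl'
  by_cases h : i = j
  · subst h; simp
  · rw [Function.update_of_ne h]

lemma rfl'_rfl' (j : Fin d) (a : ℤ) (x : Fin d → ℤ) : rfl' j a (rfl' j a x) = x := by
  funext i
  unfold rfl'
  by_cases h : i = j
  · subst h; simp
  · rw [Function.update_of_ne h, Function.update_of_ne h]

lemma swp_swp (i j : Fin d) (x : Fin d → ℤ) : swp i j (swp i j x) = x := by
  funext l
  unfold swp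
  simp

lemma sum_biUnion_le' {α β : Type*} [DecidableEq β] (s : Finset α) (t : α → Finset β)
    (f : β → ℝ) (hf : ∀ b, 0 ≤ f b) : ∑ b ∈ s.biUnion t, f b ≤ ∑ a ∈ s, ∑ b ∈ t a, f b := by
  classical
  induction s using Finset.induction_on with
  | empty => simp
  | insert a s ha ih =>
    rw [Finset.biUnion_insert, Finset.sum_insert ha]
    have h1 : ∑ b ∈ t a ∪ s.biUnion t, f b ≤ ∑ b ∈ t a, f b + ∑ b ∈ s.biUnion t, f b := by
      rw [← Finset.sum_union_inter]
      have : 0 ≤ ∑ b ∈ t a ∩ s.biUnion t, f b := Finset.sum_nonneg fun b _ => hf b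
      linarith
    linarith

/-- sums over two opposite faces agree -/
lemma sum_face_rfl (k : ℕ) (j : Fin d) :
    ∑ v ∈ face 0 k j (-k), M.C 0 v 0 k = ∑ v ∈ face 0 k j k, M.C 0 v 0 k := by
  refine Finset.sum_bij' (fun v _ => rfl' j 0 v) (fun v _ => rfl' j 0 v) ?_ ?_ ?_ ?_ ?_
  · intro v hv
    rw [mem_face, mem_bx] at *
    refine ⟨fun i => ?_, ?_⟩
    · unfold rfl'
      by_cases h : i = j
      · subst h
        rw [Function.update_self]
        have := hv.1 i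
        simp only [Pi.zero_apply, zero_sub, sub_zero, abs_neg] at *
        exact this
      · rw [Function.update_of_ne h]; exact hv.1 i
    · unfold rfl'
      rw [Function.update_self]
      have := hv.2
      simp only [Pi.zero_apply] at *
      linarith
  · intro v hv
    rw [mem_face, mem_bx] at *
    refine ⟨fun i => ?_, ?_⟩
    · unfold rfl'
      by_cases h : i = j
      · subst h
        rw [Function.update_self]
        have := hv.1 i
        simp only [Pi.zero_apply, zero_sub, sub_zero, abs_neg] at *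
        exact this
      · rw [Function.update_of_ne h]; exact hv.1 i
    · unfold rfl'
      rw [Function.update_self]
      have := hv.2
      simp only [Pi.zero_apply] at *
      linarith
  · intro v _; exact rfl'_rfl' j 0 v
  · intro v _; exact rfl'_rfl' j 0 v
  · intro v _
    have := M.inv_r j 0 0 v 0 k
    rw [rfl'_zero] at this
    exact this.symm

lemma sum_face_swp (k : ℕ) (i j : Fin d) :
    ∑ v ∈ face 0 k i k, M.C 0 v 0 k = ∑ v ∈ face 0 k j k, M.C 0 v 0 k := by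
  have hz : swp i j (0 : Fin d → ℤ) = 0 := rfl
  refine Finset.sum_bij' (fun v _ => swp i j v) (fun v _ => swp i j v) ?_ ?_ ?_ ?_ ?_
  · intro v hv
    rw [mem_face, mem_bx] at *
    refine ⟨fun l => ?_, ?_⟩
    · exact hv.1 (Equiv.swap i j l)
    · unfold swp
      rw [Equiv.swap_apply_right]
      exact hv.2
  · intro v hv
    rw [mem_face, mem_bx] at *
    refine ⟨fun l => ?_, ?_⟩
    · exact hv.1 (Equiv.swap i j l)
    · unfold swp
      rw [Equiv.swap_apply_left]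
      exact hv.2
  · intro v _; exact swp_swp i j v
  · intro v _; exact swp_swp i j v
  · intro v _
    have := M.inv_s i j 0 v 0 k
    rw [hz] at this
    exact this.symm

/-- a displacement in direction `j` with large connection probability -/
lemma exists_v (hd : 1 ≤ d) (k : ℕ) (j : Fin d) :
    ∃ v ∈ face 0 k j k, M.θ ≤ 2 * d * (2 * k + 1) ^ (d - 1) * M.C 0 v 0 k := by
  by_contra hcon
  push Not at hcon
  have h1 := M.reach 0 k (self_mem_bx 0 k)
  have h2 : (bm ι q hq).real (⋃ v ∈ sph 0 k, M.X 0 v 0 k) ≤ ∑ v ∈ sph 0 k, M.C 0 v 0 k :=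
    measureReal_biUnion_finset_le _ _
  have h3 : ∑ v ∈ sph 0 k, M.C 0 v 0 k ≤
      ∑ i : Fin d, ∑ v ∈ face 0 k i k ∪ face 0 k i (-k), M.C 0 v 0 k := by
    refine (Finset.sum_le_sum_of_subset_of_nonneg (sph_subset 0 k)
      fun v _ _ => M.C_nonneg _ _ _ _).trans ?_
    exact sum_biUnion_le' _ _ _ fun v => M.C_nonneg _ _ _ _
  have h4 : ∀ i : Fin d, ∑ v ∈ face 0 k i k ∪ face 0 k i (-k), M.C 0 v 0 k ≤
      2 * ∑ v ∈ face 0 k j k, M.C 0 v 0 k := by
    intro i
    have a1 : ∑ v ∈ face 0 k i k ∪ face 0 k i (-k), M.C 0 v 0 k ≤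
        ∑ v ∈ face 0 k i k, M.C 0 v 0 k + ∑ v ∈ face 0 k i (-k), M.C 0 v 0 k := by
      rw [← Finset.sum_union_inter]
      have : 0 ≤ ∑ v ∈ face 0 k i k ∩ face 0 k i (-k), M.C 0 v 0 k :=
        Finset.sum_nonneg fun v _ => M.C_nonneg _ _ _ _
      linarith
    rw [M.sum_face_rfl k i, M.sum_face_swp k i j] at a1
    linarith
  have h5 : ∑ i : Fin d, ∑ v ∈ face 0 k i k ∪ face 0 k i (-k), M.C 0 v 0 k ≤
      d * (2 * ∑ v ∈ face 0 k j k, M.C 0 v 0 k) := by
    refine (Finset.sum_le_sum fun i _ => h4 i).trans ?_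
    rw [Finset.sum_const, Finset.card_univ, Fintype.card_fin, nsmul_eq_mul]
  -- upper bound of the face sum
  have hc : 0 < (2 * (k : ℝ) + 1) ^ (d - 1) := by positivity
  have hd0 : (0 : ℝ) < d := by exact_mod_cast hd
  set c : ℝ := M.θ / (2 * d * (2 * k + 1) ^ (d - 1)) with hcdef
  have hc0 : 0 < c := by rw [hcdef]; have := M.hθ; positivity
  have h6 : ∀ v ∈ face 0 k j k, M.C 0 v 0 k < c := by
    intro v hv
    rw [hcdef, lt_div_iff₀ (by positivity)]
    have := hcon v hv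
    linarith
  have hne : (face (0 : Fin d → ℤ) k j k).Nonempty := by
    by_contra hemp
    rw [Finset.not_nonempty_iff_eq_empty] at hemp
    rw [hemp, Finset.sum_empty] at h5
    have := M.hθ
    linarith
  have h7 : ∑ v ∈ face 0 k j k, M.C 0 v 0 k < ∑ v ∈ face 0 k j k, c :=
    Finset.sum_lt_sum_of_nonempty hne h6
  rw [Finset.sum_const, nsmul_eq_mul] at h7
  have h8 : ((face (0 : Fin d → ℤ) k j k).card : ℝ) ≤ (2 * k + 1) ^ (d - 1) := by
    have := card_face_le (0 : Fin d → ℤ) k j k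
    exact_mod_cast this
  have h9 : ((face (0 : Fin d → ℤ) k j k).card : ℝ) * c ≤ (2 * k + 1) ^ (d - 1) * c :=
    mul_le_mul_of_nonneg_right h8 hc0.le
  have h10 : d * (2 * ((2 * (k : ℝ) + 1) ^ (d - 1) * c)) = M.θ := by
    rw [hcdef]; field_simp
  have h11 : (d : ℝ) * (2 * ∑ v ∈ face 0 k j k, M.C 0 v 0 k) <
      d * (2 * ((2 * (k : ℝ) + 1) ^ (d - 1) * c)) := by
    refine mul_lt_mul_of_pos_left ?_ hd0
    linarith
  linarith

lemma theta_le_one : M.θ ≤ 1 := (M.reach 0 0 (self_mem_bx 0 0)).trans measureReal_le_one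

/-- the square of the percolation probability bounds joint connection from below -/
lemma R_R {x y : Fin d → ℤ} {n : ℕ} (hx : x ∈ bx 0 n) (hy : y ∈ bx 0 n) :
    M.θ ^ 2 ≤ P (q := q) (hq := hq) (M.R x n ∩ M.R y n) := by
  have h1 := harris2 (q := q) (hq := hq) (M.depR x n) (M.depR y n) (M.upR x n) (M.upR y n)
  have h2 : M.θ ≤ P (q := q) (hq := hq) (M.R x n) := M.reach x n hx
  have h3 : M.θ ≤ P (q := q) (hq := hq) (M.R y n) := M.reach y n hy
  have h4 := M.hθ
  nlinarith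

lemma C_ge {x y : Fin d → ℤ} {n : ℕ} :
    P (q := q) (hq := hq) (M.R x n ∩ M.R y n) ≤
      M.C x y 0 n + P (q := q) (hq := hq) ((M.R x n ∩ M.R y n) \ M.X x y 0 n) := by
  have h : M.R x n ∩ M.R y n ⊆ M.X x y 0 n ∪ ((M.R x n ∩ M.R y n) \ M.X x y 0 n) := by
    intro ω hω
    by_cases h : ω ∈ M.X x y 0 n
    · exact Or.inl h
    · exact Or.inr ⟨hω, h⟩
  exact (P_mono h).trans (measureReal_union_le _ _)

/-- the special displacement is good on the large scale -/
lemma special (hd : 1 ≤ d) {k n : ℕ} (hkn : k < n)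
    (hn : 4 * d * M.K * (2 * k + 1) ^ (2 * d - 1) ≤ M.θ ^ 3 * Real.sqrt ((n - k : ℕ) : ℝ))
    (j : Fin d) : ∃ v ∈ face 0 k j k, M.θ ^ 2 / 2 ≤ M.C 0 v 0 n := by
  obtain ⟨v, hv, h1⟩ := M.exists_v hd k j
  refine ⟨v, hv, ?_⟩
  have hvb : v ∈ bx 0 k := (mem_face.1 hv).1
  have h2 := M.glue 0 v k n (self_mem_bx 0 k) hvb hkn
  have h3 := M.R_R (x := 0) (y := v) (n := n) (self_mem_bx 0 n) (bx_mono 0 hkn.le hvb)
  have h4 := M.C_ge (x := 0) (y := v) (n := n)
  set f := P (q := q) (hq := hq) ((M.R 0 n ∩ M.R v n) \ M.X 0 v 0 n) with hf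
  have hf0 : 0 ≤ f := P_nonneg _
  have h2' : M.C 0 v 0 k * f ≤ M.K * (2 * k + 1) ^ d / Real.sqrt ((n - k : ℕ) : ℝ) := h2
  have hnk : (0 : ℝ) < Real.sqrt ((n - k : ℕ) : ℝ) := by
    refine Real.sqrt_pos.2 ?_
    have : 0 < n - k := by omega
    exact_mod_cast this
  rw [le_div_iff₀ hnk] at h2'
  have hθ := M.hθ
  -- θ f √ ≤ 2d (2k+1)^(2d-1) K
  have h5 : M.θ * f * Real.sqrt ((n - k : ℕ) : ℝ) ≤
      2 * d * (2 * k + 1) ^ (d - 1) * (M.K * (2 * k + 1) ^ d) := by
    have a1 : M.θ * f * Real.sqrt ((n - k : ℕ) : ℝ) ≤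
        (2 * d * (2 * k + 1) ^ (d - 1) * M.C 0 v 0 k) * f * Real.sqrt ((n - k : ℕ) : ℝ) := by
      refine mul_le_mul_of_nonneg_right ?_ hnk.le
      exact mul_le_mul_of_nonneg_right h1 hf0
    have a2 : (2 * d * (2 * (k : ℝ) + 1) ^ (d - 1)) * (M.C 0 v 0 k * f *
        Real.sqrt ((n - k : ℕ) : ℝ)) ≤ (2 * d * (2 * k + 1) ^ (d - 1)) * (M.K * (2 * k + 1) ^ d) :=
      mul_le_mul_of_nonneg_left h2' (by positivity)
    calc M.θ * f * Real.sqrt ((n - k : ℕ) : ℝ) ≤
        (2 * d * (2 * k + 1) ^ (d - 1) * M.C 0 v 0 k) * f * Real.sqrt ((n - k : ℕ) : ℝ) := a1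
      _ = (2 * d * (2 * (k : ℝ) + 1) ^ (d - 1)) * (M.C 0 v 0 k * f *
        Real.sqrt ((n - k : ℕ) : ℝ)) := by ring
      _ ≤ _ := a2
  have h6 : (2 * (k : ℝ) + 1) ^ (2 * d - 1) = (2 * k + 1) ^ (d - 1) * (2 * k + 1) ^ d := by
    rw [← pow_add]; congr 1; omega
  rw [h6] at hn
  have h7 : f ≤ M.θ ^ 2 / 2 := by
    by_contra hcon
    push Not at hcon
    have a1 : M.θ * (M.θ ^ 2 / 2) * Real.sqrt ((n - k : ℕ) : ℝ) <
        M.θ * f * Real.sqrt ((n - k : ℕ) : ℝ) := by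
      refine mul_lt_mul_of_pos_right ?_ hnk
      exact mul_lt_mul_of_pos_left hcon hθ
    have a2 : 4 * d * M.K * ((2 * (k : ℝ) + 1) ^ (d - 1) * (2 * k + 1) ^ d) =
        2 * (2 * d * (2 * k + 1) ^ (d - 1) * (M.K * (2 * k + 1) ^ d)) := by ring
    have a3 : M.θ * (M.θ ^ 2 / 2) * Real.sqrt ((n - k : ℕ) : ℝ) =
        M.θ ^ 3 * Real.sqrt ((n - k : ℕ) : ℝ) / 2 := by ring
    linarith
  linarith

/-- displacement by an even multiple of a unit vector -/
lemma even_step (hd : 1 ≤ d) {k n : ℕ} (hkn : k < n)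
    (hn : 4 * d * M.K * (2 * k + 1) ^ (2 * d - 1) ≤ M.θ ^ 3 * Real.sqrt ((n - k : ℕ) : ℝ))
    (j : Fin d) (u : Fin d → ℤ) {r : ℕ} (hr : n + 2 * k ≤ r) :
    M.θ ^ 4 / 4 ≤ M.C u (Function.update u j (u j + 2 * k)) u r := by
  obtain ⟨v, hv, h1⟩ := M.special hd hkn hn j
  have hvj : v j = k := by
    have := (mem_face.1 hv).2
    simpa using this
  set w : Fin d → ℤ := Function.update 0 j (2 * k) with hw
  have e1 : rfl' j (2 * k) (0 : Fin d → ℤ) = w := by
    unfold rfl'; rw [hw]; simp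
  have e2 : rfl' j (2 * k) v = v := by
    funext i
    unfold rfl'
    by_cases h : i = j
    · subst h; rw [Function.update_self, hvj]; ring
    · rw [Function.update_of_ne h]
  have h2 : M.C w v w n = M.C 0 v 0 n := by
    have := M.inv_r j (2 * k) 0 v 0 n
    rw [e1, e2] at this
    exact this
  have h3 : M.C 0 v 0 n * M.C v w w n ≤ M.C 0 w 0 r := by
    refine M.C_mul (bx_mono 0 (by omega)) (bx_subset fun i => ?_)
    rw [hw]
    by_cases h : i = j
    · subst h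
      rw [Function.update_self]
      simp only [Pi.zero_apply, sub_zero]
      rw [abs_of_nonneg (by positivity)]
      push_cast
      have : (n : ℤ) + 2 * k ≤ r := by exact_mod_cast hr
      linarith
    · rw [Function.update_of_ne h]
      simp
      omega
  have h4 : M.θ ^ 4 / 4 ≤ M.C 0 w 0 r := by
    rw [M.C_symm v w, h2] at h3
    have hp : 0 < M.θ ^ 2 / 2 := by have := M.hθ; positivity
    nlinarith
  have h5 := M.inv_t u 0 w 0 r
  have e3 : u + w = Function.update u j (u j + 2 * k) := by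
    funext i
    rw [hw]
    by_cases h : i = j
    · subst h; simp
    · simp [h]
  rw [e3, add_zero] at h5
  have h6 : M.C u (Function.update u j (u j + 2 * k)) u r = M.C 0 w 0 r := h5
  rw [h6]
  exact h4

lemma pi_le_one : M.π ≤ 1 := (M.one 0 0 0 (self_mem_bx 0 0)).trans measureReal_le_one

/-- the basic constant -/
noncomputable def c1 : ℝ := M.π ^ 2 * (M.θ ^ 4 / 4)

lemma c1_pos : 0 < M.c1 := by
  unfold c1; have := M.hπ; have := M.hθ; positivity

/-- displacement by a nonnegative multiple of a unit vector -/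
lemma pos_step (hd : 1 ≤ d) {m n : ℕ} (hmn : m < n)
    (hn : 4 * d * M.K * (2 * m + 1) ^ (2 * d - 1) ≤ M.θ ^ 3 * Real.sqrt ((n - m : ℕ) : ℝ))
    (j : Fin d) (u : Fin d → ℤ) (a : ℕ) (ha : a ≤ 2 * m) {r : ℕ} (hr : n + 2 * m + 1 ≤ r) :
    M.c1 ≤ M.C u (Function.update u j (u j + a)) u r := by
  have hθ := M.hθ
  have hπ := M.hπ
  have hθ1 := M.theta_le_one
  have hπ1 := M.pi_le_one
  have hK := M.hK
  have t4 : M.θ ^ 4 ≤ 1 := pow_le_one₀ hθ.le hθ1
  have hpi2 : M.π ^ 2 ≤ M.π := by nlinarith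
  have hpi3 : M.π ^ 2 ≤ 1 := by nlinarith
  -- even displacement
  have even : ∀ k : ℕ, k ≤ m → ∀ u : Fin d → ℤ,
      M.π * (M.θ ^ 4 / 4) ≤ M.C u (Function.update u j (u j + 2 * k)) u (n + 2 * m) := by
    intro k hk u
    rcases Nat.eq_zero_or_pos k with rfl | hk0
    · have e : Function.update u j (u j + 2 * ((0 : ℕ) : ℤ)) = u := by simp
      rw [e]
      have := M.one u u (n + 2 * m) (self_mem_bx _ _)
      refine le_trans ?_ this
      nlinarith
    · have hkn : k < n := by omega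
      have h1 : 4 * d * M.K * (2 * (k : ℝ) + 1) ^ (2 * d - 1) ≤
          M.θ ^ 3 * Real.sqrt ((n - k : ℕ) : ℝ) := by
        have a1 : (2 * (k : ℝ) + 1) ^ (2 * d - 1) ≤ (2 * m + 1) ^ (2 * d - 1) := by
          refine pow_le_pow_left₀ (by positivity) ?_ _
          have : (k : ℝ) ≤ m := by exact_mod_cast hk
          linarith
        have a2 : Real.sqrt ((n - m : ℕ) : ℝ) ≤ Real.sqrt ((n - k : ℕ) : ℝ) := by
          refine Real.sqrt_le_sqrt ?_
          have : n - m ≤ n - k := by omega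
          exact_mod_cast this
        have a3 : 4 * d * M.K * (2 * (k : ℝ) + 1) ^ (2 * d - 1) ≤
            4 * d * M.K * (2 * m + 1) ^ (2 * d - 1) :=
          mul_le_mul_of_nonneg_left a1 (by positivity)
        have a4 : M.θ ^ 3 * Real.sqrt ((n - m : ℕ) : ℝ) ≤ M.θ ^ 3 * Real.sqrt ((n - k : ℕ) : ℝ) :=
          mul_le_mul_of_nonneg_left a2 (by positivity)
        linarith
      have h2 := M.even_step hd hkn h1 j u (r := n + 2 * m) (by omega)
      have : 0 ≤ M.θ ^ 4 / 4 := by positivity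
      nlinarith
  obtain ⟨k, rfl | rfl⟩ : ∃ k, a = 2 * k ∨ a = 2 * k + 1 := ⟨a / 2, by omega⟩
  · have h1 := even k (by omega) u
    have e : ((2 * k : ℕ) : ℤ) = 2 * (k : ℤ) := by push_cast; ring
    rw [e]
    have h2 := M.C_mono (x := u) (y := Function.update u j (u j + 2 * (k : ℤ))) (z := u) (z'' := u)
      (bx_mono u (show n + 2 * m ≤ r by omega))
    unfold c1
    have : 0 ≤ M.θ ^ 4 / 4 := by positivity
    nlinarith
  · have h1 := even k (by omega) u
    set w := Function.update u j (u j + 2 * (k : ℤ)) with hw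
    have h2 := M.step w j
    have e : w + ev j = Function.update u j (u j + ((2 * k + 1 : ℕ) : ℤ)) := by
      funext i
      rw [hw]
      by_cases h : i = j
      · subst h; simp [ev]; ring
      · simp [ev, h]
    rw [e] at h2
    have h3 : M.C u w u (n + 2 * m) * M.C w (Function.update u j (u j + ((2 * k + 1 : ℕ) : ℤ))) w 1 ≤
        M.C u (Function.update u j (u j + ((2 * k + 1 : ℕ) : ℤ))) u r := by
      refine M.C_mul (bx_mono u (by omega)) (bx_subset fun i => ?_)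
      rw [hw]
      by_cases h : i = j
      · subst h
        rw [Function.update_self]
        have : u i + 2 * (k : ℤ) - u i = 2 * k := by ring
        rw [this, abs_of_nonneg (by positivity)]
        push_cast
        have h5 : 2 * k + 1 ≤ r := by omega
        exact_mod_cast h5
      · rw [Function.update_of_ne h]
        simp
        omega
    have h4 : M.π ≤ M.C w (Function.update u j (u j + ((2 * k + 1 : ℕ) : ℤ))) w 1 := h2
    unfold c1
    have h6 : 0 ≤ M.π * (M.θ ^ 4 / 4) := by positivity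
    have h7 : M.π * (M.θ ^ 4 / 4) * M.π ≤ M.C u w u (n + 2 * m) *
        M.C w (Function.update u j (u j + ((2 * k + 1 : ℕ) : ℤ))) w 1 :=
      mul_le_mul h1 h4 hπ.le (M.C_nonneg _ _ _ _)
    nlinarith

/-- change of one coordinate inside the box -/
lemma coord_step (hd : 1 ≤ d) {m n : ℕ} (hmn : m < n)
    (hn : 4 * d * M.K * (2 * m + 1) ^ (2 * d - 1) ≤ M.θ ^ 3 * Real.sqrt ((n - m : ℕ) : ℝ))
    (j : Fin d) {u : Fin d → ℤ} (hu : u ∈ bx 0 m) {t : ℤ} (ht : |t| ≤ m) {r : ℕ}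
    (hr : n + 3 * m + 1 ≤ r) : M.c1 ≤ M.C u (Function.update u j t) 0 r := by
  have huj := mem_bx.1 hu
  have hju := huj j
  simp only [Pi.zero_apply, sub_zero] at huj hju
  rw [abs_le] at ht hju
  rcases le_total (u j) t with h | h
  · obtain ⟨a, ha⟩ := Int.eq_ofNat_of_zero_le (sub_nonneg.2 h)
    have ha2 : a ≤ 2 * m := by
      have : (a : ℤ) ≤ 2 * m := by
        rw [← ha]; linarith [hju.1, ht.2]
      exact_mod_cast this
    have h1 := M.pos_step hd hmn hn j u a ha2 (r := n + 2 * m + 1) le_rfl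
    have e : u j + (a : ℤ) = t := by
      have : (a : ℤ) = t - u j := ha.symm
      rw [this]; ring
    rw [e] at h1
    refine h1.trans (M.C_mono (bx_subset fun i => ?_))
    have := huj i
    simp only [Pi.zero_apply, sub_zero]
    push_cast
    have : (n : ℤ) + 3 * m + 1 ≤ r := by exact_mod_cast hr
    linarith
  · obtain ⟨a, ha⟩ := Int.eq_ofNat_of_zero_le (sub_nonneg.2 h)
    have ha2 : a ≤ 2 * m := by
      have : (a : ℤ) ≤ 2 * m := by
        rw [← ha]; linarith [hju.2, ht.1]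
      exact_mod_cast this
    set w := Function.update u j t with hw
    have h1 := M.pos_step hd hmn hn j w a ha2 (r := n + 2 * m + 1) le_rfl
    have e : Function.update w j (w j + (a : ℤ)) = u := by
      funext i
      rw [hw]
      by_cases hi : i = j
      · subst hi
        simp only [Function.update_self]
        have : (a : ℤ) = u i - t := ha.symm
        rw [this]; ring
      · simp [hi]
    rw [e] at h1
    rw [M.C_symm]
    refine h1.trans (M.C_mono (bx_subset fun i => ?_))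
    have h3 : |w i - (0 : Fin d → ℤ) i| ≤ m := by
      simp only [Pi.zero_apply, sub_zero]
      rw [hw]
      by_cases hi : i = j
      · subst hi; rw [Function.update_self, abs_le]; exact ht
      · rw [Function.update_of_ne hi]; exact huj i
    push_cast
    have : (n : ℤ) + 3 * m + 1 ≤ r := by exact_mod_cast hr
    linarith

/-- all coordinates -/
lemma all_step (hd : 1 ≤ d) {m n : ℕ} (hmn : m < n)
    (hn : 4 * d * M.K * (2 * m + 1) ^ (2 * d - 1) ≤ M.θ ^ 3 * Real.sqrt ((n - m : ℕ) : ℝ))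
    {x y : Fin d → ℤ} (hx : x ∈ bx 0 m) (hy : y ∈ bx 0 m) {r : ℕ} (hr : n + 3 * m + 1 ≤ r) :
    M.π * M.c1 ^ d ≤ M.C x y 0 r := by
  classical
  have hx' := mem_bx.1 hx
  have hy' := mem_bx.1 hy
  have key : ∀ S : Finset (Fin d), M.π * M.c1 ^ S.card ≤
      M.C x (fun i => if i ∈ S then y i else x i) 0 r := by
    intro S
    induction S using Finset.induction_on with
    | empty =>
      simp only [Finset.card_empty, pow_zero, mul_one, Finset.notMem_empty, if_false]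
      exact M.one x 0 r (bx_mono 0 (by omega) hx)
    | insert j S hj ih =>
      set u : Fin d → ℤ := fun i => if i ∈ S then y i else x i with hu
      have hub : u ∈ bx 0 m := by
        rw [mem_bx]
        intro i
        rw [hu]
        by_cases h : i ∈ S
        · simp only [h, if_true]; exact hy' i
        · simp only [h, if_false]; exact hx' i
      have ht : |y j| ≤ m := by
        have := hy' j
        simpa using this
      have h1 := M.coord_step hd hmn hn j hub ht (r := r) hr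
      have e : Function.update u j (y j) = fun i => if i ∈ insert j S then y i else x i := by
        funext i
        by_cases hi : i = j
        · subst hi; simp
        · rw [Function.update_of_ne hi, hu]
          simp [hi]
      rw [e] at h1
      rw [Finset.card_insert_of_notMem hj, pow_succ]
      have h2 := M.C_mul (x := x) (y := u) (w := fun i => if i ∈ insert j S then y i else x i)
        (z := 0) (z' := 0) (z'' := 0) (r := r) (r' := r) (r'' := r) subset_rfl subset_rfl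
      refine le_trans ?_ h2
      rw [← mul_assoc]
      exact mul_le_mul ih h1 M.c1_pos.le (M.C_nonneg _ _ _ _)
  have := key Finset.univ
  simp only [Finset.mem_univ, if_true, Finset.card_univ, Fintype.card_fin] at this
  exact this

/-- long range order in boxes -/
theorem main_a (hd : 1 ≤ d) : ∃ (A : ℕ) (c : ℝ), 1 ≤ A ∧ 0 < c ∧ ∀ m N : ℕ, 1 ≤ m →
    A * m ^ (4 * d - 2) ≤ N → ∀ x ∈ bx (0 : Fin d → ℤ) m, ∀ y ∈ bx (0 : Fin d → ℤ) m,
    c ≤ M.C x y 0 N := by
  have hθ := M.hθ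
  have hK := M.hK
  set B : ℝ := (4 * d * M.K / M.θ ^ 3) ^ 2 * 3 ^ (4 * d - 2) with hB
  have hB0 : 0 ≤ B := by positivity
  refine ⟨⌈B⌉₊ + 6, M.π * M.c1 ^ d, by omega, ?_, ?_⟩
  · have := M.hπ; have := M.c1_pos; positivity
  intro m N hm hN x hx y hy
  have hmp : m ≤ m ^ (4 * d - 2) := Nat.le_self_pow (by omega) m
  have h1p : 1 ≤ m ^ (4 * d - 2) := Nat.one_le_pow _ _ hm
  have hN' : ⌈B⌉₊ * m ^ (4 * d - 2) + 6 * m ^ (4 * d - 2) ≤ N := by
    rw [← add_mul]; exact hN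
  -- n := N - 3m - 1
  obtain ⟨n, hn⟩ : ∃ n, N = n + 3 * m + 1 := ⟨N - 3 * m - 1, by omega⟩
  have hmn : m < n := by omega
  refine M.all_step hd hmn ?_ hx hy (r := N) (by omega)
  have h2 : ⌈B⌉₊ * m ^ (4 * d - 2) ≤ n - m := by omega
  have h3 : B * (m : ℝ) ^ (4 * d - 2) ≤ ((n - m : ℕ) : ℝ) := by
    have a1 : B ≤ (⌈B⌉₊ : ℝ) := Nat.le_ceil B
    have a2 : ((⌈B⌉₊ * m ^ (4 * d - 2) : ℕ) : ℝ) ≤ ((n - m : ℕ) : ℝ) := by exact_mod_cast h2
    push_cast at a2
    have a3 : B * (m : ℝ) ^ (4 * d - 2) ≤ ⌈B⌉₊ * (m : ℝ) ^ (4 * d - 2) :=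
      mul_le_mul_of_nonneg_right a1 (by positivity)
    have a4 : (((n - m : ℕ) : ℕ) : ℝ) = ((n - m : ℕ) : ℝ) := rfl
    have a5 : ((n - m : ℕ) : ℝ) = (n : ℝ) - m := by
      rw [Nat.cast_sub (by omega)]
    linarith
  have hm1 : (1 : ℝ) ≤ m := by exact_mod_cast hm
  have h4 : (4 * d * M.K * (2 * (m : ℝ) + 1) ^ (2 * d - 1) / M.θ ^ 3) ≤
      Real.sqrt ((n - m : ℕ) : ℝ) := by
    refine Real.le_sqrt_of_sq_le ?_
    refine le_trans ?_ h3
    have e1 : (2 * (m : ℝ) + 1) ^ (2 * d - 1) ≤ (3 * m) ^ (2 * d - 1) :=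
      pow_le_pow_left₀ (by positivity) (by linarith) _
    have e2 : 4 * d * M.K * (2 * (m : ℝ) + 1) ^ (2 * d - 1) / M.θ ^ 3 ≤
        4 * d * M.K * (3 * m) ^ (2 * d - 1) / M.θ ^ 3 := by
      refine div_le_div_of_nonneg_right ?_ (by positivity)
      exact mul_le_mul_of_nonneg_left e1 (by positivity)
    have e3 : (4 * d * M.K * (2 * (m : ℝ) + 1) ^ (2 * d - 1) / M.θ ^ 3) ^ 2 ≤
        (4 * d * M.K * (3 * m) ^ (2 * d - 1) / M.θ ^ 3) ^ 2 :=
      pow_le_pow_left₀ (by positivity) e2 2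
    refine e3.trans (le_of_eq ?_)
    rw [hB]
    have e4 : ((3 : ℝ) * m) ^ (2 * d - 1) = 3 ^ (2 * d - 1) * (m : ℝ) ^ (2 * d - 1) := mul_pow _ _ _
    have e5 : (3 : ℝ) ^ (4 * d - 2) = (3 ^ (2 * d - 1)) ^ 2 := by
      rw [← pow_mul]; congr 1; omega
    have e6 : (m : ℝ) ^ (4 * d - 2) = ((m : ℝ) ^ (2 * d - 1)) ^ 2 := by
      rw [← pow_mul]; congr 1; omega
    rw [e4, e5, e6]
    ring
  rw [div_le_iff₀ (by positivity)] at h4
  linarith

/-- quantitative uniqueness -/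
theorem main_b (hd : 1 ≤ d) : ∃ B : ℝ, 0 < B ∧ ∀ m N : ℕ, 1 ≤ m → 1 ≤ N →
    P (q := q) (hq := hq) (⋃ x ∈ bx (0 : Fin d → ℤ) m, ⋃ y ∈ bx (0 : Fin d → ℤ) m,
      ((M.R x N ∩ M.R y N) \ M.X x y 0 N)) ≤ B * (m : ℝ) ^ (4 * d ^ 2) / Real.sqrt N := by
  obtain ⟨A, c, hA, hc, h⟩ := M.main_a hd
  have hK := M.hK
  have hA1 : (1 : ℝ) ≤ A := by exact_mod_cast hA
  set B1 : ℝ := 3 ^ (2 * d) * (2 * M.K * (3 * A) ^ d / c) with hB1
  have hB10 : 0 ≤ B1 := by positivity
  refine ⟨B1 + 2 * A, by positivity, ?_⟩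
  intro m N hm hN
  have hm1 : (1 : ℝ) ≤ m := by exact_mod_cast hm
  have hN0 : (0 : ℝ) < N := by exact_mod_cast hN
  have hsN : 0 < Real.sqrt (N : ℝ) := Real.sqrt_pos.2 hN0
  set k := A * m ^ (4 * d - 2) with hk
  have hkm : m ≤ k := by
    rw [hk]
    calc m ≤ m ^ (4 * d - 2) := Nat.le_self_pow (by omega) m
      _ = 1 * m ^ (4 * d - 2) := (one_mul _).symm
      _ ≤ A * m ^ (4 * d - 2) := Nat.mul_le_mul_right _ hA
  have hk1 : 1 ≤ k := le_trans hm hkm
  have hkr : (k : ℝ) = A * (m : ℝ) ^ (4 * d - 2) := by rw [hk]; push_cast; ring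
  rcases Nat.lt_or_ge N (2 * k) with hNk | hNk
  · -- trivial case
    refine (P_le_one _).trans ?_
    rw [le_div_iff₀ hsN, one_mul]
    have h1 : Real.sqrt (N : ℝ) ≤ Real.sqrt ((2 * A * (m : ℝ) ^ (2 * d - 1)) ^ 2) := by
      refine Real.sqrt_le_sqrt ?_
      have a1 : (N : ℝ) ≤ 2 * k := by exact_mod_cast hNk.le
      rw [hkr] at a1
      have a2 : (m : ℝ) ^ (4 * d - 2) = ((m : ℝ) ^ (2 * d - 1)) ^ 2 := by
        rw [← pow_mul]; congr 1; omega
      rw [a2] at a1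
      have a3 : 0 ≤ ((m : ℝ) ^ (2 * d - 1)) ^ 2 := by positivity
      have a4 : (2 : ℝ) * A ≤ (2 * A) ^ 2 := by nlinarith
      calc (N : ℝ) ≤ 2 * (A * ((m : ℝ) ^ (2 * d - 1)) ^ 2) := a1
        _ = (2 * A) * ((m : ℝ) ^ (2 * d - 1)) ^ 2 := by ring
        _ ≤ (2 * A) ^ 2 * ((m : ℝ) ^ (2 * d - 1)) ^ 2 := mul_le_mul_of_nonneg_right a4 a3
        _ = _ := by ring
    rw [Real.sqrt_sq (by positivity)] at h1
    refine h1.trans ?_
    have h2 : (m : ℝ) ^ (2 * d - 1) ≤ (m : ℝ) ^ (4 * d ^ 2) := by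
      refine pow_le_pow_right₀ hm1 ?_
      have : 2 * d ≤ 4 * d ^ 2 := by nlinarith
      omega
    have h3 : 2 * A * (m : ℝ) ^ (2 * d - 1) ≤ 2 * A * (m : ℝ) ^ (4 * d ^ 2) :=
      mul_le_mul_of_nonneg_left h2 (by positivity)
    have h4 : 0 ≤ B1 * (m : ℝ) ^ (4 * d ^ 2) := by positivity
    nlinarith
  · have hkN : k < N := by omega
    have hpt : ∀ x ∈ bx (0 : Fin d → ℤ) m, ∀ y ∈ bx (0 : Fin d → ℤ) m,
        P (q := q) (hq := hq) ((M.R x N ∩ M.R y N) \ M.X x y 0 N) ≤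
        (2 * M.K * (3 * A) ^ d / c) * ((m : ℝ) ^ (4 * d - 2)) ^ d / Real.sqrt N := by
      intro x hx y hy
      have h1 := h m k hm le_rfl x hx y hy
      have h2 := M.glue x y k N (bx_mono 0 hkm hx) (bx_mono 0 hkm hy) hkN
      set f := P (q := q) (hq := hq) ((M.R x N ∩ M.R y N) \ M.X x y 0 N) with hf
      have hf0 : 0 ≤ f := P_nonneg _
      have h2' : M.C x y 0 k * f ≤ M.K * (2 * k + 1) ^ d / Real.sqrt ((N - k : ℕ) : ℝ) := h2
      have h3 : c * f ≤ M.K * (2 * k + 1) ^ d / Real.sqrt ((N - k : ℕ) : ℝ) :=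
        (mul_le_mul_of_nonneg_right h1 hf0).trans h2'
      have h4 : Real.sqrt (N : ℝ) ≤ 2 * Real.sqrt ((N - k : ℕ) : ℝ) := by
        have : Real.sqrt (N : ℝ) ≤ Real.sqrt (2 ^ 2 * ((N - k : ℕ) : ℝ)) := by
          refine Real.sqrt_le_sqrt ?_
          have a1 : N ≤ 4 * (N - k) := by omega
          have a2 : (N : ℝ) ≤ 4 * ((N - k : ℕ) : ℝ) := by exact_mod_cast a1
          linarith
        rwa [Real.sqrt_mul (by norm_num), Real.sqrt_sq (by norm_num)] at this
      have hs : 0 < Real.sqrt ((N - k : ℕ) : ℝ) := by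
        refine Real.sqrt_pos.2 ?_
        have : 0 < N - k := by omega
        exact_mod_cast this
      rw [le_div_iff₀ hs] at h3
      rw [le_div_iff₀ hsN, div_mul_eq_mul_div, le_div_iff₀ hc]
      have h5 : (2 * (k : ℝ) + 1) ^ d ≤ (3 * A) ^ d * ((m : ℝ) ^ (4 * d - 2)) ^ d := by
        rw [← mul_pow]
        refine pow_le_pow_left₀ (by positivity) ?_ d
        have : (1 : ℝ) ≤ k := by exact_mod_cast hk1
        rw [hkr] at this ⊢
        linarith
      have h6 : M.K * (2 * (k : ℝ) + 1) ^ d ≤ M.K * ((3 * A) ^ d * ((m : ℝ) ^ (4 * d - 2)) ^ d) :=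
        mul_le_mul_of_nonneg_left h5 hK
      have h7 : f * Real.sqrt (N : ℝ) * c ≤ 2 * (c * f * Real.sqrt ((N - k : ℕ) : ℝ)) := by
        have : 0 ≤ c * f := by positivity
        nlinarith [mul_le_mul_of_nonneg_left h4 this]
      calc f * Real.sqrt (N : ℝ) * c ≤ 2 * (c * f * Real.sqrt ((N - k : ℕ) : ℝ)) := h7
        _ ≤ 2 * (M.K * ((3 * A) ^ d * ((m : ℝ) ^ (4 * d - 2)) ^ d)) := by linarith
        _ = 2 * M.K * (3 * A) ^ d * ((m : ℝ) ^ (4 * d - 2)) ^ d := by ring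
    set g : ℝ := (2 * M.K * (3 * A) ^ d / c) * ((m : ℝ) ^ (4 * d - 2)) ^ d / Real.sqrt N with hg
    have hg0 : 0 ≤ g := by positivity
    have h8 : P (q := q) (hq := hq) (⋃ x ∈ bx (0 : Fin d → ℤ) m, ⋃ y ∈ bx (0 : Fin d → ℤ) m,
        ((M.R x N ∩ M.R y N) \ M.X x y 0 N)) ≤
        ∑ x ∈ bx (0 : Fin d → ℤ) m, ∑ y ∈ bx (0 : Fin d → ℤ) m,
          P (q := q) (hq := hq) ((M.R x N ∩ M.R y N) \ M.X x y 0 N) := by
      refine (measureReal_biUnion_finset_le _ _).trans ?_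
      exact Finset.sum_le_sum fun x _ => measureReal_biUnion_finset_le _ _
    have h9 : ∑ x ∈ bx (0 : Fin d → ℤ) m, ∑ y ∈ bx (0 : Fin d → ℤ) m,
          P (q := q) (hq := hq) ((M.R x N ∩ M.R y N) \ M.X x y 0 N) ≤
          ((2 * m + 1 : ℕ) : ℝ) ^ d * (((2 * m + 1 : ℕ) : ℝ) ^ d * g) := by
      have a1 : ∀ x ∈ bx (0 : Fin d → ℤ) m, ∑ y ∈ bx (0 : Fin d → ℤ) m,
          P (q := q) (hq := hq) ((M.R x N ∩ M.R y N) \ M.X x y 0 N) ≤
          ((2 * m + 1 : ℕ) : ℝ) ^ d * g := by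
        intro x hx
        have := Finset.sum_le_sum fun y hy => hpt x hx y hy
        rw [Finset.sum_const, nsmul_eq_mul, card_bx] at this
        push_cast at this ⊢
        exact this
      have := Finset.sum_le_sum a1
      rw [Finset.sum_const, nsmul_eq_mul, card_bx] at this
      push_cast at this ⊢
      exact this
    refine h8.trans (h9.trans ?_)
    have h10 : ((2 * m + 1 : ℕ) : ℝ) ^ d ≤ 3 ^ d * (m : ℝ) ^ d := by
      rw [← mul_pow]
      refine pow_le_pow_left₀ (by positivity) ?_ d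
      push_cast
      linarith
    have h11 : ((2 * m + 1 : ℕ) : ℝ) ^ d * (((2 * m + 1 : ℕ) : ℝ) ^ d * g) ≤
        (3 ^ d * (m : ℝ) ^ d) * ((3 ^ d * (m : ℝ) ^ d) * g) := by
      have a1 : ((2 * m + 1 : ℕ) : ℝ) ^ d * g ≤ (3 ^ d * (m : ℝ) ^ d) * g :=
        mul_le_mul_of_nonneg_right h10 hg0
      exact mul_le_mul h10 a1 (by positivity) (by positivity)
    refine h11.trans ?_
    have h12 : (3 ^ d * (m : ℝ) ^ d) * ((3 ^ d * (m : ℝ) ^ d) * g) =
        B1 * (m : ℝ) ^ (4 * d ^ 2) / Real.sqrt N := by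
      rw [hg, hB1]
      have e1 : (m : ℝ) ^ (4 * d ^ 2) = (m : ℝ) ^ d * (m : ℝ) ^ d * ((m : ℝ) ^ (4 * d - 2)) ^ d := by
        rw [← pow_mul, ← pow_add, ← pow_add]
        congr 1
        obtain ⟨e, rfl⟩ : ∃ e, d = e + 1 := ⟨d - 1, by omega⟩
        have : 4 * (e + 1) - 2 = 4 * e + 2 := by omega
        rw [this]; ring
      have e2 : (3 : ℝ) ^ (2 * d) = 3 ^ d * 3 ^ d := by
        rw [← pow_add]; congr 1; omega
      rw [e1, e2]
      ring
    rw [h12]
    refine div_le_div_of_nonneg_right ?_ hsN.le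
    refine mul_le_mul_of_nonneg_right ?_ (by positivity)
    linarith

end CLat

end Pool.Agent.W804.HP
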