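import Pool.Agent.W804.HP.Akn

/-!
# The gluing inequality
-/

set_option autoImplicit false
set_option linter.all false
set_option linter.deprecated false

open MeasureTheory Set Pool.Agent.H978R2

namespace Pool.Agent.W804.HP

variable {ι V : Type*}

lemma depOn_cl (N : ι → Set V) (E : Finset ι) (A : Set V) (v : V) :
    DepOn (E : Set ι) {ω : ι → Bool | v ∈ cl N E ω A} := by
  intro ω ω' h
  show v ∈ cl N E ω A ↔ v ∈ cl N E ω' A
  rw [cl_congr (fun i hi => h i hi)]

lemma upper_cl (N : ι → Set V) (E : Finset ι) (A : Set V) (v : V) :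
    IsUpperSet {ω : ι → Bool | v ∈ cl N E ω A} := by
  intro ω ω' h hv
  exact cl_mono subset_rfl h subset_rfl hv

lemma depOn_con (N : ι → Set V) (E : Finset ι) (u v : V) :
    DepOn (E : Set ι) {ω : ι → Bool | Con N E ω u v} := by
  intro ω ω' h
  show Con N E ω u v ↔ Con N E ω' u v
  rw [con_congr (fun i hi => h i hi)]

lemma EE_I1_mono {E : Finset ι} {p : ℝ} (h0 : 0 ≤ p) (h1 : p ≤ 1) {A B : Set (ι → Bool)}
    (h : A ⊆ B) : EE E p (I1 A) ≤ EE E p (I1 B) := by
  refine EE_mono h0 h1 fun ω => ?_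
  by_cases hA : ω ∈ A
  · rw [I1_mem hA, I1_mem (h hA)]
  · rw [I1_not hA]; exact I1_nonneg B ω

lemma EE_I1_nonneg {E : Finset ι} {p : ℝ} (h0 : 0 ≤ p) (h1 : p ≤ 1) (A : Set (ι → Bool)) :
    0 ≤ EE E p (I1 A) := by
  have := EE_mono (E := E) h0 h1 (f := fun _ => 0) (g := I1 A) fun ω => I1_nonneg A ω
  rwa [EE_const] at this

lemma EE_I1_empty {E : Finset ι} {p : ℝ} : EE E p (I1 (∅ : Set (ι → Bool))) = 0 := by
  have : (I1 (∅ : Set (ι → Bool))) = fun _ => (0 : ℝ) := by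
    funext ω; exact I1_not (by simp)
  rw [this, EE_const]

lemma EE_I1_iUnion_le {κ : Type*} {E : Finset ι} {p : ℝ} (h0 : 0 ≤ p) (h1 : p ≤ 1)
    (s : Finset κ) (A : κ → Set (ι → Bool)) :
    EE E p (I1 (⋃ k ∈ s, A k)) ≤ ∑ k ∈ s, EE E p (I1 (A k)) := by
  rw [← EE_sum]
  refine EE_mono h0 h1 fun ω => ?_
  by_cases h : ω ∈ ⋃ k ∈ s, A k
  · rw [I1_mem h]
    simp only [mem_iUnion, exists_prop] at h
    obtain ⟨k, hk, hω⟩ := h
    have h2 := Finset.single_le_sum (f := fun k => I1 (A k) ω) (fun k _ => I1_nonneg (A k) ω) hk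
    simp only [I1_mem hω] at h2
    exact h2
  · rw [I1_not h]
    exact Finset.sum_nonneg fun k _ => I1_nonneg (A k) ω

section glue
variable [DecidableEq ι]

/-- the main event of the exploration of `A` with respect to the vertex `y` -/
def GG (N : ι → Set V) (F : Set V) (y : V) (E : Finset ι) (A : Set V) : Set (ι → Bool) :=
  {ω | (∃ a ∈ cl N E ω A, a ∈ F) ∧ y ∈ cl N E ω F ∧ y ∉ cl N E ω A}

/-- the hyperedge `j` joins the cluster of `A` (or was found to be closed on its boundary) to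
the cluster of `y` -/
def TT (N : ι → Set V) (F : Set V) (y : V) (E : Finset ι) (A : Set V) (Z : Set ι) (j : ι) :
    Set (ι → Bool) :=
  {ω | (j ∈ Z ∨ (j ∈ E ∧ ω j = false ∧ tch N j (cl N E ω A))) ∧ (∃ w ∈ N j, Con N E ω w y) ∧
    ω ∈ GG N F y E A}

/-- union of the explored closed hyperedges in `E0` -/
def UZ (N : ι → Set V) (E0 : Finset ι) (Z : Set ι) : Set V := {v | ∃ j ∈ Z, j ∈ E0 ∧ v ∈ N j}

/-- the auxiliary connection event -/
def HH (N : ι → Set V) (E0 : Finset ι) (y : V) (E : Finset ι) (A : Set V) (Z : Set ι) :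
    Set (ι → Bool) := {ω | y ∈ cl N (E ∩ E0) ω (A ∪ UZ N E0 Z)}

lemma GG_open {N : ι → Set V} {F : Set V} {y : V} {E : Finset ι} {A : Set V} {i : ι}
    (hi : i ∈ E) (ht : tch N i A) (ω : ι → Bool) :
    upd i true ω ∈ GG N F y E A ↔ ω ∈ GG N F y (E.erase i) (A ∪ N i) := by
  unfold GG
  simp only [mem_setOf_eq]
  rw [cl_open hi (upd_self i true ω) ht, cl_upd]
  constructor
  · rintro ⟨h1, ⟨f, hf, h2⟩, h3⟩
    refine ⟨h1, ⟨f, hf, ?_⟩, h3⟩
    have h4 : y ∉ cl N E (upd i true ω) A := by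
      rw [cl_open hi (upd_self i true ω) ht, cl_upd]; exact h3
    have h5 := con_avoid hi ht h4 h2.symm
    rw [con_upd] at h5
    exact h5.symm
  · rintro ⟨h1, ⟨f, hf, h2⟩, h3⟩
    refine ⟨h1, ⟨f, hf, ?_⟩, h3⟩
    rw [← con_upd (i := i) true ω] at h2
    exact h2.mono (Finset.erase_subset _ _) le_rfl

lemma GG_closed {N : ι → Set V} {F : Set V} {y : V} {E : Finset ι} {A : Set V} {i : ι}
    (ω : ι → Bool) :
    upd i false ω ∈ GG N F y E A ↔ ω ∈ GG N F y (E.erase i) A := by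
  unfold GG
  simp only [mem_setOf_eq]
  rw [cl_closed (upd_self i false ω), cl_upd, cl_closed (upd_self i false ω), cl_upd]

lemma TT_open {N : ι → Set V} {F : Set V} {y : V} {E : Finset ι} {A : Set V} {Z : Set ι} {i j : ι}
    (hi : i ∈ E) (ht : tch N i A) (ω : ι → Bool) (h : ω ∈ TT N F y (E.erase i) (A ∪ N i) Z j) :
    upd i true ω ∈ TT N F y E A Z j := by
  obtain ⟨h1, ⟨w, hw, h2⟩, h3⟩ := h
  refine ⟨?_, ⟨w, hw, ?_⟩, (GG_open hi ht ω).2 h3⟩
  · rcases h1 with h1 | ⟨h1, h4, h5⟩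
    · exact Or.inl h1
    · have hne := Finset.ne_of_mem_erase h1
      refine Or.inr ⟨Finset.mem_of_mem_erase h1, by rw [upd_ne hne]; exact h4, ?_⟩
      rw [cl_open hi (upd_self i true ω) ht, cl_upd]
      exact h5
  · rw [← con_upd (i := i) true ω] at h2
    exact h2.mono (Finset.erase_subset _ _) le_rfl

lemma TT_closed {N : ι → Set V} {F : Set V} {y : V} {E : Finset ι} {A : Set V} {Z : Set ι}
    {i j : ι} (hi : i ∈ E) (ht : tch N i A) (ω : ι → Bool)
    (h : ω ∈ TT N F y (E.erase i) A (insert i Z) j) :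
    upd i false ω ∈ TT N F y E A Z j := by
  obtain ⟨h1, ⟨w, hw, h2⟩, h3⟩ := h
  refine ⟨?_, ⟨w, hw, ?_⟩, (GG_closed ω).2 h3⟩
  · rcases h1 with (h1 | h1) | ⟨h1, h4, h5⟩
    · subst h1
      refine Or.inr ⟨hi, upd_self _ _ _, ?_⟩
      obtain ⟨v, hv, hvA⟩ := ht
      exact ⟨v, hv, subset_cl _ _ _ _ hvA⟩
    · exact Or.inl h1
    · have hne := Finset.ne_of_mem_erase h1
      refine Or.inr ⟨Finset.mem_of_mem_erase h1, by rw [upd_ne hne]; exact h4, ?_⟩
      rw [cl_closed (upd_self i false ω), cl_upd]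
      exact h5
  · rw [← con_upd (i := i) false ω] at h2
    exact h2.mono (Finset.erase_subset _ _) le_rfl

lemma erase_inter' {E E0 : Finset ι} {i : ι} : (E.erase i) ∩ E0 = (E ∩ E0).erase i := by
  ext j
  simp only [Finset.mem_inter, Finset.mem_erase]
  tauto

lemma HH_open {N : ι → Set V} {E0 : Finset ι} {y : V} {E : Finset ι} {A : Set V} {Z : Set ι}
    {i : ι} (b : Bool) (ω : ι → Bool) (h : upd i b ω ∈ HH N E0 y E A Z) :
    ω ∈ HH N E0 y (E.erase i) (A ∪ N i) Z := by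
  unfold HH at *
  simp only [mem_setOf_eq] at *
  rw [erase_inter']
  have h1 := cl_erase_subset (i := i) h
  rw [cl_upd] at h1
  refine cl_mono subset_rfl le_rfl ?_ h1
  rintro v ((h | h) | h)
  · exact Or.inl (Or.inl h)
  · exact Or.inr h
  · exact Or.inl (Or.inr h)

lemma HH_closed {N : ι → Set V} {E0 : Finset ι} {y : V} {E : Finset ι} {A : Set V} {Z : Set ι}
    {i : ι} (b : Bool) (ω : ι → Bool) (h : upd i b ω ∈ HH N E0 y E A Z) :
    ω ∈ HH N E0 y (E.erase i) A (insert i Z) := by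
  unfold HH at *
  simp only [mem_setOf_eq] at *
  have hUZ : UZ N E0 Z ⊆ UZ N E0 (insert i Z) := by
    rintro v ⟨j, hj, hjE, hv⟩; exact ⟨j, Or.inr hj, hjE, hv⟩
  by_cases hi : i ∈ E0
  · rw [erase_inter']
    have h1 := cl_erase_subset (i := i) h
    rw [cl_upd] at h1
    refine cl_mono subset_rfl le_rfl ?_ h1
    rintro v ((h | h) | h)
    · exact Or.inl h
    · exact Or.inr (hUZ h)
    · exact Or.inr ⟨i, Or.inl rfl, hi, h⟩
  · have h2 : (E.erase i) ∩ E0 = E ∩ E0 := by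
      rw [erase_inter', Finset.erase_eq_of_notMem]
      simp [hi]
    have h3 : cl N (E ∩ E0) (upd i b ω) (A ∪ UZ N E0 Z) = cl N (E ∩ E0) ω (A ∪ UZ N E0 Z) := by
      refine cl_congr (fun j hj => upd_ne ?_ b ω) _
      rintro rfl
      exact hi (Finset.mem_inter.1 hj).2
    rw [h3] at h
    rw [h2]
    exact cl_mono subset_rfl le_rfl (union_subset_union_right _ hUZ) h

lemma EE_erase_le {E : Finset ι} {i : ι} {p : ℝ} (h0 : 0 ≤ p) (h1 : p ≤ 1) (hi : i ∈ E)
    {A B : Set (ι → Bool)} (h : ∀ b ω, upd i b ω ∈ A → ω ∈ B) :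
    EE E p (I1 A) ≤ EE (E.erase i) p (I1 B) := by
  rw [EE_split hi]
  have h2 : ∀ b, EE (E.erase i) p (fun ω => I1 A (upd i b ω)) ≤ EE (E.erase i) p (I1 B) := by
    intro b
    refine EE_mono h0 h1 fun ω => ?_
    by_cases hA : upd i b ω ∈ A
    · rw [I1_mem hA, I1_mem (h b ω hA)]
    · rw [I1_not hA]; exact I1_nonneg B ω
  have h3 := mul_le_mul_of_nonneg_left (h2 true) h0
  have h4 := mul_le_mul_of_nonneg_left (h2 false) (by linarith : 0 ≤ 1 - p)
  linarith

/-- the gluing inequality, general stage of the exploration -/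
theorem glue_aux (N : ι → Set V) (q : NNReal) (hq : q ≤ 1) (F : Set V) (y : V) (E0 : Finset ι)
    (E : Finset ι) (A : Set V) (Z : Set ι) :
    EE E q (I1 (HH N E0 y E A Z)) * EE E q (I1 (GG N F y E A)) ≤
      ∑ j ∈ E0, EE E q (I1 (TT N F y E A Z j)) := by
  have q0 : (0 : ℝ) ≤ q := q.2
  have q1 : (q : ℝ) ≤ 1 := by exact_mod_cast hq
  revert Z
  refine expl_induction N (fun E A => ∀ Z : Set ι,
    EE E q (I1 (HH N E0 y E A Z)) * EE E q (I1 (GG N F y E A)) ≤
      ∑ j ∈ E0, EE E q (I1 (TT N F y E A Z j))) ?_ ?_ E A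
  · intro E A h Z
    have hcl : ∀ ω : ι → Bool, cl N E ω A = A := fun ω => cl_isolated h
    have hRHS : 0 ≤ ∑ j ∈ E0, EE E q (I1 (TT N F y E A Z j)) :=
      Finset.sum_nonneg fun j _ => EE_I1_nonneg q0 q1 _
    by_cases hF : (∃ a ∈ A, a ∈ F) ∧ y ∉ A
    · have hG : GG N F y E A = {ω | y ∈ cl N E ω F} := by
        ext ω
        unfold GG
        simp only [mem_setOf_eq, hcl]
        tauto
      set S : Set (ι → Bool) := {ω | ∃ v ∈ UZ N E0 Z, Con N E ω v y} with hS
      have hS2 : S = {ω | y ∈ cl N E ω (UZ N E0 Z)} := rfl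
      have hHS : HH N E0 y E A Z ⊆ S := by
        rintro ω ⟨a, ha, hr⟩
        rcases ha with ha | ha
        · exfalso
          have : y ∈ cl N E ω A := ⟨a, ha, hr.mono Finset.inter_subset_left le_rfl⟩
          rw [hcl] at this
          exact hF.2 this
        · exact ⟨a, ha, hr.mono Finset.inter_subset_left le_rfl⟩
      have h1 : EE E q (I1 (HH N E0 y E A Z)) ≤ EE E q (I1 S) := EE_I1_mono q0 q1 hHS
      have h2 : EE E q (I1 S) * EE E q (I1 (GG N F y E A)) ≤
          EE E q (I1 (S ∩ GG N F y E A)) := by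
        have dS : DepOn (E : Set ι) S := by rw [hS2]; exact depOn_cl N E _ y
        have dG : DepOn (E : Set ι) (GG N F y E A) := by rw [hG]; exact depOn_cl N E _ y
        have uS : IsUpperSet S := by rw [hS2]; exact upper_cl N E _ y
        have uG : IsUpperSet (GG N F y E A) := by rw [hG]; exact upper_cl N E _ y
        have := harris q hq dS dG uS uG
        rwa [bm_real_eq_EE q hq dS, bm_real_eq_EE q hq dG, bm_real_eq_EE q hq (dS.inter dG)] at this
      have h3 : S ∩ GG N F y E A ⊆ ⋃ j ∈ E0, TT N F y E A Z j := by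
        rintro ω ⟨⟨v, ⟨j, hjZ, hjE, hv⟩, hr⟩, hg⟩
        simp only [mem_iUnion, exists_prop]
        exact ⟨j, hjE, Or.inl hjZ, ⟨v, hv, hr⟩, hg⟩
      have h4 := (EE_I1_mono q0 q1 h3 (E := E)).trans (EE_I1_iUnion_le q0 q1 E0 _)
      have h5 := mul_le_mul_of_nonneg_right h1 (EE_I1_nonneg (E := E) q0 q1 (GG N F y E A))
      linarith
    · have hG : GG N F y E A = ∅ := by
        ext ω
        unfold GG
        simp only [mem_setOf_eq, hcl, mem_empty_iff_false, iff_false]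
        rintro ⟨h1, h2, h3⟩
        exact hF ⟨h1, h3⟩
      rw [hG, EE_I1_empty, mul_zero]
      exact hRHS
  · intro E A i hi ht ih1 ih2 Z
    have hHo : EE E q (I1 (HH N E0 y E A Z)) ≤
        EE (E.erase i) q (I1 (HH N E0 y (E.erase i) (A ∪ N i) Z)) :=
      EE_erase_le q0 q1 hi fun b ω h => HH_open b ω h
    have hHc : EE E q (I1 (HH N E0 y E A Z)) ≤
        EE (E.erase i) q (I1 (HH N E0 y (E.erase i) A (insert i Z))) :=
      EE_erase_le q0 q1 hi fun b ω h => HH_closed b ω h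
    have hG : EE E q (I1 (GG N F y E A)) =
        q * EE (E.erase i) q (I1 (GG N F y (E.erase i) (A ∪ N i))) +
        (1 - q) * EE (E.erase i) q (I1 (GG N F y (E.erase i) A)) := by
      rw [EE_split hi]
      congr 2
      · refine EE_congr fun ω => ?_
        rw [I1_upd]
        congr 1
        ext ω
        exact GG_open hi ht ω
      · refine EE_congr fun ω => ?_
        rw [I1_upd]
        congr 1
        ext ω
        exact GG_closed ω
    have hT : ∀ j, q * EE (E.erase i) q (I1 (TT N F y (E.erase i) (A ∪ N i) Z j)) +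
        (1 - q) * EE (E.erase i) q (I1 (TT N F y (E.erase i) A (insert i Z) j)) ≤
        EE E q (I1 (TT N F y E A Z j)) := by
      intro j
      rw [EE_split hi]
      have t1 : EE (E.erase i) q (I1 (TT N F y (E.erase i) (A ∪ N i) Z j)) ≤
          EE (E.erase i) q (fun ω => I1 (TT N F y E A Z j) (upd i true ω)) := by
        refine EE_mono q0 q1 fun ω => ?_
        by_cases h : ω ∈ TT N F y (E.erase i) (A ∪ N i) Z j
        · rw [I1_mem h, I1_mem (TT_open hi ht ω h)]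
        · rw [I1_not h]; exact I1_nonneg _ _
      have t0 : EE (E.erase i) q (I1 (TT N F y (E.erase i) A (insert i Z) j)) ≤
          EE (E.erase i) q (fun ω => I1 (TT N F y E A Z j) (upd i false ω)) := by
        refine EE_mono q0 q1 fun ω => ?_
        by_cases h : ω ∈ TT N F y (E.erase i) A (insert i Z) j
        · rw [I1_mem h, I1_mem (TT_closed hi ht ω h)]
        · rw [I1_not h]; exact I1_nonneg _ _
      have t2 := mul_le_mul_of_nonneg_left t1 q0
      have t3 := mul_le_mul_of_nonneg_left t0 (by linarith : (0 : ℝ) ≤ 1 - q)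
      linarith
    have hsum := Finset.sum_le_sum fun j (_ : j ∈ E0) => hT j
    rw [Finset.sum_add_distrib, ← Finset.mul_sum, ← Finset.mul_sum] at hsum
    have i1 := mul_le_mul_of_nonneg_left (ih1 Z) q0
    have i2 := mul_le_mul_of_nonneg_left (ih2 (insert i Z)) (by linarith : (0 : ℝ) ≤ 1 - q)
    have g1 : 0 ≤ EE (E.erase i) q (I1 (GG N F y (E.erase i) (A ∪ N i))) := EE_I1_nonneg q0 q1 _
    have g0 : 0 ≤ EE (E.erase i) q (I1 (GG N F y (E.erase i) A)) := EE_I1_nonneg q0 q1 _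
    have j1 := mul_le_mul_of_nonneg_right hHo g1
    have j0 := mul_le_mul_of_nonneg_right hHc g0
    have j1' := mul_le_mul_of_nonneg_left j1 q0
    have j0' := mul_le_mul_of_nonneg_left j0 (by linarith : (0 : ℝ) ≤ 1 - q)
    rw [hG]
    nlinarith

/-- the gluing inequality -/
theorem glue (N : ι → Set V) (q : NNReal) (hq : q ≤ 1) (F : Set V) (x y : V) {E0 E : Finset ι}
    (hE : E0 ⊆ E) :
    (bm ι q hq).real {ω | Con N E0 ω x y} *
      (bm ι q hq).real {ω | x ∈ cl N E ω F ∧ y ∈ cl N E ω F ∧ ¬ Con N E ω x y} ≤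
      ∑ j ∈ E0, (bm ι q hq).real (TW N E F j) := by
  classical
  have q0 : (0 : ℝ) ≤ q := q.2
  have q1 : (q : ℝ) ≤ 1 := by exact_mod_cast hq
  have h := glue_aux N q hq F y E0 E {x} ∅
  have e1 : (bm ι q hq).real {ω | Con N E0 ω x y} = EE E q (I1 (HH N E0 y E {x} ∅)) := by
    have hs : {ω | Con N E0 ω x y} = HH N E0 y E {x} ∅ := by
      ext ω
      unfold HH UZ
      simp only [mem_setOf_eq, mem_empty_iff_false, false_and, exists_false, setOf_false,
        union_empty]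
      rw [Finset.inter_eq_right.2 hE]
      constructor
      · intro h'; exact ⟨x, rfl, h'⟩
      · rintro ⟨x', hx', h'⟩
        have hx'' : x' = x := hx'
        rw [hx''] at h'
        exact h'
    have hd : DepOn (E : Set ι) {ω | Con N E0 ω x y} :=
      (depOn_con N E0 x y).mono (by exact_mod_cast hE)
    rw [bm_real_eq_EE q hq hd, hs]
  have e2s : {ω | x ∈ cl N E ω F ∧ y ∈ cl N E ω F ∧ ¬ Con N E ω x y} = GG N F y E {x} := by
    ext ω
    unfold GG
    simp only [mem_setOf_eq]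
    constructor
    · rintro ⟨⟨f, hf, h1⟩, h2, h3⟩
      refine ⟨⟨f, ⟨x, rfl, h1.symm⟩, hf⟩, h2, ?_⟩
      rintro ⟨_, rfl, h4⟩
      exact h3 h4
    · rintro ⟨⟨f, ⟨_, rfl, h1⟩, hf⟩, h2, h3⟩
      exact ⟨⟨f, hf, h1.symm⟩, h2, fun h4 => h3 ⟨_, rfl, h4⟩⟩
  have dG : DepOn (E : Set ι) (GG N F y E {x}) := by
    intro ω ω' h
    unfold GG
    simp only [mem_setOf_eq]
    rw [cl_congr (fun i hi => h i hi), cl_congr (ω := ω) (ω' := ω') (fun i hi => h i hi) F]
  have e2 : (bm ι q hq).real {ω | x ∈ cl N E ω F ∧ y ∈ cl N E ω F ∧ ¬ Con N E ω x y} =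
      EE E q (I1 (GG N F y E {x})) := by
    rw [e2s, bm_real_eq_EE q hq dG]
  rw [e1, e2]
  refine h.trans (Finset.sum_le_sum fun j _ => ?_)
  have dT : DepOn (E : Set ι) (TW N E F j) := by
    intro ω ω' h
    unfold TW
    simp only [mem_setOf_eq]
    rw [cl_congr (fun i hi => h i hi), con_congr (fun i hi => h i hi)]
  rw [bm_real_eq_EE q hq dT]
  refine EE_I1_mono q0 q1 ?_
  rintro ω ⟨h1, ⟨w, hw, h2⟩, ⟨a, ⟨_, rfl, h3⟩, haF⟩, h4, h5⟩
  rcases h1 with h1 | ⟨_, _, ⟨v, hv, _, rfl, h6⟩⟩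
  · exact absurd h1 (by simp)
  · obtain ⟨f, hf, h7⟩ := h4
    refine ⟨v, hv, w, hw, ⟨a, haF, h3.symm.trans h6⟩, ⟨f, hf, h7.trans h2.symm⟩, ?_⟩
    intro h8
    exact h5 ⟨_, rfl, h6.trans (h8.trans h2)⟩

end glue

end Pool.Agent.W804.HP
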