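import Mathlib

/-!
# Boxes in the lattice
-/

set_option autoImplicit false
set_option linter.all false
set_option linter.deprecated false

open Set

namespace Pool.Agent.W804.HP

variable {d : ℕ}

/-- the box of radius `r` about `z` -/
noncomputable def bx (z : Fin d → ℤ) (r : ℕ) : Finset (Fin d → ℤ) :=
  Finset.Icc (fun i => z i - r) (fun i => z i + r)

lemma mem_bx {z x : Fin d → ℤ} {r : ℕ} : x ∈ bx z r ↔ ∀ i, |x i - z i| ≤ r := by
  unfold bx
  rw [Finset.mem_Icc, Pi.le_def, Pi.le_def]
  constructor
  · rintro ⟨h1, h2⟩ i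
    have := h1 i
    have := h2 i
    rw [abs_le]; constructor <;> linarith
  · intro h
    constructor
    · intro i
      have := (abs_le.1 (h i)).1
      show z i - r ≤ x i
      linarith
    · intro i
      have := (abs_le.1 (h i)).2
      show x i ≤ z i + r
      linarith

lemma card_bx (z : Fin d → ℤ) (r : ℕ) : (bx z r).card = (2 * r + 1) ^ d := by
  unfold bx
  rw [Pi.card_Icc]
  have : ∀ i ∈ (Finset.univ : Finset (Fin d)), (Finset.Icc (z i - r) (z i + r)).card = 2 * r + 1 := by
    intro i _
    rw [Int.card_Icc]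
    omega
  rw [Finset.prod_congr rfl this, Finset.prod_const, Finset.card_univ, Fintype.card_fin]

lemma self_mem_bx (z : Fin d → ℤ) (r : ℕ) : z ∈ bx z r := by
  rw [mem_bx]; intro i; simp

/-- the sites of the box at distance exactly `r` from the centre -/
noncomputable def sph (z : Fin d → ℤ) (r : ℕ) : Finset (Fin d → ℤ) :=
  (bx z r).filter (fun x => ∃ i, |x i - z i| = r)

lemma mem_sph {z x : Fin d → ℤ} {r : ℕ} : x ∈ sph z r ↔ x ∈ bx z r ∧ ∃ i, |x i - z i| = r := by
  unfold sph
  rw [Finset.mem_filter]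

/-- a face of the box -/
noncomputable def face (z : Fin d → ℤ) (r : ℕ) (j : Fin d) (s : ℤ) : Finset (Fin d → ℤ) :=
  (bx z r).filter (fun x => x j = z j + s)

lemma mem_face {z x : Fin d → ℤ} {r : ℕ} {j : Fin d} {s : ℤ} :
    x ∈ face z r j s ↔ x ∈ bx z r ∧ x j = z j + s := by
  unfold face
  rw [Finset.mem_filter]

lemma card_face_le (z : Fin d → ℤ) (r : ℕ) (j : Fin d) (s : ℤ) :
    (face z r j s).card ≤ (2 * r + 1) ^ (d - 1) := by
  have hsub : face z r j s ⊆ Finset.Icc (Function.update (fun i => z i - r) j (z j + s))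
      (Function.update (fun i => z i + r) j (z j + s)) := by
    intro x hx
    rw [mem_face, mem_bx] at hx
    rw [Finset.mem_Icc, Pi.le_def, Pi.le_def]
    constructor
    · intro i
      by_cases hi : i = j
      · subst hi; rw [Function.update_self]; exact hx.2.ge
      · rw [Function.update_of_ne hi]
        have := (abs_le.1 (hx.1 i)).1
        linarith
    · intro i
      by_cases hi : i = j
      · subst hi; rw [Function.update_self]; exact hx.2.le
      · rw [Function.update_of_ne hi]
        have := (abs_le.1 (hx.1 i)).2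
        linarith
  refine (Finset.card_le_card hsub).trans ?_
  rw [Pi.card_Icc]
  rw [← Finset.mul_prod_erase Finset.univ _ (Finset.mem_univ j)]
  rw [Function.update_self, Function.update_self, Int.card_Icc]
  have h1 : ∀ i ∈ Finset.univ.erase j, (Finset.Icc (Function.update (fun i => z i - (r : ℤ)) j (z j + s) i)
      (Function.update (fun i => z i + (r : ℤ)) j (z j + s) i)).card = 2 * r + 1 := by
    intro i hi
    have hij := Finset.ne_of_mem_erase hi
    rw [Function.update_of_ne hij, Function.update_of_ne hij, Int.card_Icc]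
    omega
  rw [Finset.prod_congr rfl h1, Finset.prod_const, Finset.card_erase_of_mem (Finset.mem_univ j),
    Finset.card_univ, Fintype.card_fin]
  have : (z j + s + 1 - (z j + s)).toNat = 1 := by
    have : z j + s + 1 - (z j + s) = 1 := by ring
    rw [this]; rfl
  rw [this, one_mul]

lemma sph_subset (z : Fin d → ℤ) (r : ℕ) :
    sph z r ⊆ Finset.univ.biUnion (fun j => face z r j r ∪ face z r j (-r)) := by
  intro x hx
  rw [mem_sph] at hx
  obtain ⟨h1, i, h2⟩ := hx
  rw [Finset.mem_biUnion]
  refine ⟨i, Finset.mem_univ _, ?_⟩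
  rw [Finset.mem_union, mem_face, mem_face]
  rcases abs_eq (by positivity : (0 : ℤ) ≤ (r : ℤ)) |>.1 h2 with h | h
  · left; exact ⟨h1, by linarith⟩
  · right; exact ⟨h1, by linarith⟩

lemma card_sph_le (z : Fin d → ℤ) (r : ℕ) : (sph z r).card ≤ 2 * d * (2 * r + 1) ^ (d - 1) := by
  refine (Finset.card_le_card (sph_subset z r)).trans ?_
  refine Finset.card_biUnion_le.trans ?_
  have : ∀ j ∈ (Finset.univ : Finset (Fin d)), (face z r j r ∪ face z r j (-r)).card ≤
      2 * (2 * r + 1) ^ (d - 1) := by
    intro j _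
    refine (Finset.card_union_le _ _).trans ?_
    have h1 := card_face_le z r j r
    have h2 := card_face_le z r j (-r)
    omega
  refine (Finset.sum_le_sum this).trans ?_
  rw [Finset.sum_const, Finset.card_univ, Fintype.card_fin, smul_eq_mul]
  have : d * (2 * (2 * r + 1) ^ (d - 1)) = 2 * d * (2 * r + 1) ^ (d - 1) := by ring
  omega

/-- box inclusion in terms of centres -/
lemma bx_subset {z z' : Fin d → ℤ} {r r' : ℕ} (h : ∀ i, |z i - z' i| + r ≤ r') :
    bx z r ⊆ bx z' r' := by
  intro x hx
  rw [mem_bx] at *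
  intro i
  have h1 := hx i
  have h2 := h i
  have h3 := abs_sub_le (x i) (z i) (z' i)
  linarith

lemma bx_mono (z : Fin d → ℤ) {r r' : ℕ} (h : r ≤ r') : bx z r ⊆ bx z r' := by
  refine bx_subset fun i => ?_
  simp
  exact h

/-- unit vector -/
def ev (i : Fin d) : Fin d → ℤ := Pi.single i 1

lemma ev_self (i : Fin d) : ev i i = 1 := by simp [ev]
lemma ev_ne {i j : Fin d} (h : j ≠ i) : ev i j = 0 := by simp [ev, h]

/-- the lattice graph -/
def lat (d : ℕ) : SimpleGraph (Fin d → ℤ) where
  Adj x y := ∑ i, |x i - y i| = 1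
  symm := ⟨fun x y h => by
    rw [← h]
    refine Finset.sum_congr rfl fun i _ => ?_
    rw [abs_sub_comm]⟩
  loopless := ⟨fun x h => by simp at h⟩

lemma lat_adj_ev (x : Fin d → ℤ) (i : Fin d) : (lat d).Adj x (x + ev i) := by
  show ∑ j, |x j - (x + ev i) j| = 1
  rw [Finset.sum_eq_single i]
  · simp [ev]
  · intro j _ hj
    simp [ev, hj]
  · intro h; exact absurd (Finset.mem_univ i) h

lemma lat_adj_iff {x y : Fin d → ℤ} : (lat d).Adj x y ↔ ∃ i, y = x + ev i ∨ x = y + ev i := by
  constructor
  · intro h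
    have h' : ∑ i, |x i - y i| = 1 := h
    have hex : ∃ i, x i ≠ y i := by
      by_contra hcon
      push Not at hcon
      rw [Finset.sum_eq_zero (fun i _ => by rw [hcon i]; simp)] at h'
      exact absurd h' (by norm_num)
    obtain ⟨i, hi⟩ := hex
    rw [← Finset.add_sum_erase Finset.univ _ (Finset.mem_univ i)] at h'
    have h1 : 1 ≤ |x i - y i| := by
      have : x i - y i ≠ 0 := sub_ne_zero.2 hi
      exact Int.one_le_abs this
    have h2 : 0 ≤ ∑ j ∈ Finset.univ.erase i, |x j - y j| := Finset.sum_nonneg fun j _ => abs_nonneg _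
    have h3 : ∑ j ∈ Finset.univ.erase i, |x j - y j| = 0 := by linarith
    have h4 : |x i - y i| = 1 := by linarith
    have h5 : ∀ j, j ≠ i → x j = y j := by
      intro j hj
      have := (Finset.sum_eq_zero_iff_of_nonneg (fun j _ => abs_nonneg (x j - y j))).1 h3 j
        (Finset.mem_erase.2 ⟨hj, Finset.mem_univ j⟩)
      rw [abs_eq_zero] at this
      linarith
    refine ⟨i, ?_⟩
    rcases abs_eq (by norm_num : (0 : ℤ) ≤ 1) |>.1 h4 with h6 | h6
    · right
      funext j
      by_cases hj : j = i
      · subst hj; simp [ev]; linarith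
      · simp [ev, hj, h5 j hj]
    · left
      funext j
      by_cases hj : j = i
      · subst hj; simp [ev]; linarith
      · simp [ev, hj, h5 j hj]
  · rintro ⟨i, rfl | rfl⟩
    · exact lat_adj_ev x i
    · exact (lat_adj_ev y i).symm

/-- adjacent sites: distance at most one in every coordinate -/
lemma adj_abs_le {x y : Fin d → ℤ} (h : (lat d).Adj x y) (i : Fin d) : |x i - y i| ≤ 1 := by
  have h' : ∑ i, |x i - y i| = 1 := h
  rw [← h']
  exact Finset.single_le_sum (f := fun i => |x i - y i|) (fun j _ => abs_nonneg _) (Finset.mem_univ i)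

lemma adj_mem_bx {x y z : Fin d → ℤ} {r : ℕ} (h : (lat d).Adj x y) (hx : x ∈ bx z r)
    (hs : x ∉ sph z r) : y ∈ bx z r := by
  rw [mem_bx] at *
  intro i
  have h1 := hx i
  have h2 : |x i - z i| ≠ r := by
    intro h3
    exact hs (mem_sph.2 ⟨mem_bx.2 hx, i, h3⟩)
  have h3 := adj_abs_le h i
  have h4 : |x i - z i| ≤ r - 1 := by
    have := lt_of_le_of_ne h1 h2
    linarith [Int.add_one_le_iff.2 this]
  rw [abs_le] at *
  constructor <;> linarith [h3.1, h3.2, h4.1, h4.2]

/-- if a box contains another one, the boundary of the large box meets the small box only on its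
boundary -/
lemma sph_of_subset {z z' x : Fin d → ℤ} {r r' : ℕ} (h : bx z r ⊆ bx z' r') (hx : x ∈ bx z r)
    (hs : x ∈ sph z' r') : x ∈ sph z r := by
  rw [mem_sph] at *
  obtain ⟨_, i, hi⟩ := hs
  refine ⟨hx, i, ?_⟩
  rw [mem_bx] at hx
  have hxi := hx i
  -- the two extreme points of the small box in direction `i`
  have a1 : Function.update z i (z i + r) ∈ bx z' r' := h (by
    rw [mem_bx]
    intro j
    by_cases hj : j = i
    · subst hj; rw [Function.update_self]; simp
    · rw [Function.update_of_ne hj]; simp)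
  have a2 : Function.update z i (z i - r) ∈ bx z' r' := h (by
    rw [mem_bx]
    intro j
    by_cases hj : j = i
    · subst hj; rw [Function.update_self]; simp
    · rw [Function.update_of_ne hj]; simp)
  rw [mem_bx] at a1 a2
  have b1 := a1 i
  have b2 := a2 i
  rw [Function.update_self] at b1 b2
  rw [abs_le] at b1 b2 hxi
  rcases abs_cases (x i - z' i) with ⟨h1, h2⟩ | ⟨h1, h2⟩
  · rw [h1] at hi
    have : x i - z i = r := by linarith [b1.1, b1.2, b2.1, b2.2, hxi.1, hxi.2]
    rw [this]; simp
  · rw [h1] at hi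
    have : x i - z i = -r := by linarith [b1.1, b1.2, b2.1, b2.2, hxi.1, hxi.2]
    rw [this]; simp

end Pool.Agent.W804.HP
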