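import Pool.Agent.W804.HP.Glue
import Pool.Agent.W804.HP.Lat

/-!
# Periodic hyperedge percolation on the lattice: the two-arm bound and gluing
-/

set_option autoImplicit false
set_option linter.all false
set_option linter.deprecated false

open MeasureTheory Set Pool.Agent.H978R2

namespace Pool.Agent.W804.HP

/-- relabelled configuration -/
def rel {ι : Type*} (σ : ι ≃ ι) (ω : ι → Bool) : ι → Bool := fun i => ω (σ i)

lemma rel_measurable {ι : Type*} (σ : ι ≃ ι) : Measurable (rel σ : (ι → Bool) → ι → Bool) := by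
  rw [measurable_pi_iff]; intro i; exact measurable_pi_apply _

lemma bm_rel {ι : Type*} (q : NNReal) (hq : q ≤ 1) (σ : ι ≃ ι) {A : Set (ι → Bool)}
    (hA : MeasurableSet A) : (bm ι q hq).real {ω | rel σ ω ∈ A} = (bm ι q hq).real A := by
  have h : (bm ι q hq).map (rel σ) = bm ι q hq := map_comp_inj q hq (σ : ι → ι) σ.injective
  unfold Measure.real
  congr 1
  conv_rhs => rw [← h]
  rw [Measure.map_apply (rel_measurable σ) hA]
  rfl

lemma rel_con {ι V : Type*} {N : ι → Set V} {σ : ι ≃ ι} {τ : V ≃ V}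
    (hN : ∀ i, N (σ i) = τ '' N i) {E : Finset ι} {ω : ι → Bool} {u v : V} :
    Con N (E.map σ.toEmbedding) ω (τ u) (τ v) ↔ Con N E (rel σ ω) u v := by
  have key : ∀ a b : V, Rel N (E.map σ.toEmbedding) ω (τ a) (τ b) ↔ Rel N E (rel σ ω) a b := by
    intro a b
    unfold Rel
    constructor
    · rintro ⟨i, hi, ho, ha, hb⟩
      rw [Finset.mem_map] at hi
      obtain ⟨j, hj, rfl⟩ := hi
      refine ⟨j, hj, ho, ?_, ?_⟩
      · have : τ a ∈ N (σ j) := ha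
        rw [hN] at this
        exact (Function.Injective.mem_set_image τ.injective).1 this
      · have : τ b ∈ N (σ j) := hb
        rw [hN] at this
        exact (Function.Injective.mem_set_image τ.injective).1 this
    · rintro ⟨j, hj, ho, ha, hb⟩
      refine ⟨σ j, Finset.mem_map.2 ⟨j, hj, rfl⟩, ho, ?_, ?_⟩
      · rw [hN]; exact mem_image_of_mem _ ha
      · rw [hN]; exact mem_image_of_mem _ hb
  constructor
  · intro h
    have aux : ∀ w, Con N (E.map σ.toEmbedding) ω (τ u) w → Con N E (rel σ ω) u (τ.symm w) := by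
      intro w hw
      induction hw with
      | refl => rw [Equiv.symm_apply_apply]; exact Con.refl _ _ _ _
      | @tail b c _ hbc ih =>
        refine ih.trans (Con.single ?_)
        rw [← key, Equiv.apply_symm_apply, Equiv.apply_symm_apply]
        exact hbc
    have := aux _ h
    rwa [Equiv.symm_apply_apply] at this
  · intro h
    induction h with
    | refl => exact Con.refl _ _ _ _
    | tail _ hbc ih => exact ih.trans (Con.single ((key _ _).2 hbc))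

lemma rel_cl {ι V : Type*} {N : ι → Set V} {σ : ι ≃ ι} {τ : V ≃ V}
    (hN : ∀ i, N (σ i) = τ '' N i) {E : Finset ι} {ω : ι → Bool} {A : Set V} {v : V} :
    τ v ∈ cl N (E.map σ.toEmbedding) ω (τ '' A) ↔ v ∈ cl N E (rel σ ω) A := by
  unfold cl
  constructor
  · rintro ⟨_, ⟨a, ha, rfl⟩, h⟩
    exact ⟨a, ha, (rel_con hN).1 h⟩
  · rintro ⟨a, ha, h⟩
    exact ⟨τ a, mem_image_of_mem _ ha, (rel_con hN).2 h⟩

lemma rel_TW {ι V : Type*} {N : ι → Set V} {σ : ι ≃ ι} {τ : V ≃ V}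
    (hN : ∀ i, N (σ i) = τ '' N i) {E : Finset ι} {F : Set V} {i : ι} :
    TW N (E.map σ.toEmbedding) (τ '' F) (σ i) = {ω | rel σ ω ∈ TW N E F i} := by
  ext ω
  unfold TW
  simp only [mem_setOf_eq]
  constructor
  · rintro ⟨x, hx, y, hy, h1, h2, h3⟩
    rw [hN] at hx hy
    obtain ⟨x', hx', rfl⟩ := hx
    obtain ⟨y', hy', rfl⟩ := hy
    exact ⟨x', hx', y', hy', (rel_cl hN).1 h1, (rel_cl hN).1 h2, fun h => h3 ((rel_con hN).2 h)⟩
  · rintro ⟨x, hx, y, hy, h1, h2, h3⟩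
    refine ⟨τ x, ?_, τ y, ?_, (rel_cl hN).2 h1, (rel_cl hN).2 h2, fun h => h3 ((rel_con hN).1 h)⟩
    · rw [hN]; exact mem_image_of_mem _ hx
    · rw [hN]; exact mem_image_of_mem _ hy

lemma depOn_TW {ι V : Type*} (N : ι → Set V) (E : Finset ι) (F : Set V) (j : ι) :
    DepOn (E : Set ι) (TW N E F j) := by
  intro ω ω' h
  unfold TW
  simp only [mem_setOf_eq]
  rw [cl_congr (fun i hi => h i hi), con_congr (fun i hi => h i hi)]

/-- a periodic hypergraph on the lattice -/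
structure HLat (d : ℕ) (ι V : Type) where
  N : ι → Set V
  E : (Fin d → ℤ) → ℕ → Finset ι
  F : (Fin d → ℤ) → ℕ → Finset V
  reg : (Fin d → ℤ) → ℕ → Set V
  D : ℕ
  hD : ∀ i, ∃ s : Finset V, s.card ≤ D ∧ N i ⊆ (s : Set V)
  κ : Type
  b : κ → ι
  tI : (Fin d → ℤ) → ι ≃ ι
  tV : (Fin d → ℤ) → V ≃ V
  N_t : ∀ z i, N (tI z i) = tV z '' N i
  E_t : ∀ z r, E z r = (E 0 r).map (tI z).toEmbedding
  F_t : ∀ z r, (F z r : Set V) = tV z '' (F 0 r)
  E_mono : ∀ z r z' r', bx z r ⊆ bx z' r' → E z r ⊆ E z' r'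
  reg_N : ∀ z r i, i ∈ E z r → N i ⊆ reg z r
  exit : ∀ z r z' r' ω u f, bx z r ⊆ bx z' r' → u ∈ reg z r → f ∈ F z' r' →
    Con N (E z' r') ω u f → ∃ f' ∈ F z r, Con N (E z r) ω u f'
  cover : ∀ r i, i ∈ E 0 r → ∃ x ∈ bx 0 r, ∃ t, i = tI x (b t)
  inj : ∀ t x y, tI x (b t) = tI y (b t) → x = y
  memE : ∀ t x, tI x (b t) ∈ E x 1
  cE : ℕ
  cF : ℕ
  card_E : ∀ r, (E 0 r).card ≤ cE * (2 * r + 1) ^ d
  card_F : ∀ r, (F 0 r).card ≤ cF * (2 * r + 1) ^ (d - 1)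

namespace HLat

variable {d : ℕ} {ι V : Type} (H : HLat d ι V)

lemma TW_anti {z z' : Fin d → ℤ} {r r' : ℕ} {i : ι} (h : bx z r ⊆ bx z' r') (hi : i ∈ H.E z r) :
    TW H.N (H.E z' r') (H.F z' r') i ⊆ TW H.N (H.E z r) (H.F z r) i := by
  rintro ω ⟨x, hx, y, hy, ⟨f, hf, h1⟩, ⟨g, hg, h2⟩, h3⟩
  obtain ⟨f', hf', h1'⟩ := H.exit z r z' r' ω x f h (H.reg_N z r i hi hx) hf h1.symm
  obtain ⟨g', hg', h2'⟩ := H.exit z r z' r' ω y g h (H.reg_N z r i hi hy) hg h2.symm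
  exact ⟨x, hx, y, hy, ⟨f', hf', h1'.symm⟩, ⟨g', hg', h2'.symm⟩,
    fun h4 => h3 (h4.mono (H.E_mono _ _ _ _ h) le_rfl)⟩

/-- the two-arm probability -/
noncomputable def al (q : NNReal) (hq : q ≤ 1) (t : H.κ) (r : ℕ) : ℝ :=
  (bm ι q hq).real (TW H.N (H.E 0 r) (H.F 0 r) (H.b t))

lemma al_eq (q : NNReal) (hq : q ≤ 1) (t : H.κ) (x : Fin d → ℤ) (r : ℕ) :
    (bm ι q hq).real (TW H.N (H.E x r) (H.F x r) (H.tI x (H.b t))) = H.al q hq t r := by
  unfold al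
  rw [H.E_t x r, H.F_t x r, rel_TW (H.N_t x),
    bm_rel q hq _ (depOn_TW H.N (H.E 0 r) (H.F 0 r) (H.b t)).measurable_fin]

lemma al_anti (q : NNReal) (hq : q ≤ 1) (t : H.κ) {r r' : ℕ} (h0 : 1 ≤ r) (h : r ≤ r') :
    H.al q hq t r' ≤ H.al q hq t r := by
  have h1 : H.tI 0 (H.b t) ∈ H.E 0 r := H.E_mono _ _ _ _ (bx_mono 0 h0) (H.memE t 0)
  rw [← H.al_eq q hq t 0 r', ← H.al_eq q hq t 0 r]
  exact measureReal_mono (H.TW_anti (bx_mono 0 h) h1) (measure_ne_top _ _)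

/-- average over translates -/
lemma al_bound_aux (q : NNReal) (hq : q ≤ 1) (hq0 : 0 < q) (hd : 1 ≤ d) (t : H.κ) (M : ℕ) :
    H.al q hq t (3 * M + 1) ≤
      ((H.cF + H.D * H.cE) * 3 ^ d / q) / Real.sqrt (4 * M + 3) := by
  classical
  have q0 : (0 : ℝ) < q := by exact_mod_cast hq0
  have q1 : (q : ℝ) ≤ 1 := by exact_mod_cast hq
  set R := 2 * M + 1 with hR
  set s : ℝ := Real.sqrt (4 * M + 3) with hs
  have hs1 : 1 ≤ s := by
    rw [hs, Real.one_le_sqrt]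
    have : (0 : ℝ) ≤ M := Nat.cast_nonneg M
    linarith
  have hs2 : s ^ 2 = 4 * M + 3 := by
    rw [hs]; exact Real.sq_sqrt (by positivity)
  have h1 := akn H.N (H.E 0 R) H.D (fun i _ => H.hD i) q (1 / s) q0.le q1 (by positivity)
    (by rw [div_le_one (by linarith)]; exact hs1) (H.F 0 R)
  -- lower bound of the sum
  have h2 : ((2 * M + 1 : ℕ) : ℝ) ^ d * H.al q hq t (3 * M + 1) ≤
      ∑ i ∈ H.E 0 R, EE (H.E 0 R) q (I1 (TW H.N (H.E 0 R) (H.F 0 R) i)) := by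
    set T := (bx (0 : Fin d → ℤ) M).image (fun x => H.tI x (H.b t)) with hT
    have hTsub : T ⊆ H.E 0 R := by
      intro i hi
      rw [hT, Finset.mem_image] at hi
      obtain ⟨x, hx, rfl⟩ := hi
      refine H.E_mono x 1 0 R (bx_subset fun i => ?_) (H.memE t x)
      have := mem_bx.1 hx i
      rw [hR]
      push_cast
      linarith
    have hTcard : T.card = (2 * M + 1) ^ d := by
      rw [hT, Finset.card_image_of_injective _ (fun x y h => H.inj t x y h), card_bx]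
    have h3 : ∀ i ∈ T, H.al q hq t (3 * M + 1) ≤
        EE (H.E 0 R) q (I1 (TW H.N (H.E 0 R) (H.F 0 R) i)) := by
      intro i hi
      have hiE := hTsub hi
      rw [hT, Finset.mem_image] at hi
      obtain ⟨x, hx, rfl⟩ := hi
      rw [← bm_real_eq_EE q hq (depOn_TW _ _ _ _), ← H.al_eq q hq t x]
      refine measureReal_mono (H.TW_anti (bx_subset fun i => ?_) hiE) (measure_ne_top _ _)
      have := mem_bx.1 hx i
      have h4 : |(0 : Fin d → ℤ) i - x i| = |x i - (0 : Fin d → ℤ) i| := abs_sub_comm _ _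
      rw [h4, hR]
      push_cast
      linarith
    have h4 : ∑ i ∈ T, EE (H.E 0 R) q (I1 (TW H.N (H.E 0 R) (H.F 0 R) i)) ≤
        ∑ i ∈ H.E 0 R, EE (H.E 0 R) q (I1 (TW H.N (H.E 0 R) (H.F 0 R) i)) :=
      Finset.sum_le_sum_of_subset_of_nonneg hTsub fun i _ _ => EE_I1_nonneg q0.le q1 _
    have h5 := Finset.sum_le_sum h3
    rw [Finset.sum_const, nsmul_eq_mul, hTcard] at h5
    push_cast at h5 ⊢
    linarith
  have hF : ((H.F 0 R).card : ℝ) ≤ H.cF * (4 * M + 3) ^ (d - 1) := by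
    have := H.card_F R
    have h6 : 2 * R + 1 = 4 * M + 3 := by omega
    rw [h6] at this
    exact_mod_cast this
  have hE : ((H.E 0 R).card : ℝ) ≤ H.cE * (4 * M + 3) ^ d := by
    have := H.card_E R
    have h6 : 2 * R + 1 = 4 * M + 3 := by omega
    rw [h6] at this
    exact_mod_cast this
  have hdd : (4 * (M : ℝ) + 3) ^ d = (4 * M + 3) ^ (d - 1) * s ^ 2 := by
    rw [hs2, ← pow_succ]
    congr 1
    omega
  have hRHS : ((H.F 0 R).card : ℝ) / (1 / s) + H.D * (1 / s) * (H.E 0 R).card ≤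
      (H.cF + H.D * H.cE) * (4 * M + 3) ^ d / s := by
    have e1 : ((H.F 0 R).card : ℝ) / (1 / s) = (H.F 0 R).card * s := by
      field_simp
    rw [e1]
    have e2 : ((H.F 0 R).card : ℝ) * s ≤ H.cF * (4 * M + 3) ^ (d - 1) * s :=
      mul_le_mul_of_nonneg_right hF (by linarith)
    have e3 : (H.D : ℝ) * (1 / s) * (H.E 0 R).card ≤ H.D * (1 / s) * (H.cE * (4 * M + 3) ^ d) :=
      mul_le_mul_of_nonneg_left hE (by positivity)
    have e4 : (H.cF + H.D * H.cE) * (4 * (M : ℝ) + 3) ^ d / s =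
        H.cF * (4 * M + 3) ^ (d - 1) * s + H.D * (1 / s) * (H.cE * (4 * M + 3) ^ d) := by
      have hs0 : s ≠ 0 := by linarith
      have : H.cF * (4 * (M : ℝ) + 3) ^ d / s = H.cF * (4 * M + 3) ^ (d - 1) * s := by
        rw [hdd]; field_simp
      rw [add_mul, add_div, this]
      field_simp
    linarith
  have h7 : (4 * (M : ℝ) + 3) ^ d ≤ 3 ^ d * ((2 * M + 1 : ℕ) : ℝ) ^ d := by
    rw [← mul_pow]
    refine pow_le_pow_left₀ (by positivity) ?_ d
    push_cast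
    have : (0 : ℝ) ≤ M := Nat.cast_nonneg M
    linarith
  have h8 : (q : ℝ) * (((2 * M + 1 : ℕ) : ℝ) ^ d * H.al q hq t (3 * M + 1)) ≤
      (H.cF + H.D * H.cE) * (3 ^ d * ((2 * M + 1 : ℕ) : ℝ) ^ d) / s := by
    have e1 := mul_le_mul_of_nonneg_left h2 q0.le
    have e2 : (H.cF + H.D * H.cE) * (4 * (M : ℝ) + 3) ^ d / s ≤
        (H.cF + H.D * H.cE) * (3 ^ d * ((2 * M + 1 : ℕ) : ℝ) ^ d) / s := by
      refine div_le_div_of_nonneg_right ?_ (by linarith)
      exact mul_le_mul_of_nonneg_left h7 (by positivity)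
    linarith
  have hpos : (0 : ℝ) < ((2 * M + 1 : ℕ) : ℝ) ^ d := by positivity
  have hs0 : 0 < s := by linarith
  rw [le_div_iff₀ hs0, le_div_iff₀ q0]
  have h9 : (q : ℝ) * (((2 * M + 1 : ℕ) : ℝ) ^ d * H.al q hq t (3 * M + 1)) * s ≤
      (H.cF + H.D * H.cE) * (3 ^ d * ((2 * M + 1 : ℕ) : ℝ) ^ d) := by
    rwa [le_div_iff₀ hs0] at h8
  have h10 : ((2 * M + 1 : ℕ) : ℝ) ^ d * (H.al q hq t (3 * M + 1) * s * q) ≤
      ((2 * M + 1 : ℕ) : ℝ) ^ d * ((H.cF + H.D * H.cE) * 3 ^ d) := by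
    calc ((2 * M + 1 : ℕ) : ℝ) ^ d * (H.al q hq t (3 * M + 1) * s * q)
        = (q : ℝ) * (((2 * M + 1 : ℕ) : ℝ) ^ d * H.al q hq t (3 * M + 1)) * s := by ring
      _ ≤ _ := h9
      _ = ((2 * M + 1 : ℕ) : ℝ) ^ d * ((H.cF + H.D * H.cE) * 3 ^ d) := by ring
  exact le_of_mul_le_mul_left h10 hpos

/-- constant of the two-arm bound -/
noncomputable def KA (q : NNReal) : ℝ := ((H.cF + H.D * H.cE) * 3 ^ d / q) * 2

lemma KA_nonneg (q : NNReal) : 0 ≤ H.KA q := by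
  unfold KA; positivity

lemma al_bound (q : NNReal) (hq : q ≤ 1) (hq0 : 0 < q) (hd : 1 ≤ d) (t : H.κ) (r : ℕ)
    (hr : 1 ≤ r) : H.al q hq t r ≤ H.KA q / Real.sqrt r := by
  set M := (r - 1) / 3 with hM
  have h1 : 3 * M + 1 ≤ r := by omega
  have h2 : r ≤ 3 * M + 3 := by omega
  refine (H.al_anti q hq t (by omega) h1).trans ?_
  refine (H.al_bound_aux q hq hq0 hd t M).trans ?_
  have hr0 : (0 : ℝ) < r := by exact_mod_cast hr
  have h3 : Real.sqrt r ≤ 2 * Real.sqrt (4 * M + 3) := by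
    have : Real.sqrt r ≤ Real.sqrt (2 ^ 2 * (4 * M + 3)) := by
      refine Real.sqrt_le_sqrt ?_
      have : (r : ℝ) ≤ 3 * M + 3 := by exact_mod_cast h2
      nlinarith [Nat.cast_nonneg (α := ℝ) M]
    rwa [Real.sqrt_mul (by norm_num), Real.sqrt_sq (by norm_num)] at this
  have hs : 0 < Real.sqrt (4 * (M : ℝ) + 3) := Real.sqrt_pos.2 (by positivity)
  have hsr : 0 < Real.sqrt (r : ℝ) := Real.sqrt_pos.2 hr0
  unfold KA
  rw [div_le_div_iff₀ hs hsr]
  have hc : (0 : ℝ) ≤ (H.cF + H.D * H.cE) * 3 ^ d / q := by positivity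
  nlinarith [mul_le_mul_of_nonneg_left h3 hc]

/-- the gluing lemma in boxes -/
theorem glue_box (q : NNReal) (hq : q ≤ 1) (hq0 : 0 < q) (hd : 1 ≤ d) (x y : V) {k n : ℕ}
    (hkn : k < n) :
    (bm ι q hq).real {ω | Con H.N (H.E 0 k) ω x y} *
      (bm ι q hq).real {ω | x ∈ cl H.N (H.E 0 n) ω (H.F 0 n) ∧ y ∈ cl H.N (H.E 0 n) ω (H.F 0 n) ∧
        ¬ Con H.N (H.E 0 n) ω x y} ≤
      (H.cE * (2 * k + 1) ^ d) * (H.KA q / Real.sqrt ((n - k : ℕ) : ℝ)) := by
  classical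
  have h1 := glue H.N q hq (H.F 0 n : Set V) x y (H.E_mono 0 k 0 n (bx_mono 0 hkn.le))
  refine h1.trans ?_
  have h2 : ∀ j ∈ H.E 0 k, (bm ι q hq).real (TW H.N (H.E 0 n) (H.F 0 n) j) ≤
      H.KA q / Real.sqrt ((n - k : ℕ) : ℝ) := by
    intro j hj
    obtain ⟨z, hz, t, rfl⟩ := H.cover k j hj
    refine le_trans ?_ (H.al_bound q hq hq0 hd t (n - k) (by omega))
    rw [← H.al_eq q hq t z]
    refine measureReal_mono (H.TW_anti (bx_subset fun i => ?_) ?_) (measure_ne_top _ _)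
    · have := mem_bx.1 hz i
      have h3 : ((n - k : ℕ) : ℤ) = (n : ℤ) - k := by omega
      rw [h3]
      linarith
    · exact H.E_mono _ _ _ _ (bx_mono z (by omega)) (H.memE t z)
  have h3 := Finset.sum_le_sum h2
  rw [Finset.sum_const, nsmul_eq_mul] at h3
  refine h3.trans ?_
  refine mul_le_mul_of_nonneg_right ?_ (div_nonneg (H.KA_nonneg q) (Real.sqrt_nonneg _))
  have := H.card_E k
  exact_mod_cast this

end HLat

end Pool.Agent.W804.HP
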