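import Pool.Agent.H978R2.FinE

/-!
# Percolation of hyperedges: clusters and exploration
-/

set_option autoImplicit false
set_option linter.all false
set_option linter.deprecated false

open MeasureTheory Set Pool.Agent.H978R2

namespace Pool.Agent.W804.HP

variable {ι V : Type*}

/-- `u` and `v` lie on a common open hyperedge of `E` -/
def Rel (N : ι → Set V) (E : Finset ι) (ω : ι → Bool) (u v : V) : Prop :=
  ∃ i ∈ E, ω i = true ∧ u ∈ N i ∧ v ∈ N i

/-- connected by open hyperedges of `E` -/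
def Con (N : ι → Set V) (E : Finset ι) (ω : ι → Bool) (u v : V) : Prop :=
  Relation.ReflTransGen (Rel N E ω) u v

/-- the union of the clusters of the points of `A` -/
def cl (N : ι → Set V) (E : Finset ι) (ω : ι → Bool) (A : Set V) : Set V :=
  {v | ∃ a ∈ A, Con N E ω a v}

/-- a hyperedge touches a set -/
def tch (N : ι → Set V) (i : ι) (S : Set V) : Prop := ∃ v ∈ N i, v ∈ S

lemma Rel.symm {N : ι → Set V} {E : Finset ι} {ω : ι → Bool} {u v : V} (h : Rel N E ω u v) :
    Rel N E ω v u := by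
  obtain ⟨i, hi, ho, hu, hv⟩ := h
  exact ⟨i, hi, ho, hv, hu⟩

lemma Con.refl (N : ι → Set V) (E : Finset ι) (ω : ι → Bool) (u : V) : Con N E ω u u :=
  Relation.ReflTransGen.refl

lemma Con.symm {N : ι → Set V} {E : Finset ι} {ω : ι → Bool} {u v : V} (h : Con N E ω u v) :
    Con N E ω v u := by
  induction h with
  | refl => exact Con.refl _ _ _ _
  | tail _ hbc ih => exact Relation.ReflTransGen.head hbc.symm ih

lemma Con.trans {N : ι → Set V} {E : Finset ι} {ω : ι → Bool} {u v w : V} (h : Con N E ω u v)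
    (h' : Con N E ω v w) : Con N E ω u w := Relation.ReflTransGen.trans h h'

lemma Con.single {N : ι → Set V} {E : Finset ι} {ω : ι → Bool} {u v : V} (h : Rel N E ω u v) :
    Con N E ω u v := Relation.ReflTransGen.single h

lemma rtg_mono {r p : V → V → Prop} (h : ∀ a b, r a b → p a b) {a b : V}
    (hr : Relation.ReflTransGen r a b) : Relation.ReflTransGen p a b := by
  induction hr with
  | refl => exact Relation.ReflTransGen.refl
  | tail _ hbc ih => exact ih.tail (h _ _ hbc)

lemma Rel.mono {N : ι → Set V} {E E' : Finset ι} {ω ω' : ι → Bool} {u v : V}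
    (hE : E ⊆ E') (hω : ω ≤ ω') (h : Rel N E ω u v) : Rel N E' ω' u v := by
  obtain ⟨i, hi, ho, hu, hv⟩ := h
  refine ⟨i, hE hi, ?_, hu, hv⟩
  have h1 := hω i
  rw [ho] at h1
  cases h2 : ω' i
  · rw [h2] at h1
    have h3 : (true : Bool) ≤ false := h1
    exact absurd h3 (by decide)
  · rfl

lemma Con.mono {N : ι → Set V} {E E' : Finset ι} {ω ω' : ι → Bool} {u v : V}
    (hE : E ⊆ E') (hω : ω ≤ ω') (h : Con N E ω u v) : Con N E' ω' u v :=
  rtg_mono (fun _ _ h => Rel.mono hE hω h) h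

lemma subset_cl (N : ι → Set V) (E : Finset ι) (ω : ι → Bool) (A : Set V) : A ⊆ cl N E ω A :=
  fun a ha => ⟨a, ha, Con.refl _ _ _ _⟩

lemma cl_mono {N : ι → Set V} {E E' : Finset ι} {ω ω' : ι → Bool} {A A' : Set V}
    (hE : E ⊆ E') (hω : ω ≤ ω') (hA : A ⊆ A') : cl N E ω A ⊆ cl N E' ω' A' := by
  rintro v ⟨a, ha, h⟩
  exact ⟨a, hA ha, h.mono hE hω⟩

lemma Rel.congr {N : ι → Set V} {E : Finset ι} {ω ω' : ι → Bool} {u v : V}
    (h : ∀ i ∈ E, ω i = ω' i) (hr : Rel N E ω u v) : Rel N E ω' u v := by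
  obtain ⟨i, hi, ho, hu, hv⟩ := hr
  exact ⟨i, hi, by rw [← h i hi]; exact ho, hu, hv⟩

lemma Con.congr {N : ι → Set V} {E : Finset ι} {ω ω' : ι → Bool} {u v : V}
    (h : ∀ i ∈ E, ω i = ω' i) (hr : Con N E ω u v) : Con N E ω' u v :=
  rtg_mono (fun _ _ h' => Rel.congr h h') hr

lemma con_congr {N : ι → Set V} {E : Finset ι} {ω ω' : ι → Bool}
    (h : ∀ i ∈ E, ω i = ω' i) : Con N E ω = Con N E ω' := by
  funext u v
  exact propext ⟨fun h' => h'.congr h, fun h' => h'.congr fun i hi => (h i hi).symm⟩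

lemma cl_congr {N : ι → Set V} {E : Finset ι} {ω ω' : ι → Bool}
    (h : ∀ i ∈ E, ω i = ω' i) (A : Set V) : cl N E ω A = cl N E ω' A := by
  unfold cl
  rw [con_congr h]

section dec
variable [DecidableEq ι]

lemma con_upd {N : ι → Set V} {E : Finset ι} {i : ι} (b : Bool) (ω : ι → Bool) :
    Con N (E.erase i) (upd i b ω) = Con N (E.erase i) ω :=
  con_congr fun _ hj => upd_ne (Finset.ne_of_mem_erase hj) b ω

lemma cl_upd {N : ι → Set V} {E : Finset ι} {i : ι} (b : Bool) (ω : ι → Bool) (A : Set V) :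
    cl N (E.erase i) (upd i b ω) A = cl N (E.erase i) ω A := by
  unfold cl
  rw [con_upd]

lemma cl_erase_subset {N : ι → Set V} {E : Finset ι} {ω : ι → Bool} {i : ι} {A : Set V} :
    cl N E ω A ⊆ cl N (E.erase i) ω (A ∪ N i) := by
  rintro v ⟨a, ha, h⟩
  induction h with
  | refl => exact subset_cl _ _ _ _ (Or.inl ha)
  | tail _ hbc ih =>
    obtain ⟨j, hj, ho, hb, hc⟩ := hbc
    by_cases hji : j = i
    · subst hji
      exact subset_cl _ _ _ _ (Or.inr hc)
    · obtain ⟨a', ha', h'⟩ := ih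
      exact ⟨a', ha', h'.trans (Con.single ⟨j, Finset.mem_erase.2 ⟨hji, hj⟩, ho, hb, hc⟩)⟩

lemma cl_open {N : ι → Set V} {E : Finset ι} {ω : ι → Bool} {i : ι} {A : Set V}
    (hi : i ∈ E) (ho : ω i = true) (ht : tch N i A) :
    cl N E ω A = cl N (E.erase i) ω (A ∪ N i) := by
  refine Subset.antisymm cl_erase_subset ?_
  rintro v ⟨a, ha, h⟩
  have h' : Con N E ω a v := h.mono (Finset.erase_subset _ _) le_rfl
  rcases ha with ha | ha
  · exact ⟨a, ha, h'⟩
  · obtain ⟨u, hu, huA⟩ := ht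
    exact ⟨u, huA, (Con.single ⟨i, hi, ho, hu, ha⟩).trans h'⟩

lemma con_closed {N : ι → Set V} {E : Finset ι} {ω : ι → Bool} {i : ι} (ho : ω i = false)
    {u v : V} : Con N E ω u v ↔ Con N (E.erase i) ω u v := by
  constructor
  · intro h
    refine rtg_mono ?_ h
    rintro b c ⟨j, hj, hjo, hb, hc⟩
    refine ⟨j, Finset.mem_erase.2 ⟨?_, hj⟩, hjo, hb, hc⟩
    rintro rfl
    rw [ho] at hjo
    exact absurd hjo (by simp)
  · intro h
    exact h.mono (Finset.erase_subset _ _) le_rfl

lemma cl_closed {N : ι → Set V} {E : Finset ι} {ω : ι → Bool} {i : ι} {A : Set V}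
    (ho : ω i = false) : cl N E ω A = cl N (E.erase i) ω A := by
  ext v
  constructor
  · rintro ⟨a, ha, h⟩; exact ⟨a, ha, (con_closed ho).1 h⟩
  · rintro ⟨a, ha, h⟩; exact ⟨a, ha, (con_closed ho).2 h⟩

/-- a point off the cluster of `A` does not use a hyperedge touching `A` -/
lemma con_avoid {N : ι → Set V} {E : Finset ι} {ω : ι → Bool} {i : ι} {A : Set V} {y z : V}
    (hi : i ∈ E) (ht : tch N i A) (hy : y ∉ cl N E ω A) (h : Con N E ω y z) :
    Con N (E.erase i) ω y z := by
  induction h with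
  | refl => exact Con.refl _ _ _ _
  | @tail b c hab hbc ih =>
    obtain ⟨j, hj, hjo, hb, hc⟩ := hbc
    by_cases hji : j = i
    · exfalso
      subst hji
      obtain ⟨u, hu, huA⟩ := ht
      refine hy ⟨u, huA, ?_⟩
      exact (Con.single ⟨j, hj, hjo, hu, hb⟩).trans (Con.symm hab)
    · exact ih.trans (Con.single ⟨j, Finset.mem_erase.2 ⟨hji, hj⟩, hjo, hb, hc⟩)

end dec

lemma cl_isolated {N : ι → Set V} {E : Finset ι} {ω : ι → Bool} {A : Set V}
    (h : ∀ i ∈ E, ¬ tch N i A) : cl N E ω A = A := by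
  refine Subset.antisymm ?_ (subset_cl _ _ _ _)
  rintro v ⟨a, ha, hr⟩
  induction hr with
  | refl => exact ha
  | tail _ hbc ih =>
    obtain ⟨j, hj, _, hb, _⟩ := hbc
    exact absurd ⟨_, hb, ih⟩ (h j hj)

/-- exploration induction -/
theorem expl_induction [DecidableEq ι] (N : ι → Set V) (Φ : Finset ι → Set V → Prop)
    (base : ∀ E A, (∀ i ∈ E, ¬ tch N i A) → Φ E A)
    (step : ∀ E A i, i ∈ E → tch N i A → Φ (E.erase i) (A ∪ N i) → Φ (E.erase i) A → Φ E A) :
    ∀ (E : Finset ι) (A : Set V), Φ E A := by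
  have key : ∀ n : ℕ, ∀ (E : Finset ι), E.card = n → ∀ A : Set V, Φ E A := by
    intro n
    induction n with
    | zero =>
      intro E hc A
      refine base E A fun i hi => ?_
      rw [Finset.card_eq_zero.1 hc] at hi
      exact absurd hi (Finset.notMem_empty _)
    | succ n ih =>
      intro E hc A
      by_cases h : ∀ i ∈ E, ¬ tch N i A
      · exact base E A h
      · push Not at h
        obtain ⟨i, hi, ht⟩ := h
        have hc' : (E.erase i).card = n := by
          rw [Finset.card_erase_of_mem hi, hc]; rfl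
        exact step E A i hi ht (ih _ hc' _) (ih _ hc' _)
  intro E A
  exact key _ E rfl A

/-- bit value -/
def bv (b : Bool) : ℝ := if b then 1 else 0

open Classical in
noncomputable def MM (N : ι → Set V) (E : Finset ι) (p : ℝ) (ω : ι → Bool) (S : Set V) : ℝ :=
  ∑ i ∈ E, if tch N i S then bv (ω i) - p else 0

open Classical in
noncomputable def NN (N : ι → Set V) (E : Finset ι) (S : Set V) : ℝ :=
  ∑ i ∈ E, if tch N i S then 1 else 0

lemma MM_step [DecidableEq ι] {N : ι → Set V} {E : Finset ι} {p : ℝ} {ω : ι → Bool} {S : Set V}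
    {i : ι} (hi : i ∈ E) (ht : tch N i S) (b : Bool) :
    MM N E p (upd i b ω) S = (bv b - p) + MM N (E.erase i) p ω S := by
  classical
  unfold MM
  rw [← Finset.insert_erase hi, Finset.sum_insert (by simp), if_pos ht, upd_self]
  congr 1
  rw [Finset.insert_erase hi]
  refine Finset.sum_congr rfl fun j hj => ?_
  rw [upd_ne (Finset.ne_of_mem_erase hj)]

lemma NN_step [DecidableEq ι] {N : ι → Set V} {E : Finset ι} {S : Set V}
    {i : ι} (hi : i ∈ E) (ht : tch N i S) :
    NN N E S = 1 + NN N (E.erase i) S := by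
  classical
  unfold NN
  rw [← Finset.insert_erase hi, Finset.sum_insert (by simp), if_pos ht]
  congr 1
  rw [Finset.insert_erase hi]

lemma exp_ineq (p lam : ℝ) (h0 : 0 ≤ p) (h1 : p ≤ 1) (hl0 : 0 ≤ lam) (hl1 : lam ≤ 1) :
    p * Real.exp (-lam * (1 - p) - lam ^ 2) + (1 - p) * Real.exp (lam * p - lam ^ 2) ≤ 1 := by
  have e1 : ∀ x : ℝ, |x| ≤ 1 → Real.exp x ≤ 1 + x + x ^ 2 := by
    intro x hx
    have := Real.abs_exp_sub_one_sub_id_le hx
    rw [abs_le] at this
    linarith
  have h2 : Real.exp (-lam * (1 - p)) ≤ 1 + (-lam * (1 - p)) + (-lam * (1 - p)) ^ 2 := by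
    refine e1 _ ?_
    rw [abs_le]
    constructor
    · nlinarith
    · nlinarith
  have h3 : Real.exp (lam * p) ≤ 1 + (lam * p) + (lam * p) ^ 2 := by
    refine e1 _ ?_
    rw [abs_le]
    constructor
    · nlinarith
    · nlinarith
  have h4 : 1 + lam ^ 2 ≤ Real.exp (lam ^ 2) := by
    have := Real.add_one_le_exp (lam ^ 2)
    linarith
  have e2 : Real.exp (-lam * (1 - p) - lam ^ 2) = Real.exp (-lam * (1 - p)) * Real.exp (-lam ^ 2) := by
    rw [← Real.exp_add]; ring_nf
  have e3 : Real.exp (lam * p - lam ^ 2) = Real.exp (lam * p) * Real.exp (-lam ^ 2) := by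
    rw [← Real.exp_add]; ring_nf
  have e4 : Real.exp (-lam ^ 2) * Real.exp (lam ^ 2) = 1 := by
    rw [← Real.exp_add]; simp
  have hpos : 0 < Real.exp (-lam ^ 2) := Real.exp_pos _
  rw [e2, e3]
  have h5 : p * Real.exp (-lam * (1 - p)) + (1 - p) * Real.exp (lam * p) ≤ Real.exp (lam ^ 2) := by
    have a1 := mul_le_mul_of_nonneg_left h2 h0
    have a2 := mul_le_mul_of_nonneg_left h3 (by linarith : 0 ≤ 1 - p)
    have h6 : p * (1 + (-lam * (1 - p)) + (-lam * (1 - p)) ^ 2) +
        (1 - p) * (1 + (lam * p) + (lam * p) ^ 2) = 1 + lam ^ 2 * (p * (1 - p)) := by ring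
    have h7 : lam ^ 2 * (p * (1 - p)) ≤ lam ^ 2 := by
      have : p * (1 - p) ≤ 1 := by nlinarith
      nlinarith [sq_nonneg lam]
    linarith
  calc p * (Real.exp (-lam * (1 - p)) * Real.exp (-lam ^ 2)) +
        (1 - p) * (Real.exp (lam * p) * Real.exp (-lam ^ 2))
      = (p * Real.exp (-lam * (1 - p)) + (1 - p) * Real.exp (lam * p)) * Real.exp (-lam ^ 2) := by
        ring
    _ ≤ Real.exp (lam ^ 2) * Real.exp (-lam ^ 2) := by
        exact mul_le_mul_of_nonneg_right h5 hpos.le
    _ = 1 := by rw [mul_comm]; exact e4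

lemma MM_isolated {N : ι → Set V} {E : Finset ι} {p : ℝ} {ω : ι → Bool} {A : Set V}
    (h : ∀ i ∈ E, ¬ tch N i A) : MM N E p ω A = 0 := by
  unfold MM
  exact Finset.sum_eq_zero fun i hi => if_neg (h i hi)

lemma NN_isolated {N : ι → Set V} {E : Finset ι} {A : Set V}
    (h : ∀ i ∈ E, ¬ tch N i A) : NN N E A = 0 := by
  unfold NN
  exact Finset.sum_eq_zero fun i hi => if_neg (h i hi)

/-- exponential moment bound for the exploration of a cluster -/
theorem exp_bound (N : ι → Set V) (p lam : ℝ) (h0 : 0 ≤ p) (h1 : p ≤ 1) (hl0 : 0 ≤ lam)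
    (hl1 : lam ≤ 1) (E : Finset ι) (A : Set V) :
    EE E p (fun ω => Real.exp (-lam * MM N E p ω (cl N E ω A) -
        lam ^ 2 * NN N E (cl N E ω A))) ≤ 1 := by
  classical
  refine expl_induction N (fun E A => EE E p (fun ω => Real.exp (-lam * MM N E p ω (cl N E ω A) -
        lam ^ 2 * NN N E (cl N E ω A))) ≤ 1) ?_ ?_ E A
  · intro E A h
    have : ∀ ω : ι → Bool, Real.exp (-lam * MM N E p ω (cl N E ω A) -
        lam ^ 2 * NN N E (cl N E ω A)) = 1 := by
      intro ω
      rw [cl_isolated h, MM_isolated h, NN_isolated h]; simp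
    rw [EE_congr this, EE_const]
  · intro E A i hi ht ih1 ih2
    have htc : ∀ (E' : Finset ι) (ω : ι → Bool) (A' : Set V), A ⊆ A' → tch N i (cl N E' ω A') := by
      intro E' ω A' hA
      obtain ⟨v, hv, hvA⟩ := ht
      exact ⟨v, hv, subset_cl _ _ _ _ (hA hvA)⟩
    rw [EE_split hi]
    have t1 : ∀ ω : ι → Bool, Real.exp (-lam * MM N E p (upd i true ω)
        (cl N E (upd i true ω) A) - lam ^ 2 * NN N E (cl N E (upd i true ω) A)) =
        Real.exp (-lam * (1 - p) - lam ^ 2) * Real.exp (-lam * MM N (E.erase i) p ω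
          (cl N (E.erase i) ω (A ∪ N i)) -
          lam ^ 2 * NN N (E.erase i) (cl N (E.erase i) ω (A ∪ N i))) := by
      intro ω
      rw [cl_open hi (upd_self _ _ _) ht, cl_upd]
      have ht' := htc (E.erase i) ω (A ∪ N i) subset_union_left
      rw [MM_step hi ht', NN_step hi ht', ← Real.exp_add]
      congr 1
      simp only [bv]
      ring_nf
      simp
    have t0 : ∀ ω : ι → Bool, Real.exp (-lam * MM N E p (upd i false ω)
        (cl N E (upd i false ω) A) - lam ^ 2 * NN N E (cl N E (upd i false ω) A)) =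
        Real.exp (lam * p - lam ^ 2) * Real.exp (-lam * MM N (E.erase i) p ω
          (cl N (E.erase i) ω A) -
          lam ^ 2 * NN N (E.erase i) (cl N (E.erase i) ω A)) := by
      intro ω
      rw [cl_closed (upd_self _ _ _), cl_upd]
      have ht' := htc (E.erase i) ω A subset_rfl
      rw [MM_step hi ht', NN_step hi ht', ← Real.exp_add]
      congr 1
      simp only [bv]
      ring_nf
      simp
    rw [EE_congr t1, EE_congr t0, EE_mul, EE_mul]
    have hp1 : 0 ≤ 1 - p := by linarith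
    have b1 := mul_le_mul_of_nonneg_left ih1 (Real.exp_pos (-lam * (1 - p) - lam ^ 2)).le
    have b0 := mul_le_mul_of_nonneg_left ih2 (Real.exp_pos (lam * p - lam ^ 2)).le
    have c1 := mul_le_mul_of_nonneg_left b1 h0
    have c0 := mul_le_mul_of_nonneg_left b0 hp1
    have := exp_ineq p lam h0 h1 hl0 hl1
    linarith

/-- the exploration martingale is centred -/
theorem mart_zero (N : ι → Set V) (p : ℝ) (E : Finset ι) (A : Set V) :
    EE E p (fun ω => MM N E p ω (cl N E ω A)) = 0 := by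
  classical
  refine expl_induction N (fun E A => EE E p (fun ω => MM N E p ω (cl N E ω A)) = 0) ?_ ?_ E A
  · intro E A h
    have : ∀ ω : ι → Bool, MM N E p ω (cl N E ω A) = 0 := by
      intro ω
      rw [cl_isolated h, MM_isolated h]
    rw [EE_congr this, EE_const]
  · intro E A i hi ht ih1 ih2
    have htc : ∀ (E' : Finset ι) (ω : ι → Bool) (A' : Set V), A ⊆ A' → tch N i (cl N E' ω A') := by
      intro E' ω A' hA
      obtain ⟨v, hv, hvA⟩ := ht
      exact ⟨v, hv, subset_cl _ _ _ _ (hA hvA)⟩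
    rw [EE_split hi]
    have t1 : ∀ ω : ι → Bool, MM N E p (upd i true ω) (cl N E (upd i true ω) A) =
        (1 - p) + MM N (E.erase i) p ω (cl N (E.erase i) ω (A ∪ N i)) := by
      intro ω
      rw [cl_open hi (upd_self _ _ _) ht, cl_upd]
      rw [MM_step hi (htc (E.erase i) ω (A ∪ N i) subset_union_left)]
      simp [bv]
    have t0 : ∀ ω : ι → Bool, MM N E p (upd i false ω) (cl N E (upd i false ω) A) =
        (-p) + MM N (E.erase i) p ω (cl N (E.erase i) ω A) := by
      intro ω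
      rw [cl_closed (upd_self _ _ _), cl_upd]
      rw [MM_step hi (htc (E.erase i) ω A subset_rfl)]
      simp [bv]
    rw [EE_congr t1, EE_congr t0, EE_add, EE_add, EE_const, EE_const, ih1, ih2]
    ring

end Pool.Agent.W804.HP
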