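import Pool.Agent.W804.HP.Chain

/-!
# Lattice isometries
-/

set_option autoImplicit false
set_option linter.all false
set_option linter.deprecated false

open MeasureTheory Set Pool.Agent.H978R2

namespace Pool.Agent.W804.HP

/-- the action on unordered pairs -/
def s2 {α : Type*} (σ : α ≃ α) : Sym2 α ≃ Sym2 α where
  toFun := Sym2.map σ
  invFun := Sym2.map σ.symm
  left_inv := fun e => by
    induction e using Sym2.ind with
    | _ x y => simp
  right_inv := fun e => by
    induction e using Sym2.ind with
    | _ x y => simp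

lemma s2_mk {α : Type*} (σ : α ≃ α) (x y : α) : s2 σ s(x, y) = s(σ x, σ y) := rfl

lemma mem_s2 {α : Type*} {σ : α ≃ α} {x : α} {e : Sym2 α} : σ x ∈ s2 σ e ↔ x ∈ e := by
  induction e using Sym2.ind with
  | _ a b =>
    rw [s2_mk, Sym2.mem_iff, Sym2.mem_iff, σ.injective.eq_iff, σ.injective.eq_iff]

/-- isometries of the lattice -/
structure Iso (d : ℕ) where
  σ : (Fin d → ℤ) ≃ (Fin d → ℤ)
  adj : ∀ x y, (lat d).Adj (σ x) (σ y) ↔ (lat d).Adj x y
  box : ∀ x z r, σ x ∈ bx (σ z) r ↔ x ∈ bx z r

/-- translation -/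
def isoT {d : ℕ} (w : Fin d → ℤ) : Iso d where
  σ := Equiv.addLeft w
  adj := fun x y => by
    show ∑ i, |(w + x) i - (w + y) i| = 1 ↔ ∑ i, |x i - y i| = 1
    have : ∀ i, (w + x) i - (w + y) i = x i - y i := fun i => by
      simp
    simp only [this]
  box := fun x z r => by
    rw [mem_bx, mem_bx]
    have : ∀ i, (Equiv.addLeft w x) i - (Equiv.addLeft w z) i = x i - z i := fun i => by
      simp
    simp only [this]

lemma rfl'_sub {d : ℕ} (j : Fin d) (a : ℤ) (x y : Fin d → ℤ) (i : Fin d) :
    |rfl' j a x i - rfl' j a y i| = |x i - y i| := by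
  unfold rfl'
  by_cases h : i = j
  · subst h
    rw [Function.update_self, Function.update_self, abs_sub_comm (x i) (y i)]
    congr 1
    ring
  · rw [Function.update_of_ne h, Function.update_of_ne h]

/-- reflection -/
def isoR {d : ℕ} (j : Fin d) (a : ℤ) : Iso d where
  σ := Function.Involutive.toPerm (rfl' j a) (CLat.rfl'_rfl' j a)
  adj := fun x y => by
    show ∑ i, |rfl' j a x i - rfl' j a y i| = 1 ↔ ∑ i, |x i - y i| = 1
    simp only [rfl'_sub]
  box := fun x z r => by
    rw [mem_bx, mem_bx]
    show (∀ i, |rfl' j a x i - rfl' j a z i| ≤ r) ↔ _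
    simp only [rfl'_sub]

/-- exchange of coordinates -/
def isoS {d : ℕ} (i j : Fin d) : Iso d where
  σ := Function.Involutive.toPerm (swp i j) (CLat.swp_swp i j)
  adj := fun x y => by
    show ∑ l, |x (Equiv.swap i j l) - y (Equiv.swap i j l)| = 1 ↔ ∑ i, |x i - y i| = 1
    rw [Equiv.sum_comp (Equiv.swap i j) (fun l => |x l - y l|)]
  box := fun x z r => by
    rw [mem_bx, mem_bx]
    show (∀ l, |x (Equiv.swap i j l) - z (Equiv.swap i j l)| ≤ r) ↔ _
    constructor
    · intro h l
      have := h (Equiv.swap i j l)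
      rwa [Equiv.swap_apply_self] at this
    · intro h l; exact h _

/-- transport of reachability -/
lemma rtg_equiv {V : Type*} {r r' : V → V → Prop} (τ : V ≃ V)
    (h : ∀ a b, r (τ a) (τ b) ↔ r' a b) {a b : V} :
    Relation.ReflTransGen r (τ a) (τ b) ↔ Relation.ReflTransGen r' a b := by
  constructor
  · intro hr
    have aux : ∀ w, Relation.ReflTransGen r (τ a) w → Relation.ReflTransGen r' a (τ.symm w) := by
      intro w hw
      induction hw with
      | refl => rw [Equiv.symm_apply_apply]
      | @tail b c _ hbc ih =>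
        refine ih.tail ?_
        rw [← h, Equiv.apply_symm_apply, Equiv.apply_symm_apply]
        exact hbc
    have := aux _ hr
    rwa [Equiv.symm_apply_apply] at this
  · intro hr
    induction hr with
    | refl => exact Relation.ReflTransGen.refl
    | tail _ hbc ih => exact ih.tail ((h _ _).2 hbc)

lemma reach_rtg {V : Type*} {G : SimpleGraph V} {a b : V} :
    G.Reachable a b ↔ Relation.ReflTransGen G.Adj a b := SimpleGraph.reachable_iff_reflTransGen a b

end Pool.Agent.W804.HP
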