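import Pool.Agent.W804.HP.Bond

/-!
# Site percolation on the lattice as a periodic hypergraph
-/

set_option autoImplicit false
set_option linter.all false
set_option linter.deprecated false

open MeasureTheory Set Pool.Agent.H978R2

namespace Pool.Agent.W804.HP

variable {d : ℕ}

/-- the graph of the nearest neighbour pairs of open sites of `B` -/
def openS (ω : (Fin d → ℤ) → Bool) (B : Set (Fin d → ℤ)) : SimpleGraph (Fin d → ℤ) where
  Adj x y := (lat d).Adj x y ∧ x ∈ B ∧ y ∈ B ∧ ω x = true ∧ ω y = true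
  symm := ⟨fun x y h => ⟨h.1.symm, h.2.2.1, h.2.1, h.2.2.2.2, h.2.2.2.1⟩⟩
  loopless := ⟨fun x h => (lat d).loopless.irrefl x h.1⟩

/-- the edges at a site -/
def sN (x : Fin d → ℤ) : Set (Sym2 (Fin d → ℤ)) := {e | e ∈ (lat d).edgeSet ∧ x ∈ e}

/-- the boundary edges of a box -/
noncomputable def sF (z : Fin d → ℤ) (r : ℕ) : Finset (Sym2 (Fin d → ℤ)) := by
  classical
  exact ((((bx z r) ×ˢ (Finset.univ : Finset (Fin d))).image (fun p => s(p.1, p.1 + ev p.2))) ∪
    (((bx z r) ×ˢ (Finset.univ : Finset (Fin d))).image (fun p => s(p.1, p.1 - ev p.2)))).filter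
    (fun e => ∃ v ∈ e, v ∉ bx z r)

lemma mem_sF {z : Fin d → ℤ} {r : ℕ} {e : Sym2 (Fin d → ℤ)} :
    e ∈ sF z r ↔ e ∈ (lat d).edgeSet ∧ (∃ v ∈ e, v ∈ bx z r) ∧ ∃ v ∈ e, v ∉ bx z r := by
  classical
  unfold sF
  rw [Finset.mem_filter, Finset.mem_union, Finset.mem_image, Finset.mem_image]
  constructor
  · rintro ⟨⟨⟨x, i⟩, h1, rfl⟩ | ⟨⟨x, i⟩, h1, rfl⟩, h2⟩
    · exact ⟨lat_adj_ev x i, ⟨x, Sym2.mem_mk_left _ _, (Finset.mem_product.1 h1).1⟩, h2⟩
    · refine ⟨?_, ⟨x, Sym2.mem_mk_left _ _, (Finset.mem_product.1 h1).1⟩, h2⟩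
      have := (lat_adj_ev (x - ev i) i).symm
      rw [sub_add_cancel] at this
      exact this
  · rintro ⟨h1, ⟨v, hv, hvb⟩, h2⟩
    refine ⟨?_, h2⟩
    obtain ⟨w, rfl⟩ := hv
    have hadj : (lat d).Adj v w := h1
    obtain ⟨i, h | h⟩ := lat_adj_iff.1 hadj
    · left
      refine ⟨(v, i), Finset.mem_product.2 ⟨hvb, Finset.mem_univ _⟩, ?_⟩
      rw [h]
    · right
      refine ⟨(v, i), Finset.mem_product.2 ⟨hvb, Finset.mem_univ _⟩, ?_⟩
      show s(v, v - ev i) = s(v, w)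
      have : v - ev i = w := by rw [h]; simp
      rw [this]

lemma sF_sub (z : Fin d → ℤ) (r : ℕ) : sF z r ⊆
    (((sph z r) ×ˢ (Finset.univ : Finset (Fin d))).image (fun p => s(p.1, p.1 + ev p.2))) ∪
    (((sph z r) ×ˢ (Finset.univ : Finset (Fin d))).image (fun p => s(p.1, p.1 - ev p.2))) := by
  intro e he
  rw [mem_sF] at he
  obtain ⟨h1, ⟨v, hv, hvb⟩, w, hw, hwb⟩ := he
  have hne : v ≠ w := by rintro rfl; exact hwb hvb
  have he : e = s(v, w) := (Sym2.mem_and_mem_iff hne).1 ⟨hv, hw⟩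
  subst he
  have hadj : (lat d).Adj v w := h1
  have hs : v ∈ sph z r := by
    by_contra hs
    exact hwb (adj_mem_bx hadj hvb hs)
  rw [Finset.mem_union, Finset.mem_image, Finset.mem_image]
  obtain ⟨i, h | h⟩ := lat_adj_iff.1 hadj
  · left
    refine ⟨(v, i), Finset.mem_product.2 ⟨hs, Finset.mem_univ _⟩, ?_⟩
    rw [h]
  · right
    refine ⟨(v, i), Finset.mem_product.2 ⟨hs, Finset.mem_univ _⟩, ?_⟩
    show s(v, v - ev i) = s(v, w)
    have : v - ev i = w := by rw [h]; simp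
    rw [this]

lemma card_sF_le (z : Fin d → ℤ) (r : ℕ) : (sF z r).card ≤ 4 * d ^ 2 * (2 * r + 1) ^ (d - 1) := by
  refine (Finset.card_le_card (sF_sub z r)).trans ((Finset.card_union_le _ _).trans ?_)
  have h1 : ((((sph z r) ×ˢ (Finset.univ : Finset (Fin d))).image
      (fun p => s(p.1, p.1 + ev p.2)))).card ≤ 2 * d * (2 * r + 1) ^ (d - 1) * d := by
    refine Finset.card_image_le.trans ?_
    rw [Finset.card_product, Finset.card_univ, Fintype.card_fin]
    exact Nat.mul_le_mul_right _ (card_sph_le z r)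
  have h2 : ((((sph z r) ×ˢ (Finset.univ : Finset (Fin d))).image
      (fun p => s(p.1, p.1 - ev p.2)))).card ≤ 2 * d * (2 * r + 1) ^ (d - 1) * d := by
    refine Finset.card_image_le.trans ?_
    rw [Finset.card_product, Finset.card_univ, Fintype.card_fin]
    exact Nat.mul_le_mul_right _ (card_sph_le z r)
  have h3 : 4 * d ^ 2 * (2 * r + 1) ^ (d - 1) = 2 * d * (2 * r + 1) ^ (d - 1) * d +
      2 * d * (2 * r + 1) ^ (d - 1) * d := by ring
  omega

/-- the hyperedge structure connects the edges at the open sites; comparison with the site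
clusters -/
lemma con_site {B : Finset (Fin d → ℤ)} {ω : (Fin d → ℤ) → Bool} {x y : Fin d → ℤ}
    (hxB : x ∈ B) (hyB : y ∈ B) (hx : ω x = true) (hy : ω y = true)
    {a b : Sym2 (Fin d → ℤ)} (ha : a ∈ sN x) (hb : b ∈ sN y) :
    Con sN B ω a b ↔ (openS ω B).Reachable x y := by
  rw [reach_rtg]
  constructor
  · intro h
    have key : ∀ c, Con sN B ω a c → ∀ w, w ∈ c → w ∈ B → ω w = true →
        Relation.ReflTransGen (openS ω B).Adj x w := by
      intro c hc
      induction hc with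
      | refl =>
        intro w hw hwB how
        by_cases hxw : x = w
        · rw [hxw]
        · have : a = s(x, w) := (Sym2.mem_and_mem_iff hxw).1 ⟨ha.2, hw⟩
          have hadj : (lat d).Adj x w := by
            have := ha.1
            rw [show a = s(x, w) from (Sym2.mem_and_mem_iff hxw).1 ⟨ha.2, hw⟩] at this
            exact this
          exact Relation.ReflTransGen.single ⟨hadj, hxB, hwB, hx, how⟩
      | @tail c c' _ hcc ih =>
        intro w hw hwB how
        obtain ⟨v, hvB, hov, hvc, hvc'⟩ := hcc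
        have h1 := ih v hvc.2 hvB hov
        by_cases hvw : v = w
        · rw [← hvw]; exact h1
        · have hadj : (lat d).Adj v w := by
            have := hvc'.1
            rw [show c' = s(v, w) from (Sym2.mem_and_mem_iff hvw).1 ⟨hvc'.2, hw⟩] at this
            exact this
          exact h1.tail ⟨hadj, hvB, hwB, hov, how⟩
    exact key b h y hb.2 hyB hy
  · intro h
    have key : ∀ w, Relation.ReflTransGen (openS ω B).Adj x w → ∀ c, c ∈ sN w → w ∈ B →
        ω w = true → Con sN B ω a c := by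
      intro w hw
      induction hw with
      | refl =>
        intro c hc _ _
        exact Con.single ⟨x, hxB, hx, ha, hc⟩
      | @tail v w _ hvw ih =>
        intro c hc hwB how
        obtain ⟨hadj, hvB, _, hov, _⟩ := hvw
        have h1 := ih s(v, w) ⟨hadj, Sym2.mem_mk_left _ _⟩ hvB hov
        exact h1.trans (Con.single ⟨w, hwB, how, ⟨hadj, Sym2.mem_mk_right _ _⟩, hc⟩)
    exact key y h b hb hyB hy

lemma sN_iso (I : Iso d) (x : Fin d → ℤ) : sN (I.σ x) = s2 I.σ '' sN x := by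
  ext e
  constructor
  · rintro ⟨h1, h2⟩
    refine ⟨(s2 I.σ).symm e, ?_, by simp⟩
    induction e using Sym2.ind with
    | _ a b =>
      obtain ⟨a, rfl⟩ := I.σ.surjective a
      obtain ⟨b, rfl⟩ := I.σ.surjective b
      rw [← s2_mk, Equiv.symm_apply_apply]
      rw [← s2_mk] at h2
      exact ⟨(I.adj a b).1 h1, mem_s2.1 h2⟩
  · rintro ⟨e, ⟨h1, h2⟩, rfl⟩
    induction e using Sym2.ind with
    | _ a b =>
      exact ⟨(I.adj a b).2 h1, mem_s2.2 h2⟩

lemma bx_iso (I : Iso d) (z : Fin d → ℤ) (r : ℕ) : bx (I.σ z) r = (bx z r).map I.σ.toEmbedding := by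
  ext x
  rw [Finset.mem_map]
  constructor
  · intro h
    refine ⟨I.σ.symm x, ?_, by simp⟩
    rw [← I.box, Equiv.apply_symm_apply]
    exact h
  · rintro ⟨y, hy, rfl⟩
    exact (I.box y z r).2 hy

lemma sF_trans (z : Fin d → ℤ) (r : ℕ) :
    ((sF z r : Finset (Sym2 (Fin d → ℤ))) : Set (Sym2 (Fin d → ℤ))) =
      (s2 (Equiv.addLeft z)) '' ((sF 0 r : Finset (Sym2 (Fin d → ℤ))) : Set (Sym2 (Fin d → ℤ))) := by
  have hz : (isoT z).σ 0 = z := by
    show z + 0 = z
    simp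
  ext e
  rw [Finset.mem_coe, mem_sF]
  constructor
  · rintro ⟨h1, ⟨v, hv, hvb⟩, w, hw, hwb⟩
    refine ⟨(s2 (Equiv.addLeft z)).symm e, ?_, by simp⟩
    rw [Finset.mem_coe, mem_sF]
    have hm : ∀ u, u ∈ (s2 (Equiv.addLeft z)).symm e ↔ (Equiv.addLeft z) u ∈ e := by
      intro u
      rw [← mem_s2 (σ := Equiv.addLeft z), Equiv.apply_symm_apply]
    refine ⟨?_, ⟨(Equiv.addLeft z).symm v, ?_, ?_⟩, (Equiv.addLeft z).symm w, ?_, ?_⟩
    · induction e using Sym2.ind with
      | _ a b =>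
        obtain ⟨a, rfl⟩ := (isoT z).σ.surjective a
        obtain ⟨b, rfl⟩ := (isoT z).σ.surjective b
        have : (s2 (Equiv.addLeft z)).symm s((isoT z).σ a, (isoT z).σ b) = s(a, b) := by
          show (s2 (isoT z).σ).symm s((isoT z).σ a, (isoT z).σ b) = s(a, b)
          rw [← s2_mk, Equiv.symm_apply_apply]
        rw [this]
        exact ((isoT z).adj a b).1 h1
    · rw [hm, Equiv.apply_symm_apply]; exact hv
    · have h3 := (isoT z).box ((Equiv.addLeft z).symm v) 0 r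
      rw [hz] at h3
      rw [← h3]
      show (Equiv.addLeft z) ((Equiv.addLeft z).symm v) ∈ bx z r
      rw [Equiv.apply_symm_apply]; exact hvb
    · rw [hm, Equiv.apply_symm_apply]; exact hw
    · have h3 := (isoT z).box ((Equiv.addLeft z).symm w) 0 r
      rw [hz] at h3
      rw [← h3]
      show (Equiv.addLeft z) ((Equiv.addLeft z).symm w) ∉ bx z r
      rw [Equiv.apply_symm_apply]; exact hwb
  · rintro ⟨e, he, rfl⟩
    rw [Finset.mem_coe, mem_sF] at he
    obtain ⟨h1, ⟨v, hv, hvb⟩, w, hw, hwb⟩ := he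
    refine ⟨?_, ⟨(Equiv.addLeft z) v, mem_s2.2 hv, ?_⟩, (Equiv.addLeft z) w, mem_s2.2 hw, ?_⟩
    · induction e using Sym2.ind with
      | _ a b => exact ((isoT z).adj a b).2 h1
    · have h3 := (isoT z).box v 0 r
      rw [hz] at h3
      exact h3.2 hvb
    · have h3 := (isoT z).box w 0 r
      rw [hz] at h3
      exact fun h4 => hwb (h3.1 h4)

lemma site_exit (z : Fin d → ℤ) (r : ℕ) (z' : Fin d → ℤ) (r' : ℕ)
    (ω : (Fin d → ℤ) → Bool) (u f : Sym2 (Fin d → ℤ)) (h : bx z r ⊆ bx z' r')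
    (hu : ∃ v ∈ u, v ∈ bx z r) (hf : f ∈ sF z' r') (hc : Con sN (bx z' r') ω u f) :
    ∃ f' ∈ sF z r, Con sN (bx z r) ω u f' := by
  have key : ∀ v, Con sN (bx z' r') ω u v →
      ((∃ w ∈ v, w ∈ bx z r) ∧ Con sN (bx z r) ω u v) ∨
      ∃ f' ∈ sF z r, Con sN (bx z r) ω u f' := by
    intro v hv
    induction hv with
    | refl => exact Or.inl ⟨hu, Con.refl _ _ _ _⟩
    | @tail b c _ hbc ih =>
      rcases ih with ⟨hb, hcon⟩ | ih
      · by_cases hs : b ∈ sF z r
        · exact Or.inr ⟨b, hs, hcon⟩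
        · obtain ⟨x, hx, ho, hbx, hcx⟩ := hbc
          have hxz : x ∈ bx z r := by
            by_contra hxz
            exact hs (mem_sF.2 ⟨hbx.1, hb, x, hbx.2, hxz⟩)
          exact Or.inl ⟨⟨x, hcx.2, hxz⟩, hcon.trans (Con.single ⟨x, hxz, ho, hbx, hcx⟩)⟩
      · exact Or.inr ih
  rcases key f hc with ⟨h1, h2⟩ | h1
  · obtain ⟨h3, _, w, hw, hwb⟩ := mem_sF.1 hf
    exact ⟨f, mem_sF.2 ⟨h3, h1, w, hw, fun h4 => hwb (h h4)⟩, h2⟩
  · exact h1

/-- site percolation as a periodic hypergraph -/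
noncomputable def siteH (d : ℕ) : HLat d (Fin d → ℤ) (Sym2 (Fin d → ℤ)) where
  N := sN
  E := bx
  F := sF
  reg := fun z r => {e | ∃ v ∈ e, v ∈ bx z r}
  D := 2 * d
  hD := fun x => by
    classical
    refine ⟨(Finset.univ.image (fun i : Fin d => s(x, x + ev i))) ∪
      (Finset.univ.image (fun i : Fin d => s(x, x - ev i))), ?_, ?_⟩
    · refine (Finset.card_union_le _ _).trans ?_
      have h1 : (Finset.univ.image (fun i : Fin d => s(x, x + ev i))).card ≤ d := by
        refine Finset.card_image_le.trans ?_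
        rw [Finset.card_univ, Fintype.card_fin]
      have h2 : (Finset.univ.image (fun i : Fin d => s(x, x - ev i))).card ≤ d := by
        refine Finset.card_image_le.trans ?_
        rw [Finset.card_univ, Fintype.card_fin]
      omega
    · rintro e ⟨h1, h2⟩
      obtain ⟨w, rfl⟩ := h2
      have hadj : (lat d).Adj x w := h1
      rw [Finset.mem_coe, Finset.mem_union, Finset.mem_image, Finset.mem_image]
      obtain ⟨i, h | h⟩ := lat_adj_iff.1 hadj
      · left; exact ⟨i, Finset.mem_univ _, by rw [h]⟩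
      · right
        refine ⟨i, Finset.mem_univ _, ?_⟩
        have : x - ev i = w := by rw [h]; simp
        rw [this]
  κ := Unit
  b := fun _ => 0
  tI := fun z => Equiv.addLeft z
  tV := fun z => s2 (Equiv.addLeft z)
  N_t := fun z x => sN_iso (isoT z) x
  E_t := fun z r => by
    have := bx_iso (isoT z) 0 r
    have h : (isoT z).σ 0 = z := by
      show z + 0 = z
      simp
    rw [h] at this
    exact this
  F_t := fun z r => sF_trans z r
  E_mono := fun z r z' r' h => h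
  reg_N := fun z r x hx e he => ⟨x, he.2, hx⟩
  exit := fun z r z' r' ω u f h hu hf hc => site_exit z r z' r' ω u f h hu hf hc
  cover := fun r x hx => ⟨x, hx, (), by simp⟩
  inj := fun t x y h => by simpa using h
  memE := fun t x => by
    have : (Equiv.addLeft x) 0 = x := by simp
    rw [this]
    exact self_mem_bx x 1
  cE := 1
  cF := 4 * d ^ 2
  card_E := fun r => by rw [card_bx, one_mul]
  card_F := fun r => card_sF_le 0 r

/-- the connection event of site percolation -/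
def XS (x y z : Fin d → ℤ) (r : ℕ) : Set ((Fin d → ℤ) → Bool) :=
  {ω | (x ∈ bx z r ∧ y ∈ bx z r ∧ ω x = true ∧ ω y = true) ∧ (openS ω (bx z r)).Reachable x y}

lemma openS_congr {ω ω' : (Fin d → ℤ) → Bool} {B : Finset (Fin d → ℤ)}
    (h : ∀ x ∈ B, ω x = ω' x) : openS ω (B : Set (Fin d → ℤ)) = openS ω' B := by
  ext x y
  constructor
  · rintro ⟨h1, h2, h3, h4, h5⟩
    exact ⟨h1, h2, h3, by rw [← h x h2]; exact h4, by rw [← h y h3]; exact h5⟩
  · rintro ⟨h1, h2, h3, h4, h5⟩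
    exact ⟨h1, h2, h3, by rw [h x h2]; exact h4, by rw [h y h3]; exact h5⟩

lemma depOn_XS (x y z : Fin d → ℤ) (r : ℕ) :
    DepOn ((bx z r : Finset (Fin d → ℤ)) : Set (Fin d → ℤ)) (XS x y z r) := by
  intro ω ω' h
  unfold XS
  simp only [mem_setOf_eq]
  rw [openS_congr (fun x hx => h x hx)]
  constructor
  · rintro ⟨⟨h1, h2, h3, h4⟩, h5⟩
    exact ⟨⟨h1, h2, by rw [← h x h1]; exact h3, by rw [← h y h2]; exact h4⟩, h5⟩
  · rintro ⟨⟨h1, h2, h3, h4⟩, h5⟩
    exact ⟨⟨h1, h2, by rw [h x h1]; exact h3, by rw [h y h2]; exact h4⟩, h5⟩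

lemma le_true {ω ω' : (Fin d → ℤ) → Bool} (h : ω ≤ ω') {x : Fin d → ℤ} (hx : ω x = true) :
    ω' x = true := by
  have h1 := h x
  rw [hx] at h1
  cases h2 : ω' x
  · rw [h2] at h1
    have h3 : (true : Bool) ≤ false := h1
    exact absurd h3 (by decide)
  · rfl

lemma openS_mono {ω ω' : (Fin d → ℤ) → Bool} (h : ω ≤ ω') {B B' : Set (Fin d → ℤ)} (hB : B ⊆ B') :
    openS ω B ≤ openS ω' B' := by
  intro x y hxy
  exact ⟨hxy.1, hB hxy.2.1, hB hxy.2.2.1, le_true h hxy.2.2.2.1, le_true h hxy.2.2.2.2⟩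

lemma XS_iso (q : NNReal) (hq : q ≤ 1) (I : Iso d) (x y z : Fin d → ℤ) (r : ℕ) :
    (bm _ q hq).real (XS (I.σ x) (I.σ y) (I.σ z) r) = (bm _ q hq).real (XS x y z r) := by
  have h : XS (I.σ x) (I.σ y) (I.σ z) r = {ω | rel I.σ ω ∈ XS x y z r} := by
    ext ω
    unfold XS
    simp only [mem_setOf_eq]
    rw [I.box, I.box]
    have key : ∀ a b : Fin d → ℤ, (openS ω (bx (I.σ z) r)).Adj (I.σ a) (I.σ b) ↔
        (openS (rel I.σ ω) (bx z r)).Adj a b := by
      intro a b
      show ((lat d).Adj (I.σ a) (I.σ b) ∧ I.σ a ∈ bx (I.σ z) r ∧ I.σ b ∈ bx (I.σ z) r ∧ _ ∧ _) ↔ _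
      rw [I.adj, I.box, I.box]
      exact Iff.rfl
    rw [reach_rtg, rtg_equiv I.σ key, ← reach_rtg]
    exact Iff.rfl
  rw [h]
  exact bm_rel q hq _ (depOn_XS x y z r).measurable_fin

/-- the cluster of `x` is infinite -/
def InfS (x : Fin d → ℤ) : Set ((Fin d → ℤ) → Bool) :=
  {ω | {y | (openS ω univ).Reachable x y}.Infinite}

lemma exists_box (b c : Fin d → ℤ) : ∃ r' : ℕ, b ∈ bx (0 : Fin d → ℤ) r' ∧ c ∈ bx (0 : Fin d → ℤ) r' := by
  refine ⟨∑ i, ((b i).natAbs + (c i).natAbs), ?_, ?_⟩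
  · rw [mem_bx]
    intro i
    have : (b i).natAbs + (c i).natAbs ≤ ∑ i, ((b i).natAbs + (c i).natAbs) :=
      Finset.single_le_sum (f := fun i => (b i).natAbs + (c i).natAbs)
        (fun _ _ => Nat.zero_le _) (Finset.mem_univ i)
    simp only [Pi.zero_apply, sub_zero, Int.abs_eq_natAbs]
    omega
  · rw [mem_bx]
    intro i
    have : (b i).natAbs + (c i).natAbs ≤ ∑ i, ((b i).natAbs + (c i).natAbs) :=
      Finset.single_le_sum (f := fun i => (b i).natAbs + (c i).natAbs)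
        (fun _ _ => Nat.zero_le _) (Finset.mem_univ i)
    simp only [Pi.zero_apply, sub_zero, Int.abs_eq_natAbs]
    omega

lemma reachS_univ_iff {ω : (Fin d → ℤ) → Bool} {x y : Fin d → ℤ} :
    (openS ω univ).Reachable x y ↔ ∃ r : ℕ, (openS ω (bx (0 : Fin d → ℤ) r)).Reachable x y := by
  constructor
  · intro h
    rw [reach_rtg] at h
    induction h with
    | refl => exact ⟨0, SimpleGraph.Reachable.refl _⟩
    | @tail b c _ hbc ih =>
      obtain ⟨r, hr⟩ := ih
      obtain ⟨h1, _, _, h4, h5⟩ := hbc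
      obtain ⟨r', hb', hc'⟩ := exists_box b c
      refine ⟨max r r', ?_⟩
      have m1 : openS ω (bx (0 : Fin d → ℤ) r) ≤ openS ω (bx (0 : Fin d → ℤ) (max r r')) :=
        openS_mono le_rfl (by exact_mod_cast bx_mono 0 (le_max_left _ _))
      refine (hr.mono m1).trans (SimpleGraph.Adj.reachable ?_)
      exact ⟨h1, bx_mono 0 (le_max_right _ _) hb', bx_mono 0 (le_max_right _ _) hc', h4, h5⟩
  · rintro ⟨r, hr⟩
    exact hr.mono (openS_mono le_rfl (subset_univ _))

lemma depOn_reachS (x y z : Fin d → ℤ) (r : ℕ) :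
    DepOn ((bx z r : Finset (Fin d → ℤ)) : Set (Fin d → ℤ))
      {ω | (openS ω (bx z r)).Reachable x y} := by
  intro ω ω' h
  simp only [mem_setOf_eq]
  rw [openS_congr (fun x hx => h x hx)]

lemma meas_reachSU (x y : Fin d → ℤ) :
    MeasurableSet {ω : (Fin d → ℤ) → Bool | (openS ω univ).Reachable x y} := by
  have : {ω : (Fin d → ℤ) → Bool | (openS ω univ).Reachable x y} =
      ⋃ r : ℕ, {ω | (openS ω (bx (0 : Fin d → ℤ) r)).Reachable x y} := by
    ext ω
    rw [mem_iUnion]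
    exact reachS_univ_iff
  rw [this]
  exact MeasurableSet.iUnion fun r => (depOn_reachS x y 0 r).measurable_fin

/-- reaching outside the box of radius `n` -/
def OutS (x : Fin d → ℤ) (n : ℕ) : Set ((Fin d → ℤ) → Bool) :=
  {ω | ∃ y, y ∉ bx (0 : Fin d → ℤ) n ∧ (openS ω univ).Reachable x y}

lemma meas_OutS (x : Fin d → ℤ) (n : ℕ) : MeasurableSet (OutS x n) := by
  have : OutS x n = ⋃ y : Fin d → ℤ, ⋃ (_ : y ∉ bx (0 : Fin d → ℤ) n),
      {ω | (openS ω univ).Reachable x y} := by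
    ext ω
    unfold OutS
    simp only [mem_iUnion, exists_prop, mem_setOf_eq]
  rw [this]
  exact MeasurableSet.iUnion fun y => MeasurableSet.iUnion fun _ => meas_reachSU x y

lemma InfS_eq (x : Fin d → ℤ) : InfS x = ⋂ n : ℕ, OutS x n := by
  ext ω
  rw [mem_iInter]
  exact infinite_iff

lemma meas_InfS (x : Fin d → ℤ) : MeasurableSet (InfS x) := by
  rw [InfS_eq]
  exact MeasurableSet.iInter fun n => meas_OutS x n

lemma InfS_trans (q : NNReal) (hq : q ≤ 1) (x : Fin d → ℤ) :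
    (bm _ q hq).real (InfS x) = (bm _ q hq).real (InfS (0 : Fin d → ℤ)) := by
  have h : InfS x = {ω | rel (Equiv.addLeft x) ω ∈ InfS (0 : Fin d → ℤ)} := by
    ext ω
    unfold InfS
    simp only [mem_setOf_eq]
    have h1 : {y | (openS ω univ).Reachable x y} = (Equiv.addLeft x) ''
        {y | (openS (rel (Equiv.addLeft x) ω) univ).Reachable 0 y} := by
      have key : ∀ a b : Fin d → ℤ, (openS ω univ).Adj ((Equiv.addLeft x) a) ((Equiv.addLeft x) b) ↔
          (openS (rel (Equiv.addLeft x) ω) univ).Adj a b := by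
        intro a b
        show ((lat d).Adj ((isoT x).σ a) ((isoT x).σ b) ∧ _ ∧ _ ∧ _ ∧ _) ↔ _
        rw [(isoT x).adj]
        exact Iff.rfl
      ext y
      constructor
      · intro hy
        refine ⟨(Equiv.addLeft x).symm y, ?_, by simp⟩
        show (openS (rel (Equiv.addLeft x) ω) univ).Reachable 0 _
        rw [reach_rtg, ← rtg_equiv (Equiv.addLeft x) key, Equiv.apply_symm_apply]
        have e : (Equiv.addLeft x) 0 = x := by simp
        rw [e, ← reach_rtg]
        exact hy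
      · rintro ⟨y, hy, rfl⟩
        have hy' : (openS (rel (Equiv.addLeft x) ω) univ).Reachable 0 y := hy
        rw [reach_rtg, ← rtg_equiv (Equiv.addLeft x) key] at hy'
        have e : (Equiv.addLeft x) 0 = x := by simp
        rw [e, ← reach_rtg] at hy'
        exact hy'
    rw [h1, Set.infinite_image_iff ((Equiv.addLeft x).injective.injOn)]
  rw [h]
  exact bm_rel q hq _ (meas_InfS 0)

lemma open_of_reach {ω : (Fin d → ℤ) → Bool} {B : Set (Fin d → ℤ)} {x y : Fin d → ℤ}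
    (h : (openS ω B).Reachable x y) (hne : x ≠ y) : ω x = true := by
  rw [reach_rtg] at h
  rcases Relation.ReflTransGen.cases_head h with h1 | ⟨w, hw, _⟩
  · exact absurd h1 hne
  · exact hw.2.2.2.1

lemma InfS_sub {x : Fin d → ℤ} {n : ℕ} (hx : x ∈ bx (0 : Fin d → ℤ) n) :
    InfS x ⊆ ⋃ v ∈ sph (0 : Fin d → ℤ) n, XS x v 0 n := by
  intro ω hω
  have hox : ω x = true := by
    have hω' : {y | (openS ω univ).Reachable x y}.Infinite := hω
    obtain ⟨y, hy, hyn⟩ := hω'.exists_notMem_finset {x}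
    rw [Finset.mem_singleton] at hyn
    exact open_of_reach hy (Ne.symm hyn)
  by_contra hcon
  simp only [mem_iUnion, exists_prop, not_exists, not_and] at hcon
  have key : ∀ y, (openS ω univ).Reachable x y → y ∈ bx (0 : Fin d → ℤ) n ∧ ω y = true ∧
      (openS ω (bx (0 : Fin d → ℤ) n)).Reachable x y := by
    intro y hy
    rw [reach_rtg] at hy
    induction hy with
    | refl => exact ⟨hx, hox, SimpleGraph.Reachable.refl _⟩
    | @tail b c _ hbc ih =>
      obtain ⟨hb, hob, hcb⟩ := ih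
      have hs : b ∉ sph (0 : Fin d → ℤ) n := fun h => hcon b h ⟨⟨hx, hb, hox, hob⟩, hcb⟩
      obtain ⟨h1, _, _, h4, h5⟩ := hbc
      have hc := adj_mem_bx h1 hb hs
      exact ⟨hc, h5, hcb.trans (SimpleGraph.Adj.reachable ⟨h1, hb, hc, h4, h5⟩)⟩
  have hfin : {y | (openS ω univ).Reachable x y}.Finite :=
    Set.Finite.subset (bx (0 : Fin d → ℤ) n).finite_toSet fun y hy => (key y hy).1
  exact hω hfin

lemma site_q_pos (q : NNReal) (hq : q ≤ 1)
    (hθ : 0 < (bm _ q hq).real (InfS (0 : Fin d → ℤ))) : 0 < q := by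
  by_contra hcon
  have hq0 : q = 0 := le_antisymm (not_lt.1 hcon) bot_le
  have h1 : InfS (0 : Fin d → ℤ) ⊆ {ω : (Fin d → ℤ) → Bool | ω 0 = true} := by
    intro ω hω
    have hω' : {y | (openS ω univ).Reachable (0 : Fin d → ℤ) y}.Infinite := hω
    obtain ⟨y, hy, hyn⟩ := hω'.exists_notMem_finset {0}
    rw [Finset.mem_singleton] at hyn
    exact open_of_reach hy (Ne.symm hyn)
  have h2 := measureReal_mono (μ := bm _ q hq) h1 (measure_ne_top _ _)
  have h3 : (bm _ q hq).real {ω : (Fin d → ℤ) → Bool | ω 0 = true} = 0 := by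
    unfold Measure.real
    rw [bm_eval q hq 0 true]
    simp [hq0]
  linarith

/-- the standard edge at a site -/
def se (i : Fin d) (x : Fin d → ℤ) : Sym2 (Fin d → ℤ) := s(x, x + ev i)

lemma se_mem (i : Fin d) (x : Fin d → ℤ) : se i x ∈ sN x :=
  ⟨lat_adj_ev x i, Sym2.mem_mk_left _ _⟩

lemma XS_sub_con (i : Fin d) {x y z : Fin d → ℤ} {r : ℕ} :
    XS x y z r ⊆ {ω | Con sN (bx z r) ω (se i x) (se i y)} := by
  rintro ω ⟨⟨h1, h2, h3, h4⟩, h5⟩
  exact (con_site h1 h2 h3 h4 (se_mem i x) (se_mem i y)).2 h5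

lemma R_sub_cl (i : Fin d) {x z : Fin d → ℤ} {r : ℕ} {ω : (Fin d → ℤ) → Bool}
    (h : ω ∈ ⋃ v ∈ sph z r, XS x v z r) : se i x ∈ cl sN (bx z r) ω (sF z r) := by
  simp only [mem_iUnion, exists_prop] at h
  obtain ⟨v, hv, ⟨h1, h2, h3, h4⟩, h5⟩ := h
  -- an outer neighbour of `v`
  obtain ⟨_, j, hj⟩ := mem_sph.1 hv
  obtain ⟨w, hvw, hw⟩ : ∃ w, (lat d).Adj v w ∧ w ∉ bx z r := by
    rcases abs_eq (by positivity : (0 : ℤ) ≤ (r : ℤ)) |>.1 hj with h6 | h6
    · refine ⟨v + ev j, lat_adj_ev v j, fun hmem => ?_⟩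
      have := mem_bx.1 hmem j
      simp [ev] at this
      rw [abs_le] at this
      linarith [this.2]
    · refine ⟨v - ev j, ?_, fun hmem => ?_⟩
      · have := (lat_adj_ev (v - ev j) j).symm
        rwa [sub_add_cancel] at this
      · have := mem_bx.1 hmem j
        simp [ev] at this
        rw [abs_le] at this
        linarith [this.1]
  refine ⟨s(v, w), ?_, ?_⟩
  · rw [Finset.mem_coe, mem_sF]
    exact ⟨hvw, ⟨v, Sym2.mem_mk_left _ _, h2⟩, w, Sym2.mem_mk_right _ _, hw⟩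
  · exact Con.symm ((con_site h1 h2 h3 h4 (se_mem i x) ⟨hvw, Sym2.mem_mk_left _ _⟩).2 h5)

/-- the model data of site percolation -/
noncomputable def siteC (q : NNReal) (hq : q ≤ 1) (hd : 1 ≤ d)
    (hθ : 0 < (bm _ q hq).real (InfS (0 : Fin d → ℤ))) : CLat d (Fin d → ℤ) q hq where
  X := XS
  J := bx
  depX := fun x y z r => depOn_XS x y z r
  upX := fun x y z r ω ω' h hω =>
    ⟨⟨hω.1.1, hω.1.2.1, le_true h hω.1.2.2.1, le_true h hω.1.2.2.2⟩,
      hω.2.mono (openS_mono h subset_rfl)⟩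
  symm := fun x y z r => by
    ext ω
    exact ⟨fun h => ⟨⟨h.1.2.1, h.1.1, h.1.2.2.2, h.1.2.2.1⟩, h.2.symm⟩,
      fun h => ⟨⟨h.1.2.1, h.1.1, h.1.2.2.2, h.1.2.2.1⟩, h.2.symm⟩⟩
  trans := fun x y w z r z' r' z'' r'' h h' ω hω =>
    ⟨⟨h hω.1.1.1, h' hω.2.1.2.1, hω.1.1.2.2.1, hω.2.1.2.2.2⟩,
      (hω.1.2.mono (openS_mono le_rfl (by exact_mod_cast h))).trans
        (hω.2.2.mono (openS_mono le_rfl (by exact_mod_cast h')))⟩
  π := (q : ℝ) ^ 2
  hπ := by
    have : (0 : ℝ) < q := by exact_mod_cast site_q_pos q hq hθ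
    positivity
  one := fun x z r hx => by
    have h1 : {ω : (Fin d → ℤ) → Bool | ω x = true} ⊆ XS x x z r := fun ω hω =>
      ⟨⟨hx, hx, hω, hω⟩, SimpleGraph.Reachable.refl _⟩
    have h2 := measureReal_mono (μ := bm _ q hq) h1 (measure_ne_top _ _)
    have h3 : (bm _ q hq).real {ω : (Fin d → ℤ) → Bool | ω x = true} = q := by
      unfold Measure.real
      rw [bm_eval q hq x true]
      simp
    rw [h3] at h2
    have q0 : (0 : ℝ) ≤ q := q.2
    have q1 : (q : ℝ) ≤ 1 := by exact_mod_cast hq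
    nlinarith
  step := fun x i => by
    have h1 : {ω : (Fin d → ℤ) → Bool | ω x = true} ∩ {ω | ω (x + ev i) = true} ⊆
        XS x (x + ev i) x 1 := by
      rintro ω ⟨h1, h2⟩
      have m1 : x + ev i ∈ bx x 1 := by
        rw [mem_bx]
        intro j
        by_cases h : j = i
        · subst h; simp [ev]
        · simp [ev, h]
      exact ⟨⟨self_mem_bx x 1, m1, h1, h2⟩, SimpleGraph.Adj.reachable
        ⟨lat_adj_ev x i, self_mem_bx x 1, m1, h1, h2⟩⟩
    have h2 := measureReal_mono (μ := bm _ q hq) h1 (measure_ne_top _ _)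
    have h3 : ∀ y : Fin d → ℤ, (bm _ q hq).real {ω : (Fin d → ℤ) → Bool | ω y = true} = q := by
      intro y
      unfold Measure.real
      rw [bm_eval q hq y true]
      simp
    have hdep : ∀ y : Fin d → ℤ, DepOn (({y} : Finset (Fin d → ℤ)) : Set (Fin d → ℤ))
        {ω : (Fin d → ℤ) → Bool | ω y = true} := by
      intro y ω ω' h
      simp only [mem_setOf_eq]
      rw [h y (by simp)]
    have hup : ∀ y : Fin d → ℤ, IsUpperSet {ω : (Fin d → ℤ) → Bool | ω y = true} :=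
      fun y ω ω' h hω => le_true h hω
    have h4 := CLat.harris2 (q := q) (hq := hq) (hdep x) (hdep (x + ev i)) (hup x) (hup (x + ev i))
    unfold CLat.P at h4
    rw [h3, h3] at h4
    have h5 : (q : ℝ) ^ 2 = q * q := by ring
    rw [h5]
    exact h4.trans h2
  inv_t := fun w x y z r => XS_iso q hq (isoT w) x y z r
  inv_r := fun j a x y z r => XS_iso q hq (isoR j a) x y z r
  inv_s := fun i j x y z r => XS_iso q hq (isoS i j) x y z r
  θ := (bm _ q hq).real (InfS (0 : Fin d → ℤ))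
  hθ := hθ
  reach := fun x n hx => by
    rw [← InfS_trans q hq x]
    exact measureReal_mono (InfS_sub hx) (measure_ne_top _ _)
  K := (siteH d).KA q
  hK := (siteH d).KA_nonneg q
  glue := fun x y k n hx hy hkn => by
    have i0 : Fin d := ⟨0, hd⟩
    have h := (siteH d).glue_box q hq (site_q_pos q hq hθ) hd (se i0 x) (se i0 y) hkn
    have h1 : ((⋃ v ∈ sph (0 : Fin d → ℤ) n, XS x v 0 n) ∩
        (⋃ v ∈ sph (0 : Fin d → ℤ) n, XS y v 0 n)) \ XS x y 0 n ⊆
        {ω | se i0 x ∈ cl (siteH d).N ((siteH d).E 0 n) ω ((siteH d).F 0 n) ∧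
          se i0 y ∈ cl (siteH d).N ((siteH d).E 0 n) ω ((siteH d).F 0 n) ∧
          ¬ Con (siteH d).N ((siteH d).E 0 n) ω (se i0 x) (se i0 y)} := by
      rintro ω ⟨⟨h1, h2⟩, h3⟩
      refine ⟨R_sub_cl i0 h1, R_sub_cl i0 h2, fun h4 => h3 ?_⟩
      simp only [mem_iUnion, exists_prop] at h1 h2
      obtain ⟨v, hv, ⟨a1, a2, a3, a4⟩, a5⟩ := h1
      obtain ⟨w, hw, ⟨b1, b2, b3, b4⟩, b5⟩ := h2
      exact ⟨⟨a1, b1, a3, b3⟩, (con_site a1 b1 a3 b3 (se_mem i0 x) (se_mem i0 y)).1 h4⟩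
    have h2 := measureReal_mono (μ := bm _ q hq) h1 (measure_ne_top _ _)
    have h4 : (bm _ q hq).real (XS x y 0 k) ≤
        (bm _ q hq).real {ω | Con (siteH d).N ((siteH d).E 0 k) ω (se i0 x) (se i0 y)} :=
      measureReal_mono (XS_sub_con i0) (measure_ne_top _ _)
    have h3 : (bm _ q hq).real (XS x y 0 k) * (bm _ q hq).real
        (((⋃ v ∈ sph (0 : Fin d → ℤ) n, XS x v 0 n) ∩
        (⋃ v ∈ sph (0 : Fin d → ℤ) n, XS y v 0 n)) \ XS x y 0 n) ≤
        (((siteH d).cE : ℝ) * (2 * k + 1) ^ d) * ((siteH d).KA q / Real.sqrt ((n - k : ℕ) : ℝ)) :=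
      (mul_le_mul h4 h2 measureReal_nonneg measureReal_nonneg).trans h
    refine h3.trans (le_of_eq ?_)
    show (((1 : ℕ) : ℝ) * (2 * k + 1) ^ d) * ((siteH d).KA q / Real.sqrt ((n - k : ℕ) : ℝ)) =
      (siteH d).KA q * (2 * k + 1) ^ d / Real.sqrt ((n - k : ℕ) : ℝ)
    push_cast
    ring

/-- conversely long range order implies percolation -/
lemma site_conv (q : NNReal) (hq : q ≤ 1) (hd : 1 ≤ d) {c : ℝ} (hc : 0 < c)
    (h : ∀ m : ℕ, ∃ y, y ∉ bx (0 : Fin d → ℤ) m ∧
      c ≤ (bm _ q hq).real {ω : (Fin d → ℤ) → Bool | (openS ω univ).Reachable 0 y}) :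
    0 < (bm _ q hq).real (InfS (0 : Fin d → ℤ)) := by
  have hanti : Antitone (fun n => OutS (0 : Fin d → ℤ) n) := by
    intro n n' hn ω hω
    obtain ⟨y, hy, hr⟩ := hω
    exact ⟨y, fun h' => hy (bx_mono 0 hn h'), hr⟩
  have hlim := tendsto_measure_iInter_atTop (μ := bm (Fin d → ℤ) q hq)
    (s := fun n => OutS (0 : Fin d → ℤ) n) (fun n => (meas_OutS 0 n).nullMeasurableSet) hanti
    ⟨0, measure_ne_top _ _⟩
  rw [← InfS_eq] at hlim
  have hge : ∀ n, ENNReal.ofReal c ≤ bm (Fin d → ℤ) q hq (OutS (0 : Fin d → ℤ) n) := by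
    intro n
    obtain ⟨y, hy, hcy⟩ := h n
    have h1 : {ω : (Fin d → ℤ) → Bool | (openS ω univ).Reachable 0 y} ⊆
        OutS (0 : Fin d → ℤ) n := fun ω hω => ⟨y, hy, hω⟩
    have h2 := hcy.trans (measureReal_mono h1 (measure_ne_top _ _))
    rw [← ENNReal.ofReal_toReal (measure_ne_top (bm (Fin d → ℤ) q hq)
      (OutS (0 : Fin d → ℤ) n))]
    exact ENNReal.ofReal_le_ofReal h2
  have h3 := ge_of_tendsto' hlim hge
  have h4 : c ≤ (bm _ q hq).real (InfS (0 : Fin d → ℤ)) :=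
    (ENNReal.ofReal_le_iff_le_toReal (measure_ne_top _ _)).1 h3
  linarith

end Pool.Agent.W804.HP
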